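import Pool.Agent.P.MP_0a67b8_nt.RU.If
import Pool.Agent.P.MP_e94e4b_nt.LG.Phi

/-! Averaging over the classes. -/

namespace Pool.Agent.P.MP_e94e4b_nt.RP.U

open Polynomial Finset
open Pool.Agent.P.MP_8be758_nt Pool.Agent.P.MP_8be758_nt.C2 Pool.Agent.P.MP_8be758_nt.L2
open Pool.Agent.P.MP_e94e4b_nt.LG
open scoped Classical

/-- the number of pairs at distance `h` -/
noncomputable def tw {k : Type} [Field k] [Finite k] (n : ℕ) (h : k[X]) : ℝ :=
  (((Mo k n).filter (fun f => Irreducible f ∧ Irreducible (f + h))).card : ℝ)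

def S_UF : Prop :=
  ∃ K : ℕ, 1 ≤ K ∧ ∀ (k : Type) [Field k] [Finite k] [CharP k 2], ∃ n0 : ℕ, ∀ n, n0 ≤ n →
    ∀ h : k[X], Adm h → h.natDegree < n / K → qq k ^ n ≤ 128 * (n : ℝ) ^ 2 * tw n h

theorem card_cop {k : Type} [Field k] [Finite k] {h : k[X]} (h0 : h ≠ 0) {n : ℕ}
    (hn : h.natDegree ≤ n) :
    (((Mo k n).filter (fun F => IsCoprime F h)).card : ℝ) = qq k ^ n * VV (pc 1) (pf h) := by
  rw [← sum_boole, sum_congr rfl fun b _ => phi_ind h0 b, sum_comm, VV,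
    prod_congr rfl fun P _ => sub_eq_add_neg 1 (pc 1 P), prod_one_add, mul_sum]
  refine sum_congr rfl fun S hS => ?_
  have h1 : ∀ P ∈ S, IsPr P := fun P hP => isPr_of_mem_pf (mem_powerset.1 hS hP)
  have h2 : dg S ≤ h.natDegree := (dg_mono (mem_powerset.1 hS)).trans (dg_pf_le h0)
  rw [← sum_filter, sum_const, nsmul_eq_mul, card_Mo_dvd (monic_pr h1).ne_zero
    (by rw [natDegree_pr h1]; omega), natDegree_pr h1]
  simp only [pc, ← neg_div]
  rw [prod_div_distrib, prod_const, prod_pow_eq_pow_sum, sg, dg]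
  ring

theorem p_UF (hFIN : S_FIN) : S_UF := by
  obtain ⟨K, hK, H⟩ := hFIN
  refine ⟨K, hK, fun k _ _ _ => ?_⟩
  obtain ⟨n0, H⟩ := H k
  refine ⟨n0, fun n hn h hh hd => ?_⟩
  have hq := qq_pos (k := k)
  have hd' : h.natDegree ≤ n := hd.le.trans (Nat.div_le_self _ _)
  have t0 : 0 < VV (pc 1) (pf h) := prod_pos fun P hP => sub_pos.2 (by
    unfold pc
    rw [div_lt_one (by positivity)]
    exact one_lt_pow₀ (by linarith [two_le_qq (k := k)])
      (Nat.one_le_iff_ne_zero.1 (isPr_of_mem_pf hP).pos))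
  have a1 := card_nsmul_le_sum ((Mo k n).filter (fun F => IsCoprime F h))
    (fun F => VV (pc 1) (pf h) * (128 * (n : ℝ) ^ 2 * PI2 F h n)) (QQ h n) fun F hF => by
      obtain ⟨f1, f2⟩ := mem_Mo.1 (mem_filter.1 hF).1
      have := H h F hh f1 (f2 ▸ hn) (f2 ▸ hd)
      rwa [f2] at this
  have a2 : ∑ F ∈ (Mo k n).filter (fun F => IsCoprime F h), PI2 F h n ≤ tw n h * QQ h n := by
    have : ∀ F ∈ (Mo k n).filter (fun F => IsCoprime F h), PI2 F h n ≤
        ∑ f ∈ (Mo k n).filter (fun f => Irreducible f ∧ Irreducible (f + h)),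
          if F ∈ Gs h f n then 1 else 0 := fun F hF => by
      obtain ⟨f1, f2⟩ := mem_filter.1 hF
      obtain ⟨f3, f4⟩ := mem_Mo.1 f1
      rw [sum_boole, PI2, Nat.cast_le]
      refine card_le_card fun f hf => ?_
      obtain ⟨w, i⟩ := mem_filter.1 hf
      obtain ⟨w1, -, w2⟩ := mem_Wn.1 w
      rw [cl, if_pos f2] at w2
      exact mem_filter.2 ⟨mem_filter.2 ⟨f4 ▸ w1, i⟩, mem_Gs.2 ⟨f3, f4, dvd_sub_comm.1 w2⟩⟩
    refine (sum_le_sum this).trans ?_
    rw [sum_comm, tw, ← nsmul_eq_mul]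
    refine sum_le_card_nsmul _ _ _ fun f _ => ?_
    rw [sum_boole, QQ, ← card_Gs hh.1 f hd', Nat.cast_le]
    exact card_le_card fun F hF => (mem_filter.1 hF).2
  rw [nsmul_eq_mul, card_cop hh.1 hd', ← mul_sum, ← mul_sum] at a1
  have a3 := a1.trans (mul_le_mul_of_nonneg_left
    (mul_le_mul_of_nonneg_left a2 (by positivity)) t0.le)
  refine le_of_mul_le_mul_right (le_of_eq_of_le ?_ (a3.trans_eq ?_)) (mul_pos t0 (QQ_pos h n)) <;>
    ring

end Pool.Agent.P.MP_e94e4b_nt.RP.U
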