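import Pool.Agent.P.MP_0a67b8_nt.RU.If

/-! Step AS. -/

set_option autoImplicit false
set_option linter.unusedSectionVars false

namespace Pool.Agent.P.MP_e94e4b_nt.RP.U

open Polynomial Finset
open Pool.Agent.P.MP_8be758_nt Pool.Agent.P.MP_8be758_nt.C2 Pool.Agent.P.MP_8be758_nt.L2
open Pool.Agent.P.MP_e94e4b_nt.LG
open scoped Classical

namespace ASx

variable {k : Type} [Field k] [Finite k]

theorem card_sup {T : Finset k[X]} (hT : ∀ P ∈ T, IsPr P) (δ : ℕ) :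
    ∑ S ∈ T.powerset, (if dg S ≤ δ then (1 : ℝ) else 0) ≤ qq k ^ (δ + 1) := by
  rw [sum_boole, ← card_low']
  refine Nat.cast_le.2 (card_le_card_of_injOn pr (fun S hS => ?_) fun S hS S' hS' e => ?_)
  · obtain ⟨h1, h2⟩ := mem_filter.1 (mem_coe.1 hS)
    refine mem_coe.2 (mem_low_of_natDegree_lt ?_)
    rw [natDegree_pr fun P hP => hT P (mem_powerset.1 h1 hP)]
    omega
  · exact pr_inj (fun P hP => hT P (mem_powerset.1 (mem_filter.1 (mem_coe.1 hS)).1 hP))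
      (fun P hP => hT P (mem_powerset.1 (mem_filter.1 (mem_coe.1 hS')).1 hP)) e

theorem reidx [CharP k 2] (hWB : S_WB) {F h e A B C : k[X]} {M y j : ℕ} (hF : F.Monic)
    (h0 : h ≠ 0) (hM : h.natDegree < M) (hl : M ≤ F.natDegree) (he : e ∈ Mo k y)
    (hj : y + j = F.natDegree) (hc : IsCoprime A B) :
    ∑ f ∈ Wn F h M, (if (B ∣ f ∧ C ∣ f + h) ∧ A ∣ f ∧ e ∣ f + h then mu ((f + h) /ₘ e) else 0) =
      ∑ d ∈ (Mo k j).filter (fun d => d * e + h ∈ Wn F h M ∧ A * B ∣ d * e + h ∧ C ∣ d * e),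
        mu d := by
  obtain ⟨e1, e2⟩ := mem_Mo.1 he
  have hh : ∀ x : k[X], x + h + h = x := fun x => by
    rw [add_assoc, CharTwo.add_self_eq_zero, add_zero]
  rw [← sum_filter]
  refine (sum_bij (fun d _ => d * e + h) (fun d hd => ?_) (fun d _ d' _ q => ?_) (fun f hf => ?_)
    fun d _ => by rw [hh, mul_comm, mul_divByMonic_cancel_left _ e1]).symm
  · obtain ⟨-, h1, h2, h3⟩ := mem_filter.1 hd
    exact mem_filter.2 ⟨h1, ⟨(dvd_mul_left _ _).trans h2, by rwa [hh]⟩,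
      (dvd_mul_right _ _).trans h2, by rw [hh]; exact dvd_mul_left _ _⟩
  · exact mul_right_cancel₀ e1.ne_zero (add_right_cancel q)
  · obtain ⟨h1, ⟨h2, h3⟩, h4, c, h5⟩ := mem_filter.1 hf
    obtain ⟨f2, f3⟩ := mem_Mo.1 (hWB k F h f M hF h0 hM hl h1).2.1
    rw [h5] at f2 f3
    have c1 : c.Monic := e1.of_mul_monic_left f2
    rw [e1.natDegree_mul c1] at f3
    have q : c * e + h = f := by rw [mul_comm, ← h5, hh]
    refine ⟨c, mem_filter.2 ⟨mem_Mo.2 ⟨c1, by omega⟩, by rwa [q], ?_, ?_⟩, q⟩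
    · rw [q]; exact hc.mul_dvd h4 h2
    · rwa [mul_comm, ← h5]

end ASx

open ASx in
theorem p_AS (hMAW : S_MAW) (hWB : S_WB) (hSWX : S_SWX) :
    S_AS := by
  obtain ⟨κ, D0, hκ, H⟩ := hMAW
  refine ⟨κ, D0, hκ, fun k _ _ _ F h M Z δ i y j Λ lam hF h0 hM hl hv hΛ hj hy hD => ?_⟩
  have L0 : 0 ≤ Λ := (abs_nonneg _).trans (hΛ ∅)
  have q0 : (0 : ℝ) < qq k := qq_pos
  set T := T2 h Z with hT
  have e1 : ∑ f ∈ Wn F h M, sw lam (f * (f + h)) *
      (DS i (ma (Pr k Z)) f * DM y (av (Pr k Z)) (f + h)) =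
      ∑ S ∈ T.powerset, ∑ S' ∈ T.powerset, ∑ d ∈ Mo k i, ∑ e ∈ Mo k y,
        (if Disjoint S S' then lam (S ∪ S') else 0) * ma (Pr k Z) d * av (Pr k Z) e *
          ∑ f ∈ Wn F h M, (if (pr S ∣ f ∧ pr S' ∣ f + h) ∧ d ∣ f ∧ e ∣ f + h then
            mu ((f + h) /ₘ e) else 0) := by
    simp only [mul_sum]
    simp only [sum_comm (t := Wn F h M)]
    refine sum_congr rfl fun f hf => ?_
    obtain ⟨w1, w2, -, -, -, -, w3, -⟩ := hWB k F h f M hF h0 hM hl hf
    rw [hSWX k T lam f (f + h) isPr_T2 (fun S q => (hv.1 S q).1) (mem_Mo.1 w1).1.ne_zero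
      (mem_Mo.1 w2).1.ne_zero w3, DS, DM, sum_filter, sum_filter, sum_mul_sum, sum_mul]
    refine sum_congr rfl fun S _ => ?_
    rw [sum_mul]
    refine sum_congr rfl fun S' _ => ?_
    rw [mul_sum]
    refine sum_congr rfl fun d _ => ?_
    rw [mul_sum]
    refine sum_congr rfl fun e _ => ?_
    by_cases a1 : Disjoint S S' <;> by_cases a2 : pr S ∣ f ∧ pr S' ∣ f + h <;>
      by_cases a3 : d ∣ f <;> by_cases a4 : e ∣ f + h <;> simp [a1, a2, a3, a4, mul_assoc]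
  have e2 : ∀ S ∈ T.powerset, ∀ S' ∈ T.powerset, ∀ d ∈ Mo k i, ∀ e ∈ Mo k y,
      |(if Disjoint S S' then lam (S ∪ S') else 0) * ma (Pr k Z) d * av (Pr k Z) e *
          ∑ f ∈ Wn F h M, (if (pr S ∣ f ∧ pr S' ∣ f + h) ∧ d ∣ f ∧ e ∣ f + h then
            mu ((f + h) /ₘ e) else 0)| * qq k ^ (j / κ) ≤
        (if dg S ≤ δ then 1 else 0) * ((if dg S' ≤ δ then 1 else 0) * (Λ * qq k ^ j)) := by
    intro S hS S' hS' d hd e he
    by_cases z : (if Disjoint S S' then lam (S ∪ S') else 0) * ma (Pr k Z) d * av (Pr k Z) e = 0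
    · rw [z, zero_mul, abs_zero, zero_mul]
      positivity
    have s1 := (mem_powerset.1 hS).trans (T2_sub h Z)
    have s2 := (mem_powerset.1 hS').trans (T2_sub h Z)
    have p1 : ∀ P ∈ S, IsPr P := fun P q => isPr_Pr P (s1 q)
    have p2 : ∀ P ∈ S', IsPr P := fun P q => isPr_Pr P (s2 q)
    have z1 := left_ne_zero_of_mul z
    have z2 := left_ne_zero_of_mul z1
    have dj : Disjoint S S' := by
      by_contra q
      exact z2 (if_neg q)
    rw [if_pos dj] at z2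
    have g := (hv.1 _ z2).2
    rw [if_pos ((dg_mono subset_union_left).trans g), if_pos ((dg_mono subset_union_right).trans g),
      one_mul, one_mul, if_pos dj,
      reidx hWB hF h0 hM hl he hj ((on_ma _ d (right_ne_zero_of_mul z1)).coprime s1 p1).symm,
      abs_mul, mul_assoc, abs_mul, abs_mul]
    refine mul_le_mul ?_ (H k F h e _ _ M y j hF h0 hM hl he hj hy
      (mul_ne_zero (mem_Mo.1 hd).1.ne_zero (monic_pr p1).ne_zero) (monic_pr p2).ne_zero
      ((on_av _ e (right_ne_zero_of_mul z)).coprime s2 p2) hD) (by positivity) L0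
    exact (mul_le_of_le_one_right (by positivity) (bd_av _ e)).trans
      ((mul_le_of_le_one_right (abs_nonneg _) (bd_ma _ d)).trans (hΛ _))
  have c := card_sup (isPr_T2 (h := h) (Z := Z)) δ
  rw [e1]
  refine (mul_le_mul_of_nonneg_right ((abs_sum_le_sum_abs _ _).trans (sum_le_sum fun S _ =>
    (abs_sum_le_sum_abs _ _).trans (sum_le_sum fun S' _ => (abs_sum_le_sum_abs _ _).trans
      (sum_le_sum fun d _ => abs_sum_le_sum_abs _ _)))) (by positivity)).trans ?_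
  simp only [sum_mul]
  refine (sum_le_sum fun S hS => sum_le_sum fun S' hS' => sum_le_sum fun d hd =>
    sum_le_sum fun e he => e2 S hS S' hS' d hd e he).trans ?_
  simp only [sum_const, nsmul_eq_mul, card_Mo, ← mul_sum, ← sum_mul]
  have c0 : (0 : ℝ) ≤ ∑ S ∈ T.powerset, (if dg S ≤ δ then (1 : ℝ) else 0) :=
    sum_nonneg fun _ _ => by positivity
  calc _ ≤ qq k ^ i * (qq k ^ y * (qq k ^ (δ + 1) * (qq k ^ (δ + 1) * (Λ * qq k ^ j)))) := by
        gcongr
    _ = _ := by rw [← hj]; ring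

end Pool.Agent.P.MP_e94e4b_nt.RP.U
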