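import Pool.Agent.P.MP_0a67b8_nt.RU.If

/-! Step CK. -/

set_option autoImplicit false
set_option linter.unusedSectionVars false

namespace Pool.Agent.P.MP_e94e4b_nt.RP.U

open Polynomial Finset
open Pool.Agent.P.MP_8be758_nt Pool.Agent.P.MP_8be758_nt.C2 Pool.Agent.P.MP_8be758_nt.L2
open Pool.Agent.P.MP_e94e4b_nt.LG
open scoped Classical

theorem CK_err {q Q X X' N : ℝ} {w Z M : ℕ} (hq : 1 ≤ q) (hQ : Q ≤ q ^ M) (N1 : 1 ≤ N)
    (hN : 6 * N ≤ q ^ w) (hw : 3 * w ≤ Z) (hX : X ≤ N * q ^ w * (q ^ M / q ^ Z))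
    (hX' : X' ≤ N * q ^ w * (q ^ M / q ^ Z)) : 4 * Q / q ^ Z + X + X' ≤ q ^ M / q ^ w := by
  have h0 : 0 < q := by linarith
  have h1 : 1 ≤ N * q ^ w := one_le_mul_of_one_le_of_one_le N1 (one_le_pow₀ hq)
  have h2 : Q / q ^ Z ≤ N * q ^ w * (q ^ M / q ^ Z) :=
    (div_le_div_of_nonneg_right hQ (by positivity)).trans (le_mul_of_one_le_left (by positivity) h1)
  have h3 : q ^ w * q ^ w * (q ^ M / q ^ Z) ≤ q ^ M / q ^ w := by
    rw [← mul_div_assoc, div_le_div_iff₀ (by positivity) (by positivity)]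
    simp only [← pow_add]
    exact pow_le_pow_right₀ hq (by omega)
  have h4 := mul_le_mul_of_nonneg_right hN (show 0 ≤ q ^ w * (q ^ M / q ^ Z) by positivity)
  rw [mul_div_assoc]
  linarith

theorem p_CK (hCG : S_CG) (hCZ0 : S_CZ0) (hRK1 : S_RK1) (hK : S_K) (hLAMB : S_LAMB) :
    S_CK := by
  intro t ht
  refine ⟨2 ^ t * 4, by have := Nat.two_pow_pos t; omega, fun k _ _ _ => ?_⟩
  obtain ⟨n1, h1⟩ := hK (2 ^ t) (Nat.two_pow_pos t) k
  obtain ⟨n2, h2⟩ := hLAMB (2 ^ t * 4) (by have := Nat.two_pow_pos t; omega) k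
  obtain ⟨n3, h3⟩ := NEG 3 (2 ^ t * 4) 6 1 (by have := Nat.two_pow_pos t; omega) one_pos
  refine ⟨n1 + n2 + n3, fun h F M u E lam xi c hn hu hM i j a1 a2 a3 a4 => ?_⟩
  have z1 : 13 * zz F.natDegree t ≤ dl F.natDegree t := Nat.mul_le_mul_right _ (by omega)
  have z2 : 3 * (F.natDegree / (2 ^ t * 4)) ≤ zz F.natDegree t := by
    rw [← Nat.div_div_eq_div_mul, zz]; omega
  have z3 : dl F.natDegree t ≤ F.natDegree := by omega
  have le := c.le
  have kb : ∀ a a', a + a' ≤ dl F.natDegree t →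
      KB F h M a i (j + a') (qq k ^ M / qq k ^ zz F.natDegree t) := fun a a' s =>
    h1 h F M a i (j + a') _ c.adm.1 c.mon (by omega) c.hM c.le le_rfl (by omega) (by omega) (by omega)
  have q0 := qq_pos (k := k)
  have N : ((dl F.natDegree t : ℝ) + 1) ^ 2 ≤ ((F.natDegree : ℝ) + 1) ^ 3 :=
    (pow_le_pow_left₀ (by positivity) (by exact_mod_cast Nat.succ_le_succ z3) 2).trans
      (pow_le_pow_right₀ (by simp) (by omega))
  have rk := fun lam (l : Lv (T2 h (zz F.natDegree t)) (dl F.natDegree t) lam) α α' b1 b2 b3 b4 b5 =>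
    (hRK1 k F h M _ _ i j _ _ lam α α' l (h2 _ (by omega) _ _ lam isPr_T2 l z3).1 (by positivity)
      b1 b2 b3 b4 b5 kb).trans (mul_le_mul_of_nonneg_right
        (mul_le_mul_of_nonneg_right N (by positivity)) (by positivity))
  rw [(hCZ0 k F h M _ _ i j 0 0 E lam xi c).1]
  refine (hCG k F h M _ _ i j E lam xi _ _ c (bd_ma _) (bd_ma _) (on_ma _) (on_ma _)).trans ?_
  rw [add_assoc, add_assoc, ← add_assoc (_ / _)]
  refine add_le_add_right (CK_err one_le_qq (QQ_le h M) (one_le_pow₀ (by simp))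
    ((h3 _ (by omega)).trans (by rw [one_mul]; exact two_pow_le_qq _)) z2
    (rk lam c.sv.l1 _ _ (bd_ma _) (on_ma _) (fun _ => sqf_of_ma) (bd_ma _) (on_ma _))
    (rk xi c.sv.l2 _ _ (bd_ma _).abs (on_ma _).abs (fun _ e => sqf_of_ma (abs_ne_zero.1 e))
      (bd_ma _).abs (on_ma _).abs)) _

end Pool.Agent.P.MP_e94e4b_nt.RP.U
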