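import Pool.Agent.P.MP_0a67b8_nt.RU.If

/-! Step CNT. -/

set_option autoImplicit false
set_option linter.unusedSectionVars false

namespace Pool.Agent.P.MP_e94e4b_nt.RP.U

open Polynomial Finset
open Pool.Agent.P.MP_8be758_nt Pool.Agent.P.MP_8be758_nt.C2 Pool.Agent.P.MP_8be758_nt.L2
open Pool.Agent.P.MP_e94e4b_nt.LG
open scoped Classical

theorem p_CNT (hWB : S_WB) :
    S_CNT := by
  intro k _ _ _ F h A C M hF hh hM hn hA hC
  have hq := qq_pos (k := k)
  have h2 : (2 : k[X]) = 0 := CharTwo.two_eq_zero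
  have a1 : ¬ (IsCoprime A C ∧ IsCoprime (A * C) h) → cnt F h M A C = 0 := fun c => by
    rw [cnt, Nat.cast_eq_zero, card_eq_zero, filter_eq_empty_iff]
    rintro f hf ⟨ha, hb⟩
    obtain ⟨-, -, -, -, c1, c2, c3, -⟩ := hWB k F h f M hF hh hM hn hf
    exact c ⟨(c3.of_isCoprime_of_dvd_left ha).of_isCoprime_of_dvd_right hb,
      (c1.of_isCoprime_of_dvd_left ha).mul_left (c2.of_isCoprime_of_dvd_left hb)⟩
  have a2 : IsCoprime A C ∧ IsCoprime (A * C) h → ∃ f0 : k[X], A ∣ f0 ∧ C ∣ f0 + h ∧ h ∣ f0 - cl F h ∧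
      cnt F h M A C = (((low k M).filter (fun x => A * C * h ∣ F + f0 + x)).card : ℝ) := fun c => by
    obtain ⟨⟨u, w, hw⟩, v, z, hv⟩ := id c
    rw [cnt, Wn, filter_filter]
    generalize cl F h = g
    refine ⟨h + h * C * w + A * C * v * g,
      ⟨-(h * u) + C * v * g, by linear_combination h * hw + h * h2⟩,
      ⟨h * w + A * v * g, by linear_combination h * h2⟩,
      ⟨1 + C * w - z * g, by linear_combination g * hv⟩, ?_⟩
    rw [Nat.cast_inj]
    refine card_nbij' (fun f => f - F) (fun x => F + x) (fun f hf => ?_) (fun x hx => ?_)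
      (fun f _ => by simp) fun x _ => by simp
    · obtain ⟨_, ⟨f1, s, hs⟩, ⟨a, ha⟩, b, hb⟩ := mem_filter.1 (mem_coe.1 hf)
      refine mem_coe.2 (mem_filter.2 ⟨f1, c.2.mul_dvd (c.1.mul_dvd
        ⟨a - h * u + C * v * g, by linear_combination ha + h * hw + h * h2⟩
        ⟨b + h * w + A * v * g, by linear_combination hb⟩)
        ⟨s + 1 + C * w - z * g, by linear_combination hs + g * hv + g * h2⟩⟩)
    · obtain ⟨x1, s, hs⟩ := mem_filter.1 (mem_coe.1 hx)
      exact mem_coe.2 (mem_filter.2 ⟨mem_Mo.2 (monic_add_low hF x1 hn), ⟨by simpa using x1,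
        A * C * s - 1 - C * w + z * g, by linear_combination hs - g * hv - g * h2⟩,
        ⟨C * h * s + h * u - C * v * g, by linear_combination hs - h * hw - h * h2⟩,
        A * h * s - h * w - A * v * g, by linear_combination hs⟩)
  refine ⟨a1, a2, fun l => ?_⟩
  by_cases c : IsCoprime A C ∧ IsCoprime (A * C) h
  · obtain ⟨f0, -, -, -, e⟩ := a2 c
    have hAC := mul_ne_zero hA.ne_zero hC.ne_zero
    have dQ : (A * C * h).natDegree = A.natDegree + C.natDegree + h.natDegree := by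
      rw [natDegree_mul hAC hh, natDegree_mul hA.ne_zero hC.ne_zero]
    rw [rm, e, ex, if_pos c, QQ, div_div, ← pow_add, add_comm h.natDegree,
      card_low_class (mul_ne_zero hAC hh) _ (dQ ▸ l), dQ, pow_sub₀ _ hq.ne' l, div_eq_mul_inv,
      sub_self]
  · rw [rm, a1 c, ex, if_neg c, sub_zero]

end Pool.Agent.P.MP_e94e4b_nt.RP.U
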