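import Pool.Agent.P.MP_0a67b8_nt.RU.If

/-! Step CP. -/

set_option autoImplicit false
set_option linter.unusedSectionVars false

namespace Pool.Agent.P.MP_e94e4b_nt.RP.U

open Polynomial Finset
open Pool.Agent.P.MP_8be758_nt Pool.Agent.P.MP_8be758_nt.C2 Pool.Agent.P.MP_8be758_nt.L2
open Pool.Agent.P.MP_e94e4b_nt.LG
open scoped Classical

theorem p_CP (hWB : S_WB) (hPW : S_PW) (hDSB : S_DSB) (hUB : S_UB) :
    S_CP := by
  intro k _ _ _ F h M Z δ i j β β' E lam xi C hi hj hb hb' hM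
  refine le_trans ?_ (hUB k F h M Z δ β β' E lam xi _ _ C (av_nonneg _) (av_nonneg _) (on_av _)
    (on_av _) hM).1
  refine (abs_sum_le_sum_abs _ _).trans (sum_le_sum fun f hf => ?_)
  obtain ⟨b1, b2, -⟩ := hWB k F h f M C.mon C.adm.1 C.hM C.le hf
  obtain ⟨m1, n1⟩ := mem_Mo.1 b1
  obtain ⟨m2, n2⟩ := mem_Mo.1 b2
  have p2 := (hPW k F h f M Z δ E lam xi C hf).2.1
  have d0 := mul_nonneg (DS_nonneg (j := β) (av_nonneg (Pr k Z)) f)
    (DS_nonneg (j := β') (av_nonneg (Pr k Z)) (f + h))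
  by_cases ha : Av (Pr k Z) (f * (f + h))
  · obtain ⟨a1, a2⟩ := (Av_mul isPr_Pr).1 ha
    have d1 := ((hDSB k f (Pr k Z) i β mu m1 (n1 ▸ hi)).2.2 a1).2.2 (n1 ▸ hb)
    have d2 := ((hDSB k (f + h) (Pr k Z) j β' mu m2 (n2 ▸ hj)).2.2 a2).2.2 (n2 ▸ hb')
    rw [abs_mul, abs_mul, abs_av]
    exact mul_le_mul p2 (mul_le_mul d1 d2 (abs_nonneg _) ((abs_nonneg _).trans d1))
      (by positivity) ((av_nonneg _ _).trans p2)
  · rw [av_of_not ha, zero_mul, abs_zero]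
    exact mul_nonneg ((av_nonneg _ _).trans p2) d0

end Pool.Agent.P.MP_e94e4b_nt.RP.U
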