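import Pool.Agent.P.MP_0a67b8_nt.RU.If

/-! Step CZ. -/

set_option autoImplicit false
set_option linter.unusedSectionVars false

namespace Pool.Agent.P.MP_e94e4b_nt.RP.U

open Polynomial Finset
open Pool.Agent.P.MP_8be758_nt Pool.Agent.P.MP_8be758_nt.C2 Pool.Agent.P.MP_8be758_nt.L2
open Pool.Agent.P.MP_e94e4b_nt.LG
open scoped Classical

theorem cz_ar {B1 B2 B3 A Q x1 y1 x2 y2 X Y e1 e2 : ℝ} (hA : 0 ≤ A) (hQ : A ≤ 2 * Q)
    (h1 : |B1 - A * (x1 * y1)| ≤ e1) (h2 : |B2 - A * (x2 * y2)| ≤ e2) (a1 : |x1| ≤ X)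
    (a2 : |x2| ≤ X) (b1 : |y1| ≤ Y) (b2 : |y2| ≤ Y) :
    |B1 + B2 + B3| ≤ e1 + e2 + 4 * Q * (X * Y) + |B3| := by
  have X0 : 0 ≤ X := (abs_nonneg _).trans a1
  have Q0 : 0 ≤ 2 * Q := hA.trans hQ
  have k : ∀ x y : ℝ, |x| ≤ X → |y| ≤ Y → |A * (x * y)| ≤ 2 * Q * (X * Y) := fun x y a b => by
    rw [abs_mul, abs_mul, abs_of_nonneg hA]
    exact mul_le_mul hQ (mul_le_mul a b (abs_nonneg _) X0) (by positivity) Q0
  have k1 := abs_le.1 (k _ _ a1 b1)
  have k2 := abs_le.1 (k _ _ a2 b2)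
  have k3 := abs_le.1 h1
  have k4 := abs_le.1 h2
  have k5 := le_abs_self B3
  have k6 := neg_abs_le B3
  rw [abs_le]
  constructor <;> linarith [k1.1, k1.2, k2.1, k2.2, k3.1, k3.2, k4.1, k4.2]

theorem p_CZ (hCZ0 : S_CZ0) (hCZ1 : S_CZ1) (hLEFT : S_LEFT) (hRJ : S_RJ) :
    S_CZ := by
  obtain ⟨c0, c2, hRJ⟩ := hRJ
  refine ⟨c0, c2, fun t ht => ?_⟩
  obtain ⟨κ, k1, hCZ1⟩ := hCZ1 t c0 c2 ht
  refine ⟨κ, k1, fun k _ _ _ => ?_⟩
  obtain ⟨n1, hCZ1⟩ := hCZ1 k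
  refine ⟨n1 + 3 * 2 ^ t, fun h F M u E CR lam xi ctx hn hu hM hr hm => ?_⟩
  have p2 : 0 < 2 ^ t := Nat.pos_of_ne_zero (by positivity)
  have H1 := fun α' => hCZ1 h F M u E lam xi α' ctx (by omega) hu hM
  have H0 := fun i j a b => hCZ0 k F h M _ _ i j a b E lam xi ctx
  have HL := fun i a b => hLEFT k F h M _ _ i a b E lam xi ctx
  have hs := ctx.sv
  have E0 := ctx.E0
  have E1 := ctx.E1
  have z3 : 3 ≤ zz F.natDegree t := (Nat.le_div_iff_mul_le p2).2 (by omega)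
  have zn : 2 ^ t * zz F.natDegree t ≤ F.natDegree := Nat.mul_div_le _ _
  have hδ : dl F.natDegree t = (10 * t + 3) * zz F.natDegree t := rfl
  have b1 : 4 * c0 * (F.natDegree / (4 * c0)) ≤ F.natDegree := Nat.mul_div_le _ _
  have b2 : F.natDegree < 4 * c0 * (F.natDegree / (4 * c0) + 1) :=
    Nat.lt_mul_div_succ _ (by omega)
  have b3 : ∀ a, a * (4 * c0) ≤ F.natDegree → a ≤ F.natDegree / (4 * c0) := fun a ha =>
    (Nat.le_div_iff_mul_le (by omega)).2 ha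
  clear hCZ1 hCZ0 hLEFT ctx
  generalize F.natDegree / (4 * c0) = b at *
  generalize dl F.natDegree t = δ at *
  generalize zz F.natDegree t = Z at *
  generalize F.natDegree = n at *
  have d0 : Z ≤ δ := hδ ▸ Nat.le_mul_of_pos_left _ (by omega)
  have d1 : 3600 * (c0 * δ) ≤ n := by
    refine le_trans ?_ ((Nat.mul_le_mul_right Z ht).trans zn)
    rw [hδ]; exact le_of_eq (by ring)
  have d2 : 2 * δ ≤ c0 * δ := Nat.mul_le_mul_right _ c2
  have ab : 700 * δ ≤ b := b3 _ (by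
    rw [show 700 * δ * (4 * c0) = 2800 * (c0 * δ) by ring]; omega)
  have cb : 4 * (c0 * b) ≤ n := by rw [← mul_assoc]; exact b1
  have Z0 : (0 : ℝ) < Z := by exact_mod_cast (by omega : 0 < Z)
  have om : 2 * √((((700 * δ : ℕ) : ℝ) + 1) / ((b : ℝ) + 1)) ≤ om0 c0 t := by
    refine mul_le_mul_of_nonneg_left (Real.sqrt_le_sqrt ?_) (by norm_num)
    rw [div_le_div_iff₀ (by positivity) (by positivity)]
    have e1 : (700 * δ + 1) * 2 ^ t ≤ 2804 * c0 * (10 * t + 3) * (b + 1) := by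
      calc (700 * δ + 1) * 2 ^ t ≤ 701 * δ * 2 ^ t := Nat.mul_le_mul_right _ (by omega)
        _ = 701 * (10 * t + 3) * (2 ^ t * Z) := by rw [hδ]; ring
        _ ≤ 701 * (10 * t + 3) * (4 * c0 * (b + 1)) := Nat.mul_le_mul_left _ (by omega)
        _ = _ := by ring
    exact_mod_cast e1
  have rj : ∀ i, Cor n δ i → rho (Pr k Z ∪ JJ k (700 * δ) b) i ≤ om0 c0 t / Z := fun i hi =>
    (hRJ k Z _ b i z3 (by omega) ab (by unfold Cor at hi; omega)).trans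
      (div_le_div_of_nonneg_right om Z0.le)
  have Q0 := (QQ_pos h M).le
  have v0 := hs.e0
  have o0 : 0 ≤ om0 c0 t := by unfold om0; positivity
  refine ⟨fun i j => |BS F h M (av (Pr k Z)) i (ma (Pr k Z ∪ JJ k (700 * δ) b)) j
    (ma (Pr k Z ∪ JJ k (700 * δ) b))|, fun _ _ => abs_nonneg _, fun i j hi hj => ?_,
    fun i hi => ?_⟩
  · have x : ∀ i, Cor n δ i →
        |mn i (aJ (-1) Z (700 * δ) b : k[X] → ℝ)| ≤ (2 * E + om0 c0 t) / Z := fun i hi => by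
      rw [add_div]
      exact (H0 i i _ b).2.2.1.trans (add_le_add
        (hm i (by unfold Cor at hi; omega) (by unfold Cor at hi; omega)) (rj i hi))
    have on2 : On (Pr k Z) (ma (Pr k Z ∪ JJ k (700 * δ) b)) := (on_ma _).mono subset_union_left
    have th : QQ h M * EE (pc 2) (T2 h Z) lam ≤ 2 * (QQ h M * VV (pc 2) (T2 h Z)) := by
      have h2 : EE (pc 2) (T2 h Z) lam ≤ 2 * VV (pc 2) (T2 h Z) :=
        hs.e2.trans (mul_le_mul_of_nonneg_right (by linarith) v0)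
      exact (mul_le_mul_of_nonneg_left h2 Q0).trans_eq (by ring)
    rw [(H0 i j (700 * δ) b).2.1]
    refine (cz_ar (mul_nonneg Q0 (v0.trans hs.e1)) th (H1 _ (bd_ma _) (on_ma _) i j hi hj)
      (H1 _ (bd_ma _) on2 j i hj hi) (x i hi) (x j hj)
      ((abs_mn_le_rho (bd_ma _) (on_ma _) j).trans (hr j (by unfold Cor at hj; omega)))
      ((abs_mn_le_rho (bd_ma _) on2 i).trans (hr i (by unfold Cor at hi; omega)))).trans_eq ?_
    ring
  · refine (HL i _ b (by omega) (by omega) ab (by omega) (by unfold Cor at hi; omega)).trans ?_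
    have e1 : n / b ≤ 8 * c0 := Nat.div_le_of_le_mul (by
      have : 4 * c0 * (b + 1) ≤ 4 * c0 * (2 * b) := Nat.mul_le_mul_left _ (by omega)
      rw [show b * (8 * c0) = 4 * c0 * (2 * b) by ring]; omega)
    have e2 : ((700 * δ : ℕ) : ℝ) / Z = 700 * (10 * t + 3) := by
      rw [div_eq_iff Z0.ne', hδ]; push_cast; ring
    have e3 : (2 : ℝ) ^ (n / b) ≤ 2 ^ (8 * c0) := pow_le_pow_right₀ (by norm_num) e1
    have e4 := rj i hi
    rw [e2, lc0]
    generalize hw : (700 * (10 * (t : ℝ) + 3)) ^ 512 = w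
    have w0 : 0 ≤ w := by rw [← hw]; positivity
    calc _ ≤ 2 * (QQ h M * VV (pc 2) (T2 h Z)) * (om0 c0 t / Z) * (2 ^ (8 * c0) * w) := by
          gcongr
      _ = _ := by ring

end Pool.Agent.P.MP_e94e4b_nt.RP.U
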