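import Pool.Agent.P.MP_0a67b8_nt.RU.If

/-! Step CZ0. -/

set_option autoImplicit false
set_option linter.unusedSectionVars false

namespace Pool.Agent.P.MP_e94e4b_nt.RP.U

open Polynomial Finset
open Pool.Agent.P.MP_8be758_nt Pool.Agent.P.MP_8be758_nt.C2 Pool.Agent.P.MP_8be758_nt.L2
open Pool.Agent.P.MP_e94e4b_nt.LG
open scoped Classical

namespace CZ0

variable {k : Type} [Field k] [Finite k]

theorem dec (Z a b : ℕ) {d : k[X]} (hd : d.Monic) :
    ma (Pr k Z) d = aJ (-1) Z a b d + ma (Pr k Z ∪ JJ k a b) d := by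
  have hU : Av (Pr k Z ∪ JJ k a b) d ↔ Av (Pr k Z) d ∧ Av (JJ k a b) d :=
    ⟨fun h => ⟨h.mono subset_union_left, h.mono subset_union_right⟩,
      fun h P hP => (mem_union.1 hP).elim (h.1 P) (h.2 P)⟩
  unfold ma aJ av
  by_cases hs : Squarefree d
  · have hm : mu d = (-1) ^ (pf d).card := by
      conv_lhs => rw [← BIJ_pr_pf hd hs]
      exact mu_pr fun P => isPr_of_mem_pf
    by_cases h1 : Av (Pr k Z) d <;> by_cases h2 : Av (JJ k a b) d <;> simp [hU, h1, h2, hs, hm]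
  · simp [hs, mu_of_not_squarefree hs]

theorem DS_add {α α1 α2 : k[X] → ℝ} (h : ∀ d : k[X], d.Monic → α d = α1 d + α2 d) (i : ℕ)
    (f : k[X]) : DS i α f = DS i α1 f + DS i α2 f := by
  unfold DS
  rw [← sum_add_distrib]
  exact sum_congr rfl fun d hd => h d (mem_Mo.1 (mem_filter.1 hd).1).1

theorem DS_ma {T : Finset k[X]} {f : k[X]} (h : Av T f) (i : ℕ) : DS i mu f = DS i (ma T) f :=
  sum_congr rfl fun d hd => by rw [ma, av_of (h.of_dvd (mem_filter.1 hd).2), mul_one]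

end CZ0

theorem p_CZ0 (hWB : S_WB) (hPW : S_PW) (hSYM : S_SYM) :
    S_CZ0 := by
  intro k _ _ _ F h M Z δ i j a b E lam xi C
  have h1 : CC F h M Z i j = BS F h M (av (Pr k Z)) i (ma (Pr k Z)) j (ma (Pr k Z)) := by
    unfold CC BS
    refine sum_congr rfl fun f _ => ?_
    by_cases hf : Av (Pr k Z) (f * (f + h))
    · rw [CZ0.DS_ma (hf.of_dvd (dvd_mul_right _ _)), CZ0.DS_ma (hf.of_dvd (dvd_mul_left _ _))]
    · rw [av_of_not hf, zero_mul, zero_mul]
  refine ⟨h1, ?_, ?_, ?_⟩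
  · rw [h1, ← hSYM k F h M i j (av (Pr k Z)) (ma (Pr k Z ∪ JJ k a b)) (aJ (-1) Z a b) C.mon
      C.adm.1 C.hM C.le]
    unfold BS
    rw [← sum_add_distrib, ← sum_add_distrib]
    refine sum_congr rfl fun f _ => ?_
    rw [CZ0.DS_add (fun d => CZ0.dec Z a b) i f, CZ0.DS_add (fun d => CZ0.dec Z a b) j (f + h)]
    ring
  · have e : mn i (aJ (-1) Z a b : k[X] → ℝ) = mm (Pr k Z) i - mm (Pr k Z ∪ JJ k a b) i := by
      rw [mm, mm, ← mn_sub]
      unfold mn
      rw [sum_congr rfl fun d hd => eq_sub_of_add_eq (CZ0.dec Z a b (mem_Mo.1 hd).1).symm]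
    rw [e]
    exact (abs_sub _ _).trans (add_le_add le_rfl (abs_mm_le _ _))
  · funext d
    unfold aJ
    split_ifs <;> simp [abs_pow]

end Pool.Agent.P.MP_e94e4b_nt.RP.U
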