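import Pool.Agent.P.MP_0a67b8_nt.RU.If
import Pool.Agent.P.MP_e94e4b_nt.RP.TSING
import Pool.Agent.P.MP_e94e4b_nt.RP.TFIN

/-! Step FIN. -/

set_option autoImplicit false
set_option linter.unusedSectionVars false

namespace Pool.Agent.P.MP_e94e4b_nt.RP.U

open Polynomial Finset
open Pool.Agent.P.MP_8be758_nt Pool.Agent.P.MP_8be758_nt.C2 Pool.Agent.P.MP_8be758_nt.L2
open Pool.Agent.P.MP_e94e4b_nt.LG
open scoped Classical

theorem sing2 (hADM : S_ADM) (k : Type) [Field k] [Finite k] [CharP k 2] (h : k[X]) (Z : ℕ)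
    (hA : Adm h) (hZ : h.natDegree ≤ Z) :
    VV (pc 1) (Pr k Z) ^ 2 ≤ 4 * (VV (pc 1) (pf h) * VV (pc 2) (T2 h Z)) ∧
      0 < VV (pc 1) (pf h) ∧ VV (pc 1) (pf h) ≤ 1 := by
  obtain ⟨h1, -, -⟩ := hADM k h Z hA
  have q0 := qq_pos (k := k)
  have u0 : ∀ P : k[X], 0 ≤ pc 1 P := fun P => by unfold pc; positivity
  have u1 : ∀ P : k[X], pc 1 P ≤ 1 := fun P => by
    unfold pc
    rw [div_le_one (by positivity)]
    exact one_le_pow₀ one_le_qq
  have u4 : ∀ P ∈ T2 h Z, pc 1 P ≤ 1 / 4 := fun P hP =>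
    one_div_le_one_div_of_le (by norm_num) (h1 P hP).1
  have hs : ∑ P ∈ T2 h Z, pc 1 P ^ 2 ≤ 1 / 3 := by
    rcases le_or_gt 4 (qq k) with hq | hq
    · refine (sing_sum _ 1 Z le_rfl (1 / 4) (by norm_num)
        (one_div_le_one_div_of_le (by norm_num) hq) fun P hP => ?_).trans (by norm_num)
      obtain ⟨a, b, -⟩ := (mem_T2 hA.1).1 hP
      exact ⟨a, a.pos, b⟩
    · refine (sing_sum _ 2 Z (by norm_num) (1 / 2) (by norm_num)
        (one_div_le_one_div_of_le (by norm_num) two_le_qq) fun P hP => ?_).trans (by norm_num)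
      obtain ⟨a, b, -⟩ := (mem_T2 hA.1).1 hP
      refine ⟨a, ?_, b⟩
      by_contra c
      have d := (h1 P hP).1
      rw [show P.natDegree = 1 by have := a.pos; omega, pow_one] at d
      linarith
  have h2 : VV (pc 1) (Pr k Z) = VV (pc 1) (T2 h Z) * VV (pc 1) (pf h) :=
    (prod_sdiff fun P hP => mem_Pr.2 ⟨isPr_of_mem_pf hP,
      (natDegree_le_of_dvd ((mem_pf hA.1).1 hP).2 hA.1).trans hZ⟩).symm
  have t0 : 0 < VV (pc 1) (pf h) := prod_pos fun P hP => sub_pos.2 (by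
    unfold pc
    rw [div_lt_one (by positivity)]
    exact one_lt_pow₀ (by linarith [two_le_qq (k := k)]) (Nat.one_le_iff_ne_zero.1 (isPr_of_mem_pf hP).pos))
  have t1 : VV (pc 1) (pf h) ≤ 1 :=
    prod_le_one (fun P _ => sub_nonneg.2 (u1 P)) fun P _ => by linarith [u0 P]
  have w1 : ∀ P ∈ T2 h Z, 0 ≤ 16 / 9 * pc 1 P ^ 2 ∧ 16 / 9 * pc 1 P ^ 2 ≤ 1 := fun P hP =>
    ⟨by positivity, by nlinarith [u0 P, u4 P hP]⟩
  have h4 := sing_prod (T2 h Z) (fun P => 16 / 9 * pc 1 P ^ 2) w1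
  rw [← mul_sum] at h4
  have h5 : VV (pc 1) (T2 h Z) ^ 2 * ∏ P ∈ T2 h Z, (1 - 16 / 9 * pc 1 P ^ 2) ≤
      VV (pc 2) (T2 h Z) := by
    unfold VV
    rw [← prod_pow, ← prod_mul_distrib]
    refine prod_le_prod (fun P hP => mul_nonneg (sq_nonneg _) (sub_nonneg.2 (w1 P hP).2))
      fun P hP => ?_
    have e : pc 2 P = 2 * pc 1 P := by unfold pc; ring
    have a : 9 / 16 ≤ (1 - pc 1 P) ^ 2 := by nlinarith [u0 P, u4 P hP]
    rw [e]
    nlinarith [mul_le_mul_of_nonneg_right a (sq_nonneg (pc 1 P))]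
  have h7 : 1 / 4 ≤ ∏ P ∈ T2 h Z, (1 - 16 / 9 * pc 1 P ^ 2) := by linarith
  have h8 : VV (pc 1) (T2 h Z) ^ 2 ≤ 4 * VV (pc 2) (T2 h Z) := by
    nlinarith [mul_le_mul_of_nonneg_left h7 (sq_nonneg (VV (pc 1) (T2 h Z)))]
  refine ⟨?_, t0, t1⟩
  rw [h2, mul_pow]
  calc _ ≤ 4 * VV (pc 2) (T2 h Z) * VV (pc 1) (pf h) :=
        mul_le_mul h8 (by nlinarith) (sq_nonneg _) ((sq_nonneg _).trans h8)
    _ = _ := by ring

theorem p_FIN (hNUM : S_NUM) (hINP : S_INP) (hSUM : S_SUM) (hMAIN : S_MAIN) (hIDT : S_IDT) (hADM : S_ADM) (hMER1 : S_MER1) (hEND : S_END) :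
    S_FIN := by
  obtain ⟨CF, CR, c0, κ5, hCF, hCR, -, -, hI⟩ := hINP
  obtain ⟨t, K0, ht, h1, h2, h3, hη⟩ := hNUM CF CR c0 κ5 hCF hCR
  obtain ⟨κ, hκ, hI⟩ := hI t K0 ht h1 h2 h3
  have hp : 1 ≤ 2 ^ t := Nat.one_le_two_pow
  have hp1 : 2 ^ (t + 1) = 2 * 2 ^ t := by ring
  have hp2 : 2 ≤ 2 ^ t := by
    calc 2 = 2 ^ 1 := rfl
      _ ≤ 2 ^ t := Nat.pow_le_pow_right (by norm_num) ht
  refine ⟨κ * 2 ^ (t + 1), Nat.mul_pos hκ (by positivity), fun k _ _ _ => ?_⟩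
  obtain ⟨n1, hI⟩ := hI k
  obtain ⟨n2, hn2⟩ := NEG 4 (κ * 2) 512 1 (by omega) one_pos
  obtain ⟨n3, hn3⟩ := NEG 2 (2 ^ (t + 1)) 512 1 Nat.one_le_two_pow one_pos
  refine ⟨n1 + n2 + n3 + 2 ^ t + 4, fun h F hh hF hn hnM => ?_⟩
  have d0 : F.natDegree / (κ * 2) = F.natDegree / κ / 2 := (Nat.div_div_eq_div_mul _ _ _).symm
  have d1 : F.natDegree / (κ * 2 ^ (t + 1)) ≤ F.natDegree / (κ * 2) :=
    Nat.div_le_div_left (Nat.mul_le_mul_left _ (by omega)) (by omega)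
  have d2 : F.natDegree / (κ * 2 ^ (t + 1)) ≤ F.natDegree / 2 ^ (t + 1) :=
    Nat.div_le_div_left (Nat.le_mul_of_pos_left _ hκ) (by positivity)
  have d3 : F.natDegree / 2 ^ (t + 1) = F.natDegree / 2 ^ t / 2 := by
    rw [Nat.div_div_eq_div_mul, pow_succ]
  have d4 : F.natDegree / 2 ^ t ≤ F.natDegree / 2 := Nat.div_le_div_left hp2 (by norm_num)
  obtain ⟨Θ, c3, hΘ, hC, hρ⟩ := hI h F F.natDegree hh hF (by omega) le_rfl (by omega)
  have hZ1 : 1 ≤ zz F.natDegree t := hC.n1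
  have hZd : zz F.natDegree t = F.natDegree / 2 ^ t := rfl
  have hN : F.natDegree ≤ 2 ^ (t + 1) * zz F.natDegree t := by
    have a1 := Nat.div_add_mod F.natDegree (2 ^ t)
    have a2 := Nat.mod_lt F.natDegree hp
    rw [← hZd] at a1
    have a3 : 2 ^ t ≤ 2 ^ t * zz F.natDegree t := Nat.le_mul_of_pos_right _ hZ1
    rw [hp1, mul_assoc]
    omega
  have hN' : (F.natDegree : ℝ) ≤ 2 ^ (t + 1) * (zz F.natDegree t : ℝ) := by exact_mod_cast hN
  have hK0 : (0 : ℝ) < K0 := by exact_mod_cast (show 0 < K0 by omega)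
  have hu : ((F.natDegree / K0 : ℕ) : ℝ) ≤ 2 ^ (t + 1) / K0 * (zz F.natDegree t : ℝ) := by
    refine le_trans Nat.cast_div_le ?_
    rw [div_mul_eq_mul_div]
    exact div_le_div_of_nonneg_right hN' hK0.le
  have hy : 134 * (dl F.natDegree t : ℝ) ≤ 134 * (10 * t + 3) * (zz F.natDegree t : ℝ) := by
    simp only [dl, zz]
    push_cast
    linarith
  have hS := hSUM _ _ _ _ _ _ _ _ _ _ _ _ _ _ _ _ _ _ _ _ hC hN' hu hy
  have hE : 360 * CR ^ 3 * (CF / 2 ^ (5 * t)) * (2 ^ (t + 1)) ^ 4 ≤ 1 / 16 := by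
    refine le_trans ?_ hη
    have b1 := hC.a6
    have b2 := hC.a7
    have b3 : 0 < CR := by linarith
    unfold eta
    have b4 : 0 ≤ 72 * CR ^ 2 * ((2 : ℝ) ^ (t + 1)) ^ 2 * (2 ^ (t + 1) / K0) ^ 2 := by positivity
    have b5 : 0 ≤ 24 * CR ^ 2 * ((2 : ℝ) ^ (t + 1)) ^ 3 * (2 ^ (t + 1) / K0) := by positivity
    have b6 : 0 ≤ 4 * (134 * (10 * (t : ℝ) + 3)) ^ 4 * om0 c0 t * CR := by positivity
    have b7 : 0 ≤ (134 * (10 * (t : ℝ) + 3)) ^ 3 * om0 c0 t * lc0 c0 t := by positivity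
    linarith
  have hn4 := hC.n4
  have hMa := hMAIN k F.natDegree (zz F.natDegree t) (dl F.natDegree t) (CF / 2 ^ (5 * t)) CR
    (2 ^ (t + 1)) (by omega) hZ1 (by omega) (by omega) hN' hCR hC.a4 hE hC.r1 hC.mb hρ
  have hId := hIDT k F h _ (zz F.natDegree t) hF hh.1 (by omega) le_rfl
  obtain ⟨m1, m2⟩ := hMER1 k (zz F.natDegree t)
  have hq := qq_pos (k := k)
  obtain ⟨s1, s2, s3⟩ := sing2 hADM k h (zz F.natDegree t) hh (by omega)
  have hQ := QQ_pos h F.natDegree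
  rw [← div_le_iff₀' s2]
  rw [← div_mul_cancel₀ (QQ h F.natDegree) s2.ne', mul_assoc _ _ Θ,
    mul_assoc _ _ (VV (pc 2) _)] at hS
  refine hEND _ _ _ _ _ _ _ _ _ _ _ _ (div_pos hQ s2).le m1
    (Nat.cast_nonneg _) m2 s1 (mul_le_mul_of_nonneg_left hΘ s2.le) hη hS hMa hId
    (le_trans ?_ (div_le_div_of_nonneg_right (le_div_self hQ.le s2 s3) (by norm_num)))
  refine fin_err (qq k) _ _ _ _ 1 (qq k ^ zz F.natDegree t) hq (Nat.cast_nonneg _)
    (by positivity) (by positivity) (by positivity) one_pos (by positivity) _ _ ?_ ?_ ?_ ?_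
  · rw [mul_right_comm]
    refine (mul_le_mul_of_nonneg_right ((hn2 _ (by omega)).trans
      ((one_mul _).trans_le (two_pow_le_qq (k := k) _))) (by positivity)).trans ?_
    rw [← pow_add]
    exact qq_pow_mono (by omega)
  · rw [mul_right_comm]
    refine (mul_le_mul_of_nonneg_right ((hn3 _ (by omega)).trans
      ((one_mul _).trans_le (two_pow_le_qq (k := k) _))) (by positivity)).trans ?_
    rw [← pow_succ, ← pow_add]
    exact qq_pow_mono (by omega)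
  · rw [mul_one, pow_succ]
  · rw [one_mul]

end Pool.Agent.P.MP_e94e4b_nt.RP.U
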