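import Pool.Agent.P.MP_0a67b8_nt.RU.If

/-! Step KP. -/

set_option autoImplicit false
set_option linter.unusedSectionVars false

namespace Pool.Agent.P.MP_e94e4b_nt.RP.U

open Polynomial Finset
open Pool.Agent.P.MP_8be758_nt Pool.Agent.P.MP_8be758_nt.C2 Pool.Agent.P.MP_8be758_nt.L2
open Pool.Agent.P.MP_e94e4b_nt.LG
open scoped Classical

theorem KP_mul {k : Type} [Field k] [Finite k] [CharP k 2] {U a b : k[X]} (ha : a ≠ 0) (hb : b ≠ 0)
    (C t : k[X]) :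
    DEC2_a (U * a) C t * DEC2_a (U * b) C t = DEC2_a (U * a * b) C (t * (b + a)) := by
  by_cases c : IsCoprime (U * a * b) C
  · obtain ⟨w, hw⟩ := K_inv.2 c
    rw [DEC2_eq hw, DEC2_eq ((dvd_mul_right _ b).trans hw),
      DEC2_eq ((show U * b ∣ U * a * b from ⟨a, by ring⟩).trans hw), ← psi_add,
      ← res_mul_mul (U * a) _ hb, ← res_mul_mul (U * b) _ ha, mul_right_comm U b, ← res_add]
    congr 2
    ring
  · rw [K_zero c]
    by_cases c1 : IsCoprime (U * a) C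
    · rw [K_zero (L := U * b) fun c2 => c (c1.mul_left c2.of_mul_left_right), mul_zero]
    · rw [K_zero c1, zero_mul]

theorem p_KP (hKG : S_KG) (hKC : S_KC) :
    S_KP := by
  intro k _ _ _ F h t d p1 p2 M D j c l w hh hM hF hd h1 h2 s1 s2 hl t0 ht hg n1 n0 n2
  have hq := qq_pos (k := k)
  rw [mem_Mo] at hd h1 h2
  have m1 := hd.1.mul h1.1
  have m2 := hd.1.mul h2.1
  have d1 : (d * p1).natDegree = D + j := by rw [hd.1.natDegree_mul h1.1, hd.2, h1.2]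
  have d2 : (d * p2).natDegree = D + j := by rw [hd.1.natDegree_mul h2.1, hd.2, h2.2]
  have e1 := BIJ_pr_pf m1 s1
  have e2 := BIJ_pr_pf m2 s2
  have e0 := BIJ_pr_pf hd.1 s1.of_mul_left
  have i1 : ∀ P, P ∈ pf (d * p1) ↔ IsPr P ∧ P ∣ d * p1 := fun P => mem_pf m1.ne_zero
  have i2 : ∀ P, P ∈ pf (d * p2) ↔ IsPr P ∧ P ∣ d * p2 := fun P => mem_pf m2.ne_zero
  have i0 : ∀ P, P ∈ pf d ↔ IsPr P ∧ P ∣ d := fun P => mem_pf hd.1.ne_zero
  generalize pf (d * p1) = S1 at *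
  generalize pf (d * p2) = S2 at *
  generalize pf d = S0 at *
  have hS : ∀ P ∈ S1 ∪ S2, IsPr P := fun P hP =>
    (mem_union.1 hP).elim (fun h => ((i1 P).1 h).1) fun h => ((i2 P).1 h).1
  have pU : ∀ P ∈ S1 ∩ S2, IsPr P := fun P hP => ((i1 P).1 (mem_inter.1 hP).1).1
  have pa : ∀ P ∈ S1 \ S2, IsPr P := fun P hP => ((i1 P).1 (mem_sdiff.1 hP).1).1
  have pb : ∀ P ∈ S2 \ S1, IsPr P := fun P hP => ((i2 P).1 (mem_sdiff.1 hP).1).1
  by_cases hc : IsCoprime (pr (S1 ∪ S2)) h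
  swap
  · rw [sum_eq_zero fun C _ => ?_]
    · simp only [ne_eq, OfNat.ofNat_ne_zero, not_false_eq_true, zero_pow, zero_mul]
      positivity
    by_cases c1 : IsCoprime h (d * p1 * C)
    · rw [ph, ph, K_zero (U := d * p2 * C) fun c2 => hc (IsCoprime.prod_left fun P hP =>
        (mem_union.1 hP).elim
          (fun h => c1.symm.of_isCoprime_of_dvd_left (((i1 P).1 h).2.mul_right C))
          fun h => c2.symm.of_isCoprime_of_dvd_left (((i2 P).1 h).2.mul_right C))]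
      ring
    · rw [ph, K_zero c1]; ring
  have u1 : pr (S1 ∩ S2) * pr (S1 \ S2) = d * p1 := by
    rw [← pr_union (disjoint_sdiff_inter S1 S2).symm, union_comm, sdiff_union_inter, e1]
  have u2 : pr (S1 ∩ S2) * pr (S2 \ S1) = d * p2 := by
    rw [inter_comm, ← pr_union (disjoint_sdiff_inter S2 S1).symm, union_comm, sdiff_union_inter, e2]
  have u3 : d * p1 * pr (S2 \ S1) = pr (S1 ∪ S2) := by
    rw [← e1, ← pr_union disjoint_sdiff, union_sdiff_self_eq_union]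
  have g1 := congrArg natDegree u1
  have g2 := congrArg natDegree u2
  have g3 := congrArg natDegree u3
  rw [(monic_pr pU).natDegree_mul (monic_pr pa), natDegree_pr pU, natDegree_pr pa, d1] at g1
  rw [(monic_pr pU).natDegree_mul (monic_pr pb), natDegree_pr pU, natDegree_pr pb, d2] at g2
  rw [m1.natDegree_mul (monic_pr pb), natDegree_pr pb, natDegree_pr hS, d1] at g3
  have g0 : dg S0 = D := by rw [← natDegree_pr fun P hP => ((i0 P).1 hP).1, e0, hd.2]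
  have sub : S0 ⊆ S1 ∩ S2 := fun P hP => mem_inter.2
    ⟨(i1 P).2 ⟨((i0 P).1 hP).1, ((i0 P).1 hP).2.mul_right _⟩,
      (i2 P).2 ⟨((i0 P).1 hP).1, ((i0 P).1 hP).2.mul_right _⟩⟩
  have g4 := dg_sdiff sub
  have pg : ∀ P ∈ (S1 ∩ S2) \ S0, IsPr P := fun P hP => pU P (mem_sdiff.1 hP).1
  have dv : ∀ P ∈ (S1 ∩ S2) \ S0, ∀ p, P ∣ d * p → P ∣ p := fun P hP p h =>
    ((pg P hP).prime.dvd_or_dvd h).resolve_left fun h => (mem_sdiff.1 hP).2 ((i0 P).2 ⟨pg P hP, h⟩)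
  have g5 := hg _ (monic_pr pg)
    ((pr_dvd_iff pg _).2 fun P hP => dv P hP _ ((i1 P).1 (mem_inter.1 (mem_sdiff.1 hP).1).1).2)
    ((pr_dvd_iff pg _).2 fun P hP => dv P hP _ ((i2 P).1 (mem_inter.1 (mem_sdiff.1 hP).1).2).2)
  rw [natDegree_pr pg] at g5
  have nd : ∀ P ∈ S1 ∪ S2, P ∣ pr (S2 \ S1) + pr (S1 \ S2) → P ∈ S1 ∩ S2 := fun P hP h => by
    have a := dvd_pr_iff pa (hS P hP)
    have b := dvd_pr_iff pb (hS P hP)
    by_contra c
    simp only [mem_sdiff, mem_inter, mem_union] at a b c hP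
    by_cases c1 : P ∈ S1
    · exact (b.1 ((dvd_add_left (a.2 ⟨c1, fun c2 => c ⟨c1, c2⟩⟩)).1 h)).2 c1
    · exact c1 (a.1 ((dvd_add_right (b.2 ⟨hP.resolve_left c1, c1⟩)).1 h)).1
  have A0 : pr (S2 \ S1) + pr (S1 \ S2) ≠ 0 := fun e => by
    obtain ⟨P, hP⟩ : (S2 \ S1).Nonempty := nonempty_iff_ne_empty.2 fun c => by
      rw [c, dg_empty] at g2; omega
    exact (mem_sdiff.1 hP).2 (mem_inter.1 (nd P (mem_union_right _ (mem_sdiff.1 hP).1)
      (e ▸ dvd_zero P))).1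
  have dt := natDegree_lt_of_mem_low ht t0
  have fl : ∀ {A : k[X]}, A ≠ 0 → dg ((S1 ∪ S2).filter (fun P => P ∣ A)) ≤ A.natDegree :=
    fun {A} hA => by
      have a := fun P (hP : P ∈ (S1 ∪ S2).filter (fun P => P ∣ A)) => hS P (mem_filter.1 hP).1
      rw [← natDegree_pr a]
      exact natDegree_le_of_dvd ((pr_dvd_iff a A).2 fun P hP => (mem_filter.1 hP).2) hA
  have f1 := fl (mul_ne_zero t0 A0)
  have f2 := natDegree_add_le (pr (S2 \ S1)) (pr (S1 \ S2))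
  rw [natDegree_pr pa, natDegree_pr pb] at f2
  rw [natDegree_mul t0 A0] at f1
  have f3 := (dg_mono (show (S1 ∪ S2).filter (fun P => P ∣ t * (pr (S2 \ S1) + pr (S1 \ S2))) ⊆
      (S1 ∪ S2).filter (fun P => P ∣ t) ∪ S1 ∩ S2 from fun P hP => by
    obtain ⟨a, b⟩ := mem_filter.1 hP
    exact mem_union.2 (((hS P a).prime.dvd_or_dvd b).imp (fun h => mem_filter.2 ⟨a, h⟩)
      (nd P a)))).trans (dg_union_le _ _)
  have f4 := fl t0
  obtain ⟨L, hL⟩ : ∃ L, L = min (c - (F.natDegree - M) - h.natDegree) (dg (S1 ∪ S2)) := ⟨_, rfl⟩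
  have ab : ∀ A C : k[X],
      |psi (res (A * C * h) (t * (F + h))) * DEC2_a h (A * C) (t * cl F h)| ≤ 1 :=
    fun A C => by rw [abs_mul, abs_psi, one_mul]; exact DEC2_abs _ _ _
  have key := hKG k (S1 ∪ S2) h (t * (pr (S2 \ S1) + pr (S1 \ S2))) 1
    (fun C => psi (res (d * p1 * C * h) (t * (F + h))) * DEC2_a h (d * p1 * C) (t * cl F h) *
      (psi (res (d * p2 * C * h) (t * (F + h))) * DEC2_a h (d * p2 * C) (t * cl F h)))
    c L hS hc (by omega)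
    (by omega) (fun C => by
      rw [abs_mul]; exact mul_le_one₀ (ab _ _) (abs_nonneg _) (ab _ _)) fun C hC x hx => by
      rw [hKC k F h _ t M c L hh m1.ne_zero (by omega) (by rwa [d1, ← hl]) (by omega) hF C hC x hx,
        hKC k F h _ t M c L hh m2.ne_zero (by omega) (by rwa [d2, ← hl]) (by omega) hF C hC x hx]
  have e3 : ∀ C, DEC2_a (d * p1) C t * DEC2_a (d * p2) C t =
      DEC2_a (pr (S1 ∪ S2)) (1 * C) (t * (pr (S2 \ S1) + pr (S1 \ S2))) := fun C => by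
    rw [← u1, ← u2, KP_mul (monic_pr pa).ne_zero (monic_pr pb).ne_zero, u1, u3, one_mul]
  simp only [← e3] at key
  rw [sum_congr rfl fun C _ => mul_mul_mul_comm _ _ _ _] at key
  generalize dg ((S1 ∪ S2).filter (fun P => P ∣ t * (pr (S2 \ S1) + pr (S1 \ S2)))) = y at *
  refine le_of_mul_le_mul_right ?_ (pow_pos hq (dg (S1 ∪ S2) + y))
  rw [mul_assoc, ← pow_add, mul_assoc]
  exact le_trans (mul_le_mul_of_nonneg_left (qq_pow_mono (n := 2 * L) (by omega)) (sq_nonneg _)) key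

end Pool.Agent.P.MP_e94e4b_nt.RP.U
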