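import Pool.Agent.P.MP_0a67b8_nt.RU.If

/-! Step LEFT. -/

set_option autoImplicit false
set_option linter.unusedSectionVars false

namespace Pool.Agent.P.MP_e94e4b_nt.RP.U

open Polynomial Finset
open Pool.Agent.P.MP_8be758_nt Pool.Agent.P.MP_8be758_nt.C2 Pool.Agent.P.MP_8be758_nt.L2
open Pool.Agent.P.MP_e94e4b_nt.LG
open scoped Classical

namespace LEFT

variable {k : Type} [Field k] [Finite k]

noncomputable def aU (J : Finset k[X]) (d : k[X]) : ℝ :=
  if Squarefree d ∧ pf d ⊆ J then (512 : ℝ) ^ (pf d).card else 0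

theorem aU_nonneg (J : Finset k[X]) (d : k[X]) : 0 ≤ aU J d := by
  unfold aU
  split_ifs
  · positivity
  · exact le_rfl

theorem on_aU (Z a : ℕ) : On (Pr k Z) (aU (JJ k Z a)) := by
  intro d hd P hP hPd
  unfold aU at hd
  split_ifs at hd with h
  · have h1 := mem_Pr.1 hP
    have h2 := mem_JJ.1 (h.2 ((mem_pf h.1.ne_zero).2 ⟨h1.1, hPd⟩))
    omega
  · exact hd rfl

theorem prod_pc (c : ℝ) (S : Finset k[X]) :
    ∏ P ∈ S, pc c P = c ^ S.card / qq k ^ dg S := by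
  unfold pc dg
  rw [prod_div_distrib, prod_const, prod_pow_eq_pow_sum]

theorem mn_aU {J : Finset k[X]} (hJ : ∀ P ∈ J, IsPr P) (u : ℕ) :
    mn u (aU J) = ∑ S ∈ J.powerset.filter (fun S => dg S = u), ∏ P ∈ S, pc 512 P := by
  have h1 : ∑ d ∈ Mo k u, aU J d = ∑ d ∈ (Mo k u).filter Squarefree,
      (if pf d ⊆ J then (512 : ℝ) ^ (pf d).card else 0) := by
    rw [sum_filter]
    refine sum_congr rfl fun d _ => ?_
    unfold aU
    by_cases h1 : Squarefree d <;> by_cases h2 : pf d ⊆ J <;> simp [h1, h2]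
  have h2 := a_BIJ k u (fun d => if pf d ⊆ J then (512 : ℝ) ^ (pf d).card else 0)
  have h3 : ∑ S ∈ Sc (∅ : Finset k[X]) u,
      (if pf (pr S) ⊆ J then (512 : ℝ) ^ (pf (pr S)).card else 0) =
      ∑ S ∈ Sc (∅ : Finset k[X]) u, (if S ⊆ J then (512 : ℝ) ^ S.card else 0) := by
    refine sum_congr rfl fun S hS => ?_
    rw [pf_pr (mem_Sc.1 hS).1]
  have h4 : (Sc (∅ : Finset k[X]) u).filter (fun S => S ⊆ J) =
      J.powerset.filter (fun S => dg S = u) := by
    ext S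
    rw [mem_filter, mem_filter, mem_Sc, mem_powerset]
    exact ⟨fun h => ⟨h.2, h.1.2.1⟩,
      fun h => ⟨⟨fun P hP => hJ P (h.1 hP), h.2, disjoint_empty_right _⟩, h.1⟩⟩
  unfold mn
  rw [h1, ← h2, h3, ← sum_filter, h4, sum_div]
  refine sum_congr rfl fun S hS => ?_
  rw [prod_pc, (mem_filter.1 hS).2]

theorem sum_mn_aU {J : Finset k[X]} (hJ : ∀ P ∈ J, IsPr P) (N : ℕ) :
    ∑ u ∈ range N, mn u (aU J) ≤ ∏ P ∈ J, (1 + pc 512 P) := by
  rw [prod_one_add, sum_congr rfl fun u _ => mn_aU hJ u, sum_fiberwise_eq_sum_filter]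
  refine sum_le_sum_of_subset_of_nonneg (filter_subset _ _) fun S _ _ => ?_
  rw [prod_pc]
  have := qq_pos (k := k)
  positivity

end LEFT

theorem p_LEFT (hWB : S_WB) (hPW : S_PW) (hUB : S_UB) (hLF0 : S_LF0) (hMER3 : S_MER3) :
    S_LEFT := by
  intro k _ _ _ F h M Z δ i a b E lam xi ctx hZ hZa hab h8 hM
  set T' := Pr k Z ∪ JJ k a b with hT'
  set J := JJ k Z a with hJ
  have hJp : ∀ P ∈ J, IsPr P := fun P hP => (mem_JJ.1 hP).1
  have hQV : 0 ≤ QQ h M * VV (pc 2) (T2 h Z) := mul_nonneg (QQ_pos h M).le ctx.sv.e0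
  have s1 : ∑ j ∈ range (F.natDegree + 1), |BS F h M (av (Pr k Z)) i (ma T') j (ma T')| ≤
      ∑ f ∈ Wn F h M, av (Pr k Z) (f * (f + h)) *
        (|DS i (ma T') f| * ∑ j ∈ range (F.natDegree + 1), |DS j (ma T') (f + h)|) := by
    simp only [mul_sum]
    rw [sum_comm]
    refine sum_le_sum fun j _ => ?_
    unfold BS
    refine (abs_sum_le_sum_abs _ _).trans (le_of_eq (sum_congr rfl fun f _ => ?_))
    rw [abs_mul, abs_mul, abs_av]
  have s2 : ∀ f ∈ Wn F h M, av (Pr k Z) (f * (f + h)) *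
        (|DS i (ma T') f| * ∑ j ∈ range (F.natDegree + 1), |DS j (ma T') (f + h)|) ≤
      sw lam (f * (f + h)) * (DS i (av T') f * (2 ^ (F.natDegree / b) *
        ∑ u ∈ range (F.natDegree / 4 + 1), DS u (LEFT.aU J) (f + h))) := by
    intro f hf
    have hw := hWB k F h f M ctx.mon ctx.adm.1 ctx.hM ctx.le hf
    have hp := (hPW k F h f M Z δ E lam xi ctx hf).2.1
    have hD : 0 ≤ DS i (av T') f := DS_nonneg (av_nonneg _) _
    have hS : 0 ≤ (2 : ℝ) ^ (F.natDegree / b) *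
        ∑ u ∈ range (F.natDegree / 4 + 1), DS u (LEFT.aU J) (f + h) :=
      mul_nonneg (by positivity) (sum_nonneg fun u _ => DS_nonneg (LEFT.aU_nonneg J) _)
    by_cases hA : Av (Pr k Z) (f * (f + h))
    · obtain ⟨m1, m2⟩ := mem_Mo.1 hw.2.1
      have hl := hLF0 k (f + h) Z a b m1 (hA.of_dvd (dvd_mul_left _ _)) hZa hab (by omega)
        (by omega)
      rw [m2] at hl
      refine mul_le_mul hp (mul_le_mul ?_ hl (sum_nonneg fun _ _ => abs_nonneg _) hD)
        (mul_nonneg (abs_nonneg _) (sum_nonneg fun _ _ => abs_nonneg _))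
        ((av_nonneg _ _).trans hp)
      exact (abs_DS_le _ _ _).trans (DS_mono (abs_ma_le T') _)
    · rw [av_of_not hA, zero_mul]
      exact mul_nonneg ((av_nonneg _ _).trans hp) (mul_nonneg hD hS)
  have s3 : ∑ f ∈ Wn F h M, sw lam (f * (f + h)) * (DS i (av T') f * (2 ^ (F.natDegree / b) *
        ∑ u ∈ range (F.natDegree / 4 + 1), DS u (LEFT.aU J) (f + h))) =
      2 ^ (F.natDegree / b) * ∑ u ∈ range (F.natDegree / 4 + 1),
        BS F h M (sw lam) i (av T') u (LEFT.aU J) := by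
    unfold BS
    simp only [mul_sum]
    rw [sum_comm]
    refine sum_congr rfl fun u _ => sum_congr rfl fun f _ => ?_
    ring
  have s4 : ∑ u ∈ range (F.natDegree / 4 + 1), BS F h M (sw lam) i (av T') u (LEFT.aU J) ≤
      2 * (QQ h M * VV (pc 2) (T2 h Z)) * rho T' i *
        ∑ u ∈ range (F.natDegree / 4 + 1), mn u (LEFT.aU J) := by
    rw [mul_sum]
    refine sum_le_sum fun u hu => ?_
    have hu' := mem_range.1 hu
    have := (hUB k F h M Z δ i u E lam xi (av T') (LEFT.aU J) ctx (av_nonneg _)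
      (LEFT.aU_nonneg J) ((on_av T').mono subset_union_left) (LEFT.on_aU Z a) (by omega)).1
    refine this.trans (le_of_eq ?_)
    unfold rho
    ring
  have s5 : ∑ u ∈ range (F.natDegree / 4 + 1), mn u (LEFT.aU J) ≤ ((a : ℝ) / Z) ^ 512 := by
    have := hMER3 k 512 Z a hZ hZa
    refine (LEFT.sum_mn_aU hJp _).trans ?_
    simpa using this
  have hr : 0 ≤ 2 * (QQ h M * VV (pc 2) (T2 h Z)) * rho T' i :=
    mul_nonneg (mul_nonneg (by norm_num) hQV) (rho_nonneg _ _)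
  refine s1.trans ((sum_le_sum s2).trans ?_)
  rw [s3]
  have h2 : (0 : ℝ) ≤ 2 ^ (F.natDegree / b) := by positivity
  refine (mul_le_mul_of_nonneg_left (s4.trans (mul_le_mul_of_nonneg_left s5 hr)) h2).trans
    (le_of_eq ?_)
  ring

end Pool.Agent.P.MP_e94e4b_nt.RP.U
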