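import Pool.Agent.P.MP_0a67b8_nt.RU.If

/-! Step MAW. -/

set_option autoImplicit false
set_option linter.unusedSectionVars false

namespace Pool.Agent.P.MP_e94e4b_nt.RP.U

open Polynomial Finset
open Pool.Agent.P.MP_8be758_nt Pool.Agent.P.MP_8be758_nt.C2 Pool.Agent.P.MP_8be758_nt.L2
open Pool.Agent.P.MP_e94e4b_nt.LG
open scoped Classical

theorem p_MAW (hMAP : S_MAP) (hWB : S_WB) :
    S_MAW := by
  obtain ⟨κ5, D0, k1, hS⟩ := hMAP
  refine ⟨κ5, D0, k1, fun k _ _ _ F h e A C M y j hF h0 hM hn he hy hyM hA hC hCe hD => ?_⟩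
  rcases ((Mo k j).filter (fun d => d * e + h ∈ Wn F h M ∧ A ∣ d * e + h ∧ C ∣ d * e)
    ).eq_empty_or_nonempty with hE | ⟨d0, hd0⟩
  · rw [hE, sum_empty, abs_zero, zero_mul]
    exact (pow_pos qq_pos _).le
  obtain ⟨d1, w0, a0, c0⟩ := mem_filter.1 hd0
  obtain ⟨e1, e2⟩ := mem_Mo.1 he
  obtain ⟨b1, -, -, -, b2, b3, b4, -⟩ := hWB k F h _ M hF h0 hM hn w0
  rw [add_assoc, add_self', add_zero] at b3 b4
  have hhe : IsCoprime h e := b3.of_mul_left_right.symm
  have hAe : IsCoprime A e := (b4.of_isCoprime_of_dvd_left a0).of_mul_right_right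
  have hhA : IsCoprime h A := (b2.of_isCoprime_of_dvd_left a0).symm
  have hhC : IsCoprime h C := (b3.of_isCoprime_of_dvd_left c0).symm
  have hAC : IsCoprime A C := (b4.of_isCoprime_of_dvd_left a0).of_isCoprime_of_dvd_right c0
  rw [filter_congr (q := fun d => d - d0 ∈ low k (M - y) ∧ h * A * C ∣ d - d0) fun d _ => ?_]
  · exact hS k d0 _ _ j (mul_ne_zero (mul_ne_zero h0 hA) hC) d1 (by omega) hD
  constructor
  · rintro ⟨w, a, c⟩
    obtain ⟨-, w1, w2⟩ := mem_Wn.1 w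
    obtain ⟨-, v1, v2⟩ := mem_Wn.1 w0
    have l1 := sub_mem_low w1 v1
    have l2 := dvd_sub w2 v2
    have l3 := dvd_sub a a0
    have l4 := dvd_sub c c0
    rw [show d * e + h - F - (d0 * e + h - F) = e * (d - d0) by ring] at l1
    rw [show d * e + h - cl F h - (d0 * e + h - cl F h) = (d - d0) * e by ring] at l2
    rw [show d * e + h - (d0 * e + h) = (d - d0) * e by ring] at l3
    rw [← sub_mul] at l4
    exact ⟨e2 ▸ mem_low_of_mul e1.ne_zero l1, (hhC.mul_left hAC).mul_dvd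
      (hhA.mul_dvd (hhe.dvd_of_dvd_mul_right l2) (hAe.dvd_of_dvd_mul_right l3))
      (hCe.dvd_of_dvd_mul_right l4)⟩
  · rintro ⟨l, c, hc⟩
    have x1 : d * e + h = d0 * e + h + e * (d - d0) := by ring
    have x2 : d * e = d0 * e + e * (d - d0) := by ring
    refine ⟨?_, ?_, ?_⟩
    · rw [x1]
      exact add_mem_Wn w0 ((mem_Mo.1 b1).2 ▸ hn) (mul_mem_low l (by omega))
        ⟨e * A * C * c, by rw [hc]; ring⟩
    · rw [x1]
      exact dvd_add a0 ⟨e * h * C * c, by rw [hc]; ring⟩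
    · rw [x2]
      exact dvd_add c0 ⟨e * h * A * c, by rw [hc]; ring⟩

end Pool.Agent.P.MP_e94e4b_nt.RP.U
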