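import Pool.Agent.P.MP_0a67b8_nt.RU.If

/-! Step PW. -/

set_option autoImplicit false
set_option linter.unusedSectionVars false

namespace Pool.Agent.P.MP_e94e4b_nt.RP.U

open Polynomial Finset
open Pool.Agent.P.MP_8be758_nt Pool.Agent.P.MP_8be758_nt.C2 Pool.Agent.P.MP_8be758_nt.L2
open Pool.Agent.P.MP_e94e4b_nt.LG
open scoped Classical

theorem p_PW (hWB : S_WB) :
    S_PW := by
  intro k _ _ _ F h f M Z δ E lam xi c hf
  have h0 := c.adm.1
  obtain ⟨w1, w2, -, -, w5, w6, -, w8, -⟩ := hWB k F h f M c.mon h0 c.hM c.le hf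
  have n0 : f * (f + h) ≠ 0 := mul_ne_zero (mem_Mo.1 w1).1.ne_zero (mem_Mo.1 w2).1.ne_zero
  have e : Av (Pr k Z) (f * (f + h)) ↔ Disjoint (pf (f * (f + h))) (T2 h Z) := by
    rw [← Av_iff isPr_T2 n0]
    refine ⟨fun a => a.mono (T2_sub h Z), fun a P hP hd => a P ?_ hd⟩
    obtain ⟨p1, p2⟩ := mem_Pr.1 hP
    exact (mem_T2 h0).2 ⟨p1, p2, fun hh => p1.2.not_isUnit
      ((w5.mul_left w6).isUnit_of_dvd' hd hh)⟩
  have p := c.sv.pos (pf (f * (f + h)))
  refine ⟨av_mul isPr_Pr _ _, ?_, ?_, fun a => ?_⟩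
  · by_cases a : Av (Pr k Z) (f * (f + h))
    · rw [av_of a, sw, c.sv.one _ (e.1 a)]
    · rw [av_of_not a]; exact p.1
  · by_cases a : Av (Pr k Z) (f * (f + h))
    · rw [av_of a, sw, c.sv.one _ (e.1 a), sub_self, abs_zero]; exact p.2
    · rw [av_of_not a, zero_sub, abs_neg, sw, abs_of_nonneg p.1]
      exact c.sv.dom _ fun b => a (e.2 b)
  · have s := fun S hS => (c.sv.l1.1 S hS).1
    have d := (Av_iff isPr_T2 (mem_Mo.1 w1).1.ne_zero).1 (a.mono (T2_sub h Z))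
    rw [sw, sw, wt_inter s, wt_inter s (pf (f + h)), w8, union_inter_distrib_right,
      disjoint_iff_inter_eq_empty.1 d, empty_union]

end Pool.Agent.P.MP_e94e4b_nt.RP.U
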