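import Pool.Agent.P.MP_0a67b8_nt.RU.If

/-! Step RK0. -/

set_option autoImplicit false
set_option linter.unusedSectionVars false

namespace Pool.Agent.P.MP_e94e4b_nt.RP.U

open Polynomial Finset
open Pool.Agent.P.MP_8be758_nt Pool.Agent.P.MP_8be758_nt.C2 Pool.Agent.P.MP_8be758_nt.L2
open Pool.Agent.P.MP_e94e4b_nt.LG
open scoped Classical

theorem RK_pf {k : Type} [Field k] [Finite k] {Z : ℕ} {T S : Finset k[X]} {d : k[X]}
    (hT : T ⊆ Pr k Z) (hS : S ⊆ T) (hd : Av (Pr k Z) d) (h0 : d ≠ 0) : pf (d * pr S) ∩ T = S := by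
  have pS : ∀ P ∈ S, IsPr P := fun P hP => isPr_Pr P (hT (hS hP))
  ext P
  rw [mem_inter, mem_pf (mul_ne_zero h0 (monic_pr pS).ne_zero)]
  exact ⟨fun a => (dvd_pr_iff pS a.1.1).1
      ((a.1.1.prime.dvd_or_dvd a.1.2).resolve_left (hd P (hT a.2))),
    fun a => ⟨⟨pS P a, (dvd_prod_of_mem _ a).mul_left _⟩, hS a⟩⟩

theorem RK_inj {k : Type} [Field k] [Finite k] {Z : ℕ} {T : Finset k[X]} (hT : T ⊆ Pr k Z)
    (i δ : ℕ) (g : ℕ → k[X] → ℝ) (hg : ∀ a D, 0 ≤ g a D) :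
    ∑ S ∈ T.powerset.filter (fun S => dg S ≤ δ), ∑ d ∈ (Mo k i).filter (Av (Pr k Z)),
      g (dg S) (d * pr S) ≤ ∑ a ∈ range (δ + 1), ∑ D ∈ Mo k (i + a), g a D := by
  rw [← sum_product', sum_sigma', ← sum_image (f := fun y : Σ _ : ℕ, k[X] => g y.1 y.2)
    (g := fun x : Finset k[X] × k[X] => ⟨dg x.1, x.2 * pr x.1⟩) fun x hx y hy e => ?_]
  · refine sum_le_sum_of_subset_of_nonneg (fun y hy => ?_) fun _ _ _ => hg _ _
    obtain ⟨x, hx, rfl⟩ := mem_image.1 hy
    simp only [mem_product, mem_filter, mem_powerset, mem_Mo] at hx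
    have p : ∀ P ∈ x.1, IsPr P := fun P hP => isPr_Pr P (hT (hx.1.1 hP))
    exact mem_sigma.2 ⟨mem_range.2 (Nat.lt_succ_of_le hx.1.2), mem_Mo.2 ⟨hx.2.1.1.mul (monic_pr p),
      by rw [hx.2.1.1.natDegree_mul (monic_pr p), natDegree_pr p, hx.2.1.2]⟩⟩
  · simp only [mem_coe, mem_product, mem_filter, mem_powerset, mem_Mo] at hx hy
    have e1 : x.2 * pr x.1 = y.2 * pr y.1 := eq_of_heq (Sigma.mk.inj e).2
    have e2 : x.1 = y.1 := by
      rw [← RK_pf hT hx.1.1 hx.2.2 hx.2.1.1.ne_zero, e1, RK_pf hT hy.1.1 hy.2.2 hy.2.1.1.ne_zero]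
    rw [e2] at e1
    exact Prod.ext e2 (mul_right_cancel₀
      (monic_pr fun P hP => isPr_Pr P (hT (hy.1.1 hP))).ne_zero e1)

theorem p_RK0 :
    S_RK0 := by
  intro k _ _ F h M Z δ i u j Λ B lam b α' hl hΛ hB b1 b2 a1 a2 hK
  have L0 : 0 ≤ Λ := (abs_nonneg _).trans (hΛ ∅)
  obtain ⟨β, hβ⟩ : ∃ β : k[X] → k[X] → ℝ, ∀ D p, β D p =
      if Squarefree (D * p) then b (D /ₘ pr (pf D ∩ T2 h Z)) p else 0 := ⟨_, fun _ _ => rfl⟩
  obtain ⟨g, hg⟩ : ∃ g : ℕ → k[X] → ℕ → k[X] → ℝ, ∀ a D a' C, g a D a' C = if a + a' ≤ δ then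
      |∑ p ∈ Mo k u, β D p * rm F h M (D * p) C| else 0 := ⟨_, fun _ _ _ _ => rfl⟩
  have g0 : ∀ a D a' C, 0 ≤ g a D a' C := fun a D a' C => by rw [hg]; positivity
  have one : ∀ S ∈ (T2 h Z).powerset, ∀ S' ∈ (T2 h Z).powerset,
      |(if Disjoint S S' then lam (S ∪ S') else 0) * ∑ d ∈ Mo k i, ∑ p ∈ Mo k u, ∑ d' ∈ Mo k j,
        b d p * α' d' * rm F h M (d * p * pr S) (d' * pr S')| ≤
      Λ * if dg S ≤ δ then if dg S' ≤ δ then ∑ d ∈ (Mo k i).filter (Av (Pr k Z)),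
        ∑ d' ∈ (Mo k j).filter (Av (Pr k Z)), g (dg S) (d * pr S) (dg S') (d' * pr S')
        else 0 else 0 := by
    intro S hS S' _
    by_cases z : (if Disjoint S S' then lam (S ∪ S') else 0) = 0
    · rw [z, zero_mul, abs_zero]
      refine mul_nonneg L0 ?_
      split_ifs
      exacts [sum_nonneg fun _ _ => sum_nonneg fun _ _ => g0 _ _ _ _, le_rfl, le_rfl]
    obtain ⟨z1, z2⟩ := ite_ne_right_iff.1 z
    have z3 := (hl.1 _ z2).2
    rw [dg_union z1] at z3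
    rw [mem_powerset] at hS
    have pS : ∀ P ∈ S, IsPr P := fun P hP => isPr_T2 P (hS hP)
    rw [if_pos z1, if_pos (by omega), if_pos (by omega), abs_mul, sum_filter]
    refine mul_le_mul (hΛ _) ((abs_sum_le_sum_abs _ _).trans (sum_le_sum fun d hd => ?_))
      (abs_nonneg _) L0
    split_ifs with c
    swap
    · rw [sum_eq_zero fun p _ => sum_eq_zero fun d' _ => by
        rw [of_not_not fun e => c ((b2 d p e).1.of_dvd (dvd_mul_right _ _)), zero_mul, zero_mul],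
        abs_zero]
    rw [sum_comm, sum_filter]
    refine (abs_sum_le_sum_abs _ _).trans (sum_le_sum fun d' _ => ?_)
    split_ifs with c'
    swap
    · rw [sum_eq_zero fun p _ => by
        rw [of_not_not fun e => c' (a2 d' e), mul_zero, zero_mul], abs_zero]
    have e : ∀ p, β (d * pr S) p = b d p := fun p => by
      rw [hβ, RK_pf (T2_sub h Z) hS c (mem_Mo.1 hd).1.ne_zero, mul_comm d,
        mul_divByMonic_cancel_left _ (monic_pr pS)]
      split_ifs with s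
      · rfl
      · by_contra e
        obtain ⟨e1, e2⟩ := b2 d p (Ne.symm e)
        exact s (by
          rw [mul_assoc]
          exact (squarefree_mul_iff.2 ⟨(e1.coprime (hS.trans (T2_sub h Z)) pS).isRelPrime,
            squarefree_pr pS, e2⟩))
    rw [hg, if_pos z3, sum_congr rfl fun p _ => show b d p * α' d' * rm F h M (d * p * pr S)
      (d' * pr S') = α' d' * (β (d * pr S) p * rm F h M (d * pr S * p) (d' * pr S')) by
        rw [e, mul_right_comm d p]; ring, ← mul_sum, abs_mul]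
    exact mul_le_of_le_one_left (abs_nonneg _) (a1 d')
  refine (abs_sum_le_sum_abs _ _).trans ((sum_le_sum fun S hS => (abs_sum_le_sum_abs _ _).trans
    (sum_le_sum (one S hS))).trans ?_)
  simp only [← mul_sum]
  rw [mul_comm (_ ^ 2), mul_assoc]
  refine mul_le_mul_of_nonneg_left ?_ L0
  have two := RK_inj (T2_sub h Z) i δ
    (fun a D => ∑ a' ∈ range (δ + 1), ∑ C ∈ Mo k (j + a'), g a D a' C)
    fun a D => sum_nonneg fun _ _ => sum_nonneg fun _ _ => g0 _ _ _ _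
  refine le_trans ?_ (two.trans ?_)
  · rw [sum_filter]
    refine sum_le_sum fun S _ => ?_
    split_ifs
    · rw [← sum_filter, sum_comm]
      exact sum_le_sum fun d _ => RK_inj (T2_sub h Z) j δ _ (g0 _ _)
    · simp
  · refine (sum_le_card_nsmul _ _ (((δ : ℝ) + 1) * B) fun a _ => ?_).trans_eq (by simp; ring)
    rw [sum_comm]
    refine (sum_le_card_nsmul _ _ B fun a' _ => ?_).trans_eq (by simp)
    simp only [hg]
    split_ifs with c
    · refine hK a a' c β (fun D p => ?_) fun D p e => ?_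
      · rw [hβ]; split_ifs
        exacts [b1 _ _, by simp]
      · rw [hβ] at e; exact (ite_ne_right_iff.1 e).1
    · simpa using hB

end Pool.Agent.P.MP_e94e4b_nt.RP.U
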