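import Pool.Agent.P.MP_0a67b8_nt.RU.If

/-! Step T. -/

set_option autoImplicit false
set_option linter.unusedSectionVars false

namespace Pool.Agent.P.MP_e94e4b_nt.RP.U

open Polynomial Finset
open Pool.Agent.P.MP_8be758_nt Pool.Agent.P.MP_8be758_nt.C2 Pool.Agent.P.MP_8be758_nt.L2
open Pool.Agent.P.MP_e94e4b_nt.LG
open scoped Classical

theorem T_br (u Q n : ℝ) (hu : 1 ≤ u) (hQ : u ^ 2 ≤ Q) (hn : 0 ≤ n) :
    √(2 * (1 / u ^ 2) + 2 / Q) + √(2 / Q) + (3 * n + 1) / Q ≤ (3 * n + 5) / u := by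
  have u0 : 0 < u := by linarith
  have uu : u ≤ u ^ 2 := by nlinarith
  have a0 : 2 / Q ≤ 2 / u ^ 2 := div_le_div_of_nonneg_left (by norm_num) (by positivity) hQ
  have e : (2 / u) ^ 2 = 2 / u ^ 2 + 2 / u ^ 2 := by rw [div_pow]; ring
  have p0 : 0 ≤ 2 / u ^ 2 := by positivity
  have a1 : √(2 * (1 / u ^ 2) + 2 / Q) ≤ 2 / u := by
    refine Real.sqrt_le_iff.2 ⟨by positivity, ?_⟩
    rw [e, mul_one_div]; linarith
  have a2 : √(2 / Q) ≤ 2 / u := by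
    refine Real.sqrt_le_iff.2 ⟨by positivity, ?_⟩
    rw [e]; linarith
  have a3 : (3 * n + 1) / Q ≤ (3 * n + 1) / u :=
    div_le_div_of_nonneg_left (by linarith) u0 (by linarith)
  have e2 : (3 * n + 5) / u = 2 / u + 2 / u + (3 * n + 1) / u := by ring
  linarith

theorem T_num (P G T n D QD M W : ℝ) (hP : QD ≤ 2 * D * P) (hn : 4 * D * n ≤ QD) (h0 : 0 < QD)
    (hD : 0 ≤ D) (hG : 1 ≤ G * M) (hG0 : 0 ≤ G) (hM : 0 ≤ M) (hT : 0 ≤ T)
    (h : (P - n) * G * T ≤ QD * W) : T ≤ M * (4 * D * W) := by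
  have a1 : QD ≤ 4 * D * (P - n) := by linarith
  have a2 : QD * (G * T) ≤ QD * (4 * D * W) :=
    calc QD * (G * T) ≤ 4 * D * (P - n) * (G * T) := by gcongr
      _ = 4 * D * ((P - n) * G * T) := by ring
      _ ≤ 4 * D * (QD * W) := by gcongr
      _ = _ := by ring
  have a3 := le_of_mul_le_mul_left a2 h0
  calc T ≤ G * M * T := le_mul_of_one_le_left hT hG
    _ = M * (G * T) := by ring
    _ ≤ _ := by gcongr

theorem p_T (hDIV : S_DIV) (hTGEN : S_TGEN) (hTPAR : S_TPAR) :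
    S_T := by
  intro K0 hK0
  obtain ⟨K, hK⟩ : ∃ K, K = 100 * K0 := ⟨_, rfl⟩
  obtain ⟨κ, hκe⟩ : ∃ κ, κ = 1000 * K0 * 2 ^ (2 * K + 5) := ⟨_, rfl⟩
  have hκ : 1 ≤ κ := by rw [hκe]; exact Nat.mul_pos (by omega) (by positivity)
  refine ⟨κ, hκ, fun k _ _ _ => ?_⟩
  obtain ⟨n1, hn1⟩ := NEG 1 1 (2 * K) 1 le_rfl one_pos
  obtain ⟨n2, hn2⟩ := NEG (K + 2) κ ((2 * K) ^ K * 2 ^ K * 20) 1 hκ one_pos
  obtain ⟨n3, hn3⟩ := NEG 2 (1000 * K0) 4 1 (by omega) one_pos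
  obtain ⟨n4, hn4⟩ := hDIV κ hκ k
  refine ⟨n2 + n3 + n4 + κ + (n1 + 8 * K + 12) * (1000 * K0), ?_⟩
  intro h F M β y ρ hh _ hn hM1 hM2 hy hb γ hγ1 hγ2
  obtain ⟨n, hne⟩ : ∃ n, n = F.natDegree := ⟨_, rfl⟩
  rw [← hne] at hn hM1 hM2 hy hb ⊢
  change TT F h n M β y ρ γ ≤ _
  obtain ⟨H, hH⟩ : ∃ H, H = n / (1000 * K0) := ⟨_, rfl⟩
  obtain ⟨i, hi⟩ : ∃ i, i = n / κ := ⟨_, rfl⟩
  have hHl : n1 + 8 * K + 12 ≤ H := by
    rw [hH, Nat.le_div_iff_mul_le (by omega)]; omega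
  have hi0 : 1 ≤ i := by
    rw [hi, Nat.le_div_iff_mul_le (by omega)]; omega
  have hib : 32 * (i * 2 ^ (2 * K)) ≤ H := by
    have := Nat.div_mul_le_self H (2 ^ (2 * K + 5))
    rw [hH, Nat.div_div_eq_div_mul, ← hκe, ← hi, ← hH, pow_add] at this
    linarith
  have hi1 : i ≤ i * 2 ^ (2 * K) := Nat.le_mul_of_pos_right i (by positivity)
  rw [← hi] at hM2 ⊢
  obtain ⟨D, s, s0, σ, L, a, r, p, hP⟩ := hTPAR K0 h.natDegree hK0 n M β y ρ (by omega) hM1 (by omega) hy hb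
  rw [← hH, ← hK] at hP
  have q1 : (1 : ℝ) ≤ qq k := one_le_qq
  have q0 : (0 : ℝ) < qq k := qq_pos
  have hu : (1 : ℝ) ≤ qq k ^ (8 * i) := one_le_pow₀ q1
  have hZ : Dv k n (qq k ^ i) := fun m hm hd => hi ▸ hn4 n (by omega) m hm (by omega)
  have h0 := hTGEN k F h γ n M β y ρ D s s0 σ L H a r p K (1 / (qq k ^ (8 * i)) ^ 2) _ hP hh hZ
    ⟨hγ1, hγ2⟩ (by positivity) (by rw [div_le_one (by positivity)]; exact one_le_pow₀ hu) (by
      rw [div_pow, one_pow, ← pow_mul, ← pow_mul, div_mul_eq_mul_div, one_mul,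
        le_div_iff₀ (by positivity)]
      have e : (16 : ℝ) * 4 ^ (2 * K) = 2 ^ (2 * (2 * K) + 4) := by
        rw [pow_add, pow_mul (2 : ℝ) 2]; norm_num [mul_comm]
      calc (16 : ℝ) * 4 ^ (2 * K) * qq k ^ (8 * i * (2 * 2 ^ (2 * K))) ≤
            qq k ^ (2 * (2 * K) + 4) * qq k ^ (8 * i * (2 * 2 ^ (2 * K))) := by
            rw [e]; gcongr; exact two_le_qq
        _ = qq k ^ (2 * (2 * K) + 4 + 16 * (i * 2 ^ (2 * K))) := by
            rw [← pow_add]; congr 1; ring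
        _ ≤ _ := qq_pow_mono (by omega))
  obtain ⟨t1, t2, t3, t4, t5, t6, t7, t8, t9, t10, t11, t12, t13, t14, t15, t16, t17, t18, t19,
    t20⟩ := hP
  have hbr := T_br (qq k ^ (8 * i)) (qq k ^ H) n hu
    (by rw [← pow_mul]; exact qq_pow_mono (by omega)) (by positivity)
  have har : 2 * a * r ≤ 2 ^ a := by
    have := hn1 a (by omega)
    rw [pow_one, one_mul, Nat.div_one] at this
    have h2 : 2 * K * (a + 1) ≤ 2 ^ a := by exact_mod_cast this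
    calc 2 * a * r ≤ 2 * (a + 1) * K := by gcongr; omega
      _ = 2 * K * (a + 1) := by ring
      _ ≤ _ := h2
  have hG := (a_GM k a r).2.2.2.2 (by omega) har
  have hG0 := (a_GM k a r).2.2.1
  have hPd := (a_GAUSS k D (by omega)).2 (by omega)
  have hDn : (D : ℝ) ≤ n + 1 := by exact_mod_cast (by omega : D ≤ n + 1)
  have n0 : (0 : ℝ) ≤ n := by positivity
  have hn2' : 4 * (D : ℝ) * n ≤ qq k ^ D := by
    have := hn3 n (by omega)
    rw [one_mul, ← hH] at this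
    calc 4 * (D : ℝ) * n ≤ 4 * (n + 1) * (n + 1) := by gcongr; linarith
      _ = 4 * ((n : ℝ) + 1) ^ 2 := by ring
      _ ≤ 2 ^ H := this
      _ ≤ qq k ^ H := two_pow_le_qq H
      _ ≤ _ := qq_pow_mono t20
  have h1 := T_num _ _ _ _ _ _ _
    (2 ^ K * (qq k ^ i) ^ 2 * qq k ^ (n + 1) * ((3 * n + 5) / qq k ^ (8 * i))) hPd hn2'
    (by positivity) (by positivity) hG hG0 (by positivity)
    (sum_nonneg fun _ _ => sum_nonneg fun _ _ => abs_nonneg _)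
    (h0.trans ((mul_le_mul_of_nonneg_left hbr (by positivity)).trans_eq (by ring)))
  have hM : (2 * a * r : ℝ) ^ r ≤ (2 * K) ^ K * ((n : ℝ) + 1) ^ K := by
    have b1 : 1 ≤ 2 * a * r := Nat.mul_pos (by omega) t18
    have b2 : 2 * a * r ≤ 2 * K * (n + 1) := by
      have : a ≤ n + 1 := by omega
      calc 2 * a * r ≤ 2 * (n + 1) * K := by gcongr
        _ = _ := by ring
    rw [← mul_pow]
    calc (2 * a * r : ℝ) ^ r ≤ (2 * a * r : ℝ) ^ K :=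
          pow_le_pow_right₀ (by exact_mod_cast b1) t19
      _ ≤ _ := pow_le_pow_left₀ (by positivity) (by exact_mod_cast b2) K
  have h2 := hn2 n (by omega)
  rw [one_mul, ← hi] at h2
  have h3 : (2 * a * r : ℝ) ^ r * (4 * D * (2 ^ K * (3 * n + 5))) ≤ qq k ^ i :=
    calc (2 * a * r : ℝ) ^ r * (4 * D * (2 ^ K * (3 * n + 5))) ≤
          (2 * K) ^ K * ((n : ℝ) + 1) ^ K * (4 * (n + 1) * (2 ^ K * (5 * (n + 1)))) := by
          gcongr; linarith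
      _ = (2 * K) ^ K * 2 ^ K * 20 * ((n : ℝ) + 1) ^ (K + 2) := by ring
      _ ≤ 2 ^ i := h2
      _ ≤ _ := two_pow_le_qq i
  refine h1.trans ?_
  rw [le_div_iff₀ (by positivity)]
  calc _ = (2 * a * r : ℝ) ^ r * (4 * D * (2 ^ K * (3 * n + 5))) *
        (qq k ^ (3 * i + 1) * qq k ^ n / qq k ^ (8 * i)) := by ring
    _ ≤ qq k ^ i * (qq k ^ (3 * i + 1) * qq k ^ n / qq k ^ (8 * i)) := by gcongr
    _ = qq k ^ (4 * i + 1) / qq k ^ (8 * i) * qq k ^ n := by ring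
    _ ≤ _ := mul_le_of_le_one_left (by positivity)
        ((div_le_one (by positivity)).2 (qq_pow_mono (by omega)))

end Pool.Agent.P.MP_e94e4b_nt.RP.U
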