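import Pool.Agent.P.MP_0a67b8_nt.RU.If

/-! Step TA1. -/

set_option autoImplicit false
set_option linter.unusedSectionVars false

namespace Pool.Agent.P.MP_e94e4b_nt.RP.U

open Polynomial Finset
open Pool.Agent.P.MP_8be758_nt Pool.Agent.P.MP_8be758_nt.C2 Pool.Agent.P.MP_8be758_nt.L2
open Pool.Agent.P.MP_e94e4b_nt.LG
open scoped Classical

section

variable {k : Type} [Field k] [Finite k]

/-- the weight as a function of the squarefree modulus -/
noncomputable def TA1_l (lam : Finset k[X] → ℝ) (r : k[X]) : ℝ :=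
  if r = pr (pf r) then lam (pf r) else 0

theorem TA1_sw {T : Finset k[X]} {δ : ℕ} {lam : Finset k[X] → ℝ} (hl : Lv T δ lam) {m : k[X]}
    (h0 : m ≠ 0) : sw lam m = ∑ r ∈ Mle k δ, if r ∣ m then TA1_l lam r else 0 := by
  have hp : ∀ S ∈ (pf m).powerset, ∀ P ∈ S, IsPr P := fun S hS P hP =>
    isPr_of_mem_pf (mem_powerset.1 hS hP)
  refine sum_bij_ne_zero (fun S _ _ => pr S) (fun S h1 h2 => ?_) (fun S h1 _ S' h2 _ e => ?_)
    (fun r _ h2 => ?_) fun S h1 _ => ?_
  · exact mem_Mle.2 ⟨monic_pr (hp S h1), by rw [natDegree_pr (hp S h1)]; exact (hl.1 S h2).2⟩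
  · rw [← pf_pr (hp S h1), e, pf_pr (hp S' h2)]
  · have h3 : r ∣ m := by
      by_contra h; exact h2 (if_neg h)
    rw [if_pos h3, TA1_l] at h2
    have h4 : r = pr (pf r) := by
      by_contra h; exact h2 (if_neg h)
    rw [if_pos h4] at h2
    exact ⟨pf r, mem_powerset.2 ((subset_pf_iff h0 fun P => isPr_of_mem_pf).2 (h4 ▸ h3)), h2,
      h4.symm⟩
  · rw [if_pos ((subset_pf_iff h0 (hp S h1)).1 (mem_powerset.1 h1)), TA1_l, pf_pr (hp S h1),
      if_pos rfl]

theorem TA1_pr {T : Finset k[X]} {δ Z : ℕ} {lam : Finset k[X] → ℝ} (hl : Lv T δ lam)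
    (hT : T ⊆ Pr k Z) (y : ℕ) {m : k[X]} (h0 : m ≠ 0) :
    sw lam m * DM y (av (Pr k Z)) m = ∑ e ∈ Mo k y, ∑ r ∈ Mle k δ,
      if e * r ∣ m then av (Pr k Z) e * TA1_l lam r * mu (m /ₘ e) else 0 := by
  rw [TA1_sw hl h0, DM, sum_filter, sum_mul_sum, sum_comm]
  refine sum_congr rfl fun e _ => sum_congr rfl fun r _ => ?_
  by_cases h1 : Av (Pr k Z) e
  swap
  · simp [av_of_not h1]
  by_cases h2 : TA1_l lam r = 0
  · simp [h2]
  have h4 : r = pr (pf r) := by
    by_contra h; exact h2 (if_neg h)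
  have h5 : IsCoprime r e := by
    rw [TA1_l, if_pos h4] at h2
    rw [h4]
    exact h1.coprime ((hl.1 _ h2).1.trans hT) fun P => isPr_of_mem_pf
  by_cases h6 : e * r ∣ m
  · rw [if_pos h6, if_pos (dvd_of_mul_left_dvd h6), if_pos (dvd_of_mul_right_dvd h6)]
    ring
  · rw [if_neg h6]
    split_ifs with h7 h8
    · exact absurd (h5.symm.mul_dvd h8 h7) h6
    all_goals simp

end

theorem p_TA1 (hWB : S_WB) :
    S_TA1 := by
  intro k _ _ _ F h M Z δ β y Λ B lam c hF h0 hM hle hl hΛ hb hTB hc hsq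
  have l1 : ∀ r, |TA1_l lam r| ≤ Λ := fun r => by
    unfold TA1_l
    split_ifs
    exacts [hb _, by rw [abs_zero]; exact hΛ.le]
  have key := hTB (fun e b r => c b * (av (Pr k Z) e * TA1_l lam r) / Λ) (fun e b r => by
    rw [abs_div, abs_of_pos hΛ, div_le_one hΛ, abs_mul, abs_mul]
    exact (mul_le_of_le_one_left (by positivity) (hc b)).trans
      ((mul_le_of_le_one_left (abs_nonneg _) (bd_av _ e)).trans (l1 r)))
    fun e b r h1 => hsq b fun h2 => h1 (by simp [h2])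
  rw [sum_comm] at key
  refine le_trans (sum_le_sum fun a _ => ?_) ((mul_sum _ _ _).symm.le.trans
    (mul_le_mul_of_nonneg_left key hΛ.le))
  refine le_trans (le_of_eq ?_) (mul_le_mul_of_nonneg_left (abs_sum_le_sum_abs _ _) hΛ.le)
  rw [← abs_of_pos hΛ, ← abs_mul, abs_of_pos hΛ]
  congr 1
  unfold TI
  rw [sum_comm, mul_sum]
  refine sum_congr rfl fun b _ => ?_
  by_cases hw : a * b ∈ Wn F h M
  · rw [if_pos hw, TA1_pr hl (T2_sub h Z) y
      (mem_Mo.1 (hWB k F h _ M hF h0 hM hle hw).2.1).1.ne_zero]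
    simp only [mul_sum, hw, true_and]
    refine sum_congr rfl fun e _ => sum_congr rfl fun r _ => ?_
    split_ifs
    · field_simp
    · simp
  · simp [hw]

end Pool.Agent.P.MP_e94e4b_nt.RP.U
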