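import Pool.Agent.P.MP_0a67b8_nt.RU.If

/-! Step TCS. -/

set_option autoImplicit false
set_option linter.unusedSectionVars false

namespace Pool.Agent.P.MP_e94e4b_nt.RP.U

open Polynomial Finset
open Pool.Agent.P.MP_8be758_nt Pool.Agent.P.MP_8be758_nt.C2 Pool.Agent.P.MP_8be758_nt.L2
open Pool.Agent.P.MP_e94e4b_nt.LG
open scoped Classical

namespace TCSx

variable {k : Type} [Field k] [Finite k] [CharP k 2] {F h e B b b1 b2 x : k[X]}
  {γ : k[X] → k[X] → k[X] → ℝ} {n M β y ρ D s s0 σ L H a r p K : ℕ} {η Z : ℝ}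

/-- one term -/
noncomputable def tm (F h : k[X]) (M ρ a r s0 : ℕ) (γ : k[X] → k[X] → k[X] → ℝ)
    (e B x b : k[X]) : ℝ :=
  IR F h M ρ (γ e b) e x b * (mu b * FW a r s0 (b * B) (dd h x b e))

theorem tm_ne (h0 : tm F h M ρ a r s0 γ e B x b ≠ 0) : x * b ∈ Wn F h M ∧ e ∣ x * b + h :=
  ⟨(IR_ne (left_ne_zero_of_mul h0)).1, (IR_ne (left_ne_zero_of_mul h0)).2.1⟩

theorem tm_le (P : Pt n M β y ρ h.natDegree D s s0 σ L H a r p K) (hZ : Dv k n Z) (hγ : Cf γ)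
    (he : e ∈ Mo k y) (hB : B ∈ Pd k D) (hb : b ∈ Mo k β) (hx : x ∈ Mo k (n - β)) :
    |tm F h M ρ a r s0 γ e B x b| ≤ Z * 2 ^ K := by
  have z0 := zero_le_one.trans hZ.one_le
  by_cases h0 : tm F h M ρ a r s0 γ e B x b = 0
  · rw [h0, abs_zero]; positivity
  · have h1 := FW_le P hb he (mem_Ae.2 ⟨hx, (tm_ne h0).2⟩) hB
    rw [tm, abs_mul, abs_mul]
    exact mul_le_mul (IR_le P hZ hb he hx (hγ.1 e b))
      ((mul_le_of_le_one_left (abs_nonneg _) (abs_mu_le _)).trans h1) (by positivity) z0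

theorem triv (P : Pt n M β y ρ h.natDegree D s s0 σ L H a r p K) (hZ : Dv k n Z) (hγ : Cf γ)
    (he : e ∈ Mo k y) (hB : B ∈ Pd k D) (h1 : b1 ∈ Mo k β) (h2 : b2 ∈ Mo k β) :
    ∑ x ∈ Mo k (n - β), tm F h M ρ a r s0 γ e B x b1 * tm F h M ρ a r s0 γ e B x b2 ≤
      4 ^ K * Z ^ 2 * qq k ^ (n - β - y) := by
  have q0 : (0 : ℝ) < qq k := qq_pos
  by_cases hc : IsCoprime b1 h
  · rw [← sum_subset (filter_subset (fun x => e ∣ x * b1 + h) _) fun x hx hn => by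
      by_contra h0
      exact hn (mem_filter.2 ⟨hx, (tm_ne (left_ne_zero_of_mul h0)).2⟩)]
    refine (sum_le_card_nsmul _ _ (4 ^ K * Z ^ 2) fun x hx => ?_).trans ?_
    · have hx := (mem_filter.1 hx).1
      refine (le_abs_self _).trans ?_
      rw [abs_mul]
      refine (mul_le_mul (tm_le P hZ hγ he hB h1 hx) (tm_le P hZ hγ he hB h2 hx) (abs_nonneg _)
        ((abs_nonneg _).trans (tm_le (F := F) P hZ hγ he hB h1 hx))).trans_eq ?_
      rw [show (4 : ℝ) = 2 * 2 by norm_num, mul_pow]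
      ring
    · rw [nsmul_eq_mul, mul_comm]
      exact mul_le_mul_of_nonneg_left (card_Ae hc he) (by positivity)
  · rw [sum_eq_zero fun x _ => by
      by_contra h0
      exact hc (Wn_cop (tm_ne (left_ne_zero_of_mul h0)).1).1]
    positivity

theorem pair (hTLN1 : S_TLN1) (hTOM : S_TOM)
    (P : Pt n M β y ρ h.natDegree D s s0 σ L H a r p K) (h0 : h ≠ 0) (hZ : Dv k n Z) (hγ : Cf γ)
    (η0 : 0 ≤ η) (η1 : η ≤ 1) (hη : 16 * 4 ^ (2 * K) ≤ η ^ 2 ^ (2 * K) * qq k ^ H)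
    (he : e ∈ Mo k y) (h1 : b1 ∈ Mo k β) (h2 : b2 ∈ Mo k β) :
    ∑ B ∈ Pd k D, ∑ x ∈ Mo k (n - β),
      tm F h M ρ a r s0 γ e B x b1 * tm F h M ρ a r s0 γ e B x b2 ≤
      (if b1 = b2 then qq k ^ D * (4 ^ K * Z ^ 2 * qq k ^ (n - β - y)) else 0) +
      (if e ∣ b1 + b2 then (2 * η * qq k ^ D + 1) * (4 ^ K * Z ^ 2 * qq k ^ (n - β - y))
        else 0) := by
  have q0 : (0 : ℝ) < qq k := qq_pos
  set C : ℝ := 4 ^ K * Z ^ 2 * qq k ^ (n - β - y) with hC
  have C0 : 0 ≤ C := by positivity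
  have two : (2 : k[X]) = 0 := CharTwo.two_eq_zero
  by_cases e12 : b1 = b2
  · rw [if_pos e12]
    refine le_add_of_le_of_nonneg ?_ (by split_ifs <;> positivity)
    refine (sum_le_card_nsmul _ _ C fun B hB => triv P hZ hγ he hB h1 h2).trans ?_
    rw [nsmul_eq_mul]
    exact mul_le_mul_of_nonneg_right (card_Pd_le D) C0
  rw [if_neg e12, zero_add]
  by_cases hc : e ∣ b1 + b2 ∧ IsCoprime b1 h
  · obtain ⟨⟨c, hc⟩, hc'⟩ := hc
    rw [if_pos ⟨c, hc⟩]
    have c0 : c ≠ 0 := by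
      rintro rfl
      exact e12 (by linear_combination hc - b2 * two)
    have m0 : b1 * b2 * h * c ≠ 0 := mul_ne_zero (mul_ne_zero (mul_ne_zero
      (mem_Mo.1 h1).1.ne_zero (mem_Mo.1 h2).1.ne_zero) h0) c0
    have hm : (((Pd k D).filter (fun B => odp (b1 * b2 * h * c * B) = 0)).card : ℝ) ≤ 1 := by
      exact_mod_cast (hTOM k).2 _ D m0
    refine (sum_le_sum (g := fun B => 2 * η * C +
      if odp (b1 * b2 * h * c * B) = 0 then C else 0) fun B hB => ?_).trans ?_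
    · split_ifs with ho
      · exact le_add_of_nonneg_of_le (by positivity) (triv P hZ hγ he hB h1 h2)
      · have t := hTLN1 k F h e B b1 b2 c (γ e b1) (γ e b2) n M β y ρ D s s0 σ L H a r p K η Z P h0
          hZ he hB h1 h2 hc' hc ho (hγ.1 e b1) (hγ.1 e b2) η0 η1 hη
        rw [sum_congr rfl (g := fun x => mu b1 * mu b2 *
          (IR F h M ρ (γ e b1) e x b1 * FW a r s0 (b1 * B) (dd h x b1 e) *
          (IR F h M ρ (γ e b2) e x b2 * FW a r s0 (b2 * B) (dd h x b2 e))))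
          fun x _ => by unfold tm; ring, ← mul_sum, add_zero]
        refine (le_abs_self _).trans ?_
        rw [abs_mul, abs_mul]
        refine (mul_le_of_le_one_left (abs_nonneg _)
          (mul_le_one₀ (abs_mu_le _) (abs_nonneg _) (abs_mu_le _))).trans (t.trans_eq ?_)
        rw [hC]
        ring
    · rw [sum_add_distrib, ← sum_filter, sum_const, sum_const, nsmul_eq_mul, nsmul_eq_mul]
      have a1 := mul_le_mul_of_nonneg_right (card_Pd_le (k := k) D) (by positivity : 0 ≤ 2 * η * C)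
      have a2 := mul_le_mul_of_nonneg_right hm C0
      linarith
  · rw [sum_eq_zero fun B _ => sum_eq_zero fun x _ => by
      by_contra hn
      obtain ⟨w1, d1⟩ := tm_ne (left_ne_zero_of_mul hn)
      obtain ⟨-, d2⟩ := tm_ne (right_ne_zero_of_mul hn)
      have cx := (cop_dd (mem_Mo.1 he).1 (mul_comm x b1 ▸ d1) (Wn_cop w1).2).1
      refine hc ⟨cx.symm.dvd_of_dvd_mul_left ?_, (Wn_cop w1).1⟩
      rw [show x * (b1 + b2) = x * b1 + h + (x * b2 + h) by linear_combination -h * two]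
      exact dvd_add d1 d2]
    split_ifs <;> positivity

theorem one (hTLN1 : S_TLN1) (hTOM : S_TOM)
    (P : Pt n M β y ρ h.natDegree D s s0 σ L H a r p K) (h0 : h ≠ 0) (hZ : Dv k n Z) (hγ : Cf γ)
    (η0 : 0 ≤ η) (η1 : η ≤ 1) (hη : 16 * 4 ^ (2 * K) ≤ η ^ 2 ^ (2 * K) * qq k ^ H)
    (he : e ∈ Mo k y) :
    ∑ B ∈ Pd k D, ∑ x ∈ Mo k (n - β), (∑ b ∈ Mo k β, tm F h M ρ a r s0 γ e B x b) ^ 2 ≤
      qq k ^ β * ((qq k ^ D + qq k ^ (D + 1) * (2 * η * qq k ^ D + 1)) *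
        (4 ^ K * Z ^ 2 * qq k ^ (n - β - y))) := by
  have q0 : (0 : ℝ) < qq k := qq_pos
  have t3 := P.t3
  have t4 := P.t4
  obtain ⟨e0, e1⟩ := mem_Mo.1 he
  simp only [sq, sum_mul_sum]
  rw [sum_congr rfl fun B _ => sum_comm, sum_comm, ← card_Mo (k := k) β, ← nsmul_eq_mul]
  refine sum_le_card_nsmul _ _ _ fun b1 h1 => ?_
  rw [sum_congr rfl fun B _ => sum_comm, sum_comm]
  refine (sum_le_sum fun b2 h2 => pair hTLN1 hTOM P h0 hZ hγ η0 η1 hη he h1 h2).trans ?_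
  rw [sum_add_distrib, sum_ite_eq, if_pos h1, ← sum_filter, sum_const, nsmul_eq_mul, ← sq,
    add_mul (qq k ^ D), mul_assoc (qq k ^ (D + 1))]
  refine add_le_add le_rfl (mul_le_mul_of_nonneg_right ?_ (by positivity))
  have c1 : (((Mo k β).filter (fun b2 => e ∣ b1 + b2)).card : ℝ) ≤ (Gs e (-b1) β).card := by
    exact_mod_cast card_le_card fun b hb => mem_Gs.2 ⟨(mem_Mo.1 (mem_filter.1 hb).1).1,
      (mem_Mo.1 (mem_filter.1 hb).1).2, by
        rw [sub_neg_eq_add, add_comm]; exact (mem_filter.1 hb).2⟩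
  rw [card_Gs e0.ne_zero _ (by omega), e1] at c1
  refine c1.trans ?_
  rw [div_le_iff₀ (by positivity), ← pow_add]
  exact qq_pow_mono (by omega)

end TCSx

theorem p_TCS (hTLN1 : S_TLN1) (hTOM : S_TOM) :
    S_TCS := by
  intro k _ _ _ F h γ n M β y ρ D s s0 σ L H a r p K η Z P h0 hZ hγ η0 η1 hη
  have q0 : (0 : ℝ) < qq k := qq_pos
  have q1 : (1 : ℝ) ≤ qq k := one_le_qq
  have t1 := P.t1
  have t3 := P.t3
  have t5 := P.t5
  have t2 := P.t2
  have t10 := P.t10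
  set T : ℝ := qq k ^ β * ((qq k ^ D + qq k ^ (D + 1) * (2 * η * qq k ^ D + 1)) *
    (4 ^ K * Z ^ 2 * qq k ^ (n - β - y))) with hT
  have T0 : 0 ≤ T := by positivity
  have s1 : TS1 F h n M β y ρ D a r s0 γ ^ 2 ≤
      qq k ^ y * (qq k ^ y * (qq k ^ D * (qq k ^ (n - β) * T))) := by
    refine sq_sum_le_card_mul_sum_sq.trans ?_
    rw [card_Mo]
    refine mul_le_mul_of_nonneg_left ?_ (by positivity)
    rw [← card_Mo (k := k) y, ← nsmul_eq_mul]
    refine sum_le_card_nsmul _ _ _ fun e he => sq_sum_le_card_mul_sum_sq.trans ?_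
    refine mul_le_mul (card_Pd_le D) ?_ (by positivity) (by positivity)
    refine (sum_le_sum fun B _ => sq_sum_le_card_mul_sum_sq).trans ?_
    rw [← mul_sum, card_Mo]
    refine mul_le_mul_of_nonneg_left ?_ (by positivity)
    simp only [sq_abs]
    exact TCSx.one hTLN1 hTOM P h0 hZ hγ η0 η1 hη he
  refine s1.trans ?_
  have a1 : qq k ^ y * (qq k ^ D * qq k ^ (n - β)) ≤ qq k ^ n := by
    rw [← pow_add, ← pow_add]
    exact qq_pow_mono (by omega)
  have a2 : qq k ^ n = qq k ^ y * (qq k ^ β * qq k ^ (n - β - y)) := by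
    rw [← pow_add, ← pow_add]
    congr 1
    omega
  have a3 : qq k ^ D + qq k ^ (D + 1) * (2 * η * qq k ^ D + 1) ≤
      qq k ^ (2 * D + 1) * (2 * η + 2 / qq k ^ D) := by
    have : qq k ^ D ≤ qq k ^ (D + 1) := qq_pow_mono (by omega)
    have e : qq k ^ (2 * D + 1) * (2 * η + 2 / qq k ^ D) =
        qq k ^ (D + 1) + qq k ^ (D + 1) * (2 * η * qq k ^ D + 1) := by
      field_simp
      ring
    linarith
  calc _ = qq k ^ y * (qq k ^ D * qq k ^ (n - β)) * (qq k ^ n * (4 ^ K * Z ^ 2)) *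
        (qq k ^ D + qq k ^ (D + 1) * (2 * η * qq k ^ D + 1)) := by rw [hT, a2]; ring
    _ ≤ qq k ^ n * (qq k ^ n * (4 ^ K * Z ^ 2)) *
        (qq k ^ (2 * D + 1) * (2 * η + 2 / qq k ^ D)) := by gcongr
    _ = _ := by ring

end Pool.Agent.P.MP_e94e4b_nt.RP.U
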