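import Pool.Agent.P.MP_0a67b8_nt.RU.If

/-! Step TGEN. -/

set_option autoImplicit false
set_option linter.unusedSectionVars false

namespace Pool.Agent.P.MP_e94e4b_nt.RP.U

open Polynomial Finset
open Pool.Agent.P.MP_8be758_nt Pool.Agent.P.MP_8be758_nt.C2 Pool.Agent.P.MP_8be758_nt.L2
open Pool.Agent.P.MP_e94e4b_nt.LG
open scoped Classical

theorem TGEN_sq (x T Z Q P c : ℝ) (hT : 0 ≤ T) (hZ : 0 ≤ Z) (hQ : 0 ≤ Q) (hc : 0 ≤ c)
    (hP : P ≤ Q ^ 2) (hx : x ^ 2 ≤ T ^ 2 * Z ^ 2 * P * c) : x ≤ T * Z * Q * √c := by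
  have h1 : x ^ 2 ≤ (T * Z * Q * √c) ^ 2 := by
    have e : (T * Z * Q * √c) ^ 2 = T ^ 2 * Z ^ 2 * Q ^ 2 * c := by
      rw [mul_pow, Real.sq_sqrt hc]; ring
    rw [e]
    refine hx.trans ?_
    gcongr
  exact (abs_le_of_sq_le_sq' h1 (by positivity)).2

theorem TGEN_num (X x1 x2 x3 x4 x5 T Z Q A B W n : ℝ) (hT : 1 ≤ T) (hZ : 1 ≤ Z) (hQ : 0 ≤ Q)
    (hA : 0 ≤ A) (hW : 0 ≤ W) (hn : 0 ≤ n)
    (h0 : X ≤ x1 + Z * (x2 + x3 + T * (x4 + x5))) (h1 : x1 ≤ T * Z * Q * A)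
    (h2 : x2 ≤ T * Z * Q * B) (h3 : x3 ≤ Q * W) (h4 : x4 ≤ 2 * n * (Q * W))
    (h5 : x5 ≤ n * (Q * W)) : X ≤ T * Z ^ 2 * Q * (A + B + (3 * n + 1) * W) := by
  have hZ0 : 0 ≤ Z := by linarith
  have hT0 : 0 ≤ T := by linarith
  have hQW : 0 ≤ Q * W := mul_nonneg hQ hW
  have a1 : T * Z * Q * A ≤ T * Z ^ 2 * Q * A := by
    have : Z ≤ Z ^ 2 := by nlinarith
    gcongr
  have a2 : x3 + T * (x4 + x5) ≤ T * ((3 * n + 1) * (Q * W)) := by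
    have b1 : Q * W ≤ T * (Q * W) := le_mul_of_one_le_left hQW hT
    have b2 : T * (x4 + x5) ≤ T * (3 * n * (Q * W)) :=
      mul_le_mul_of_nonneg_left (by linarith) hT0
    nlinarith
  have a3 : T * ((3 * n + 1) * (Q * W)) ≤ Z * (T * ((3 * n + 1) * (Q * W))) :=
    le_mul_of_one_le_left (by positivity) hZ
  have a4 : Z * (x2 + x3 + T * (x4 + x5)) ≤
      Z * (T * Z * Q * B + Z * (T * ((3 * n + 1) * (Q * W)))) :=
    mul_le_mul_of_nonneg_left (by linarith) hZ0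
  calc X ≤ T * Z ^ 2 * Q * A + Z * (T * Z * Q * B + Z * (T * ((3 * n + 1) * (Q * W)))) := by
        linarith
    _ = _ := by ring

theorem p_TGEN (hTK0 : S_TK0) (hTCS : S_TCS) (hTERR : S_TERR) (hTCONC : S_TCONC) :
    S_TGEN := by
  intro k _ _ _ F h γ n M β y ρ D s s0 σ L H a r p K η Z P hh hZ hγ h0 h1 hη
  have e0 := hTK0 k F h γ n M β y ρ D s s0 σ L H a r p K Z P hZ hγ
  have e1 := hTCS k F h γ n M β y ρ D s s0 σ L H a r p K η Z P hh hZ hγ h0 h1 hη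
  have e2 := hTCONC k h n M β y ρ D s s0 σ L H a r p K Z P hZ
  obtain ⟨e3, e4, e5⟩ := hTERR k h n M β y ρ D s s0 σ L H a r p K P
  have hq : 0 < qq k := qq_pos
  have hG : 0 < qq k ^ H := by positivity
  have hZ1 : 1 ≤ Z := hZ.one_le
  have hZ0 : 0 ≤ Z := by linarith
  have hT : (1 : ℝ) ≤ 2 ^ K := one_le_pow₀ one_le_two
  have h4 : (4 : ℝ) ^ K = (2 ^ K) ^ 2 := by
    rw [← pow_mul, mul_comm, pow_mul]; norm_num
  have hP : qq k ^ (2 * n + 2 * D + 1) ≤ (qq k ^ (n + D + 1)) ^ 2 := by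
    rw [← pow_mul]; exact qq_pow_mono (by omega)
  have t2 := P.t2
  have t5 := P.t5
  have t20 := P.t20
  have hsn : (s : ℝ) ≤ n := by exact_mod_cast (show s ≤ n by omega)
  have f1 : TS1 F h n M β y ρ D a r s0 γ ≤
      2 ^ K * Z * qq k ^ (n + D + 1) * √(2 * η + 2 / qq k ^ H) := by
    refine TGEN_sq _ _ _ _ _ _ (by positivity) hZ0 (by positivity) (by positivity) hP ?_
    rw [← h4]
    refine e1.trans ?_
    have : 2 / qq k ^ D ≤ 2 / qq k ^ H :=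
      div_le_div_of_nonneg_left zero_le_two hG (qq_pow_mono t20)
    gcongr
  have f2 : TS2 h n β y D a r s0 ≤ 2 ^ K * Z * qq k ^ (n + D + 1) * √(2 / qq k ^ H) := by
    refine TGEN_sq _ _ _ _ _ _ (by positivity) hZ0 (by positivity) (by positivity) hP ?_
    rw [← h4, ← mul_div_assoc, le_div_iff₀ hG]
    linarith
  have f3 : TS3 h n β y D s0 ≤ qq k ^ (n + D + 1) * (qq k ^ H)⁻¹ := by
    rw [← div_eq_mul_inv, le_div_iff₀ hG]; exact e3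
  have f4 : TS4 h n β y D ≤ 2 * n * (qq k ^ (n + D + 1) * (qq k ^ H)⁻¹) := by
    refine e4.trans ?_
    have : qq k ^ n ≤ qq k ^ (n + D + 1) * (qq k ^ H)⁻¹ := by
      rw [← div_eq_mul_inv, le_div_iff₀ hG, ← pow_add]; exact qq_pow_mono (by omega)
    gcongr
  have f5 : TS5 h n β y D a ≤ n * (qq k ^ (n + D + 1) * (qq k ^ H)⁻¹) := by
    rw [← mul_assoc, ← div_eq_mul_inv, le_div_iff₀ hG]
    refine e5.trans ?_
    have : qq k ^ (n + D) ≤ qq k ^ (n + D + 1) := qq_pow_mono (by omega)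
    gcongr
  have := TGEN_num _ _ _ _ _ _ _ _ _ _ _ _ _ hT hZ1 (by positivity) (Real.sqrt_nonneg _)
    (by positivity) (Nat.cast_nonneg n) e0 f1 f2 f3 f4 f5
  rw [div_eq_mul_inv (3 * (n : ℝ) + 1)]
  exact this

end Pool.Agent.P.MP_e94e4b_nt.RP.U
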