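import Pool.Agent.P.MP_0a67b8_nt.RU.If

/-! Step TK0. -/

set_option autoImplicit false
set_option linter.unusedSectionVars false

namespace Pool.Agent.P.MP_e94e4b_nt.RP.U

open Polynomial Finset
open Pool.Agent.P.MP_8be758_nt Pool.Agent.P.MP_8be758_nt.C2 Pool.Agent.P.MP_8be758_nt.L2
open Pool.Agent.P.MP_e94e4b_nt.LG
open scoped Classical

variable {k : Type} [Field k] [Finite k] [CharP k 2]

theorem TK0_pt {a r s0 : ℕ} {b d B : k[X]} {c : ℝ} (hb : Squarefree b) (hc : IsCoprime b d)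
    (hB : IsPr B) (h0 : 0 ≤ G1 a r s0 (odp (d * (b * B))))
    (h1 : G1 a r s0 (odp (d * (b * B))) ≤ c) :
    |mu d * G1 a r s0 (odp (d * (b * B))) + mu b * FW a r s0 (b * B) d| ≤
      c * ((if B ∣ d * b then 1 else 0) + if kb a (b * B) d then 1 else 0) := by
  have h2 : |mu d * G1 a r s0 (odp (d * (b * B)))| ≤ c := by
    rw [abs_mul, abs_of_nonneg h0]
    exact (mul_le_of_le_one_left h0 (abs_mu_le _)).trans h1
  have h3 := h0.trans h1
  unfold FW
  by_cases hk : kb a (b * B) d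
  · simp only [if_pos hk, mul_zero, add_zero]
    split_ifs <;> linarith
  by_cases hd : B ∣ d * b
  · have : mu (d * (b * B)) = 0 := mu_of_not_squarefree fun hs => hB.2.not_isUnit (hs B (by
      rw [← mul_assoc]; exact mul_dvd_mul_right hd B))
    simpa only [if_neg hk, if_pos hd, this, zero_mul, mul_zero, add_zero, mul_one] using h2
  · have e1 : mu (d * (b * B)) = mu d * mu b * (-1) := by
      rw [← mul_assoc, mu_mul (hB.2.coprime_iff_not_dvd.2 hd).symm, mu_mul hc.symm, mu_prime hB]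
    have e2 : mu b * mu b = 1 := by
      rw [mu, UniqueFactorizationMonoid.moebius, if_pos hb]
      push_cast
      rw [← mul_pow]; simp
    simp only [if_neg hk, if_neg hd, add_zero, mul_zero, e1]
    refine (abs_eq_zero.2 ?_).le
    linear_combination (-(mu d * G1 a r s0 (odp (d * (b * B))))) * e2

theorem TK0_row {n M β y ρ D s s0 σ L H a r p K : ℕ} {h b e x : k[X]}
    (P : Pt n M β y ρ h.natDegree D s s0 σ L H a r p K) (hb : b ∈ Bf h β) (he : e ∈ Mo k y)
    (hx : x ∈ Ae h (n - β) b e) :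
    |mu (dd h x b e) * (((BB D e).card : ℝ) * Gb k a r) +
        ∑ B ∈ BB D e, mu b * FW a r s0 (b * B) (dd h x b e)| ≤
      |∑ B ∈ BB D e, G0 a r s0 (VB h b e x B)| +
        (((BB D e).filter (fun B => (VB h b e x B).natDegree < s0)).card : ℝ) +
        2 ^ K * ((((Pd k D).filter (fun B => B ∣ dd h x b e * b)).card : ℝ) +
          (((Pd k D).filter (fun B => kb a (b * B) (dd h x b e))).card : ℝ)) := by
  obtain ⟨b1, b2, b3⟩ := mem_Bf.1 hb
  have t6 := P.t6; have t8 := P.t8; have t13 := P.t13; have t15 := P.t15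
  obtain ⟨-, -, g0, g1, -⟩ := a_GM k a r
  have g1 := g1 (by omega)
  have key : ((BB D e).card : ℝ) * Gb k a r = ∑ B ∈ BB D e, G1 a r s0 (VB h b e x B) +
      Gb k a r * (((BB D e).filter (fun B => (VB h b e x B).natDegree < s0)).card : ℝ) -
        ∑ B ∈ BB D e, G0 a r s0 (VB h b e x B) := by
    rw [card_filter, Nat.cast_sum, mul_sum, ← sum_add_distrib, ← sum_sub_distrib, ← nsmul_eq_mul,
      ← sum_const]
    refine sum_congr rfl fun B _ => ?_
    simp only [G1, G0, ← not_le]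
    split_ifs <;> simp
  have h1 : |∑ B ∈ BB D e, (mu (dd h x b e) * G1 a r s0 (VB h b e x B) +
      mu b * FW a r s0 (b * B) (dd h x b e))| ≤
      2 ^ K * ((((Pd k D).filter (fun B => B ∣ dd h x b e * b)).card : ℝ) +
        (((Pd k D).filter (fun B => kb a (b * B) (dd h x b e))).card : ℝ)) := by
    rw [card_filter, card_filter, Nat.cast_sum, Nat.cast_sum, ← sum_add_distrib, mul_sum]
    refine (abs_sum_le_sum_abs _ _).trans ((sum_le_sum fun B hB => ?_).trans
      (sum_le_sum_of_subset_of_nonneg (filter_subset _ _) fun _ _ _ => by positivity))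
    have hB := (mem_BB.1 hB).1
    have g := G1_le (r := r) (s0 := s0) (by omega) (by omega) P.t17 (VB_low P b1 he hx hB)
    simpa only [Nat.cast_ite, Nat.cast_one, Nat.cast_zero, VB] using TK0_pt b2
      (cop_dd (mem_Mo.1 he).1 (mem_Ae.1 hx).2 b3).2 (mem_Pd.1 hB).1 g.1 g.2
  rw [sum_add_distrib, ← mul_sum] at h1
  rw [key]
  generalize (((BB D e).filter (fun B => (VB h b e x B).natDegree < s0)).card) = c at *
  have h2 : |mu (dd h x b e) * (Gb k a r * c)| ≤ c := by
    rw [abs_mul, abs_of_nonneg (mul_nonneg g0 c.cast_nonneg)]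
    exact (mul_le_of_le_one_left (mul_nonneg g0 c.cast_nonneg) (abs_mu_le _)).trans
      (mul_le_of_le_one_left c.cast_nonneg g1)
  have h3 : |mu (dd h x b e) * ∑ B ∈ BB D e, G0 a r s0 (VB h b e x B)| ≤
      |∑ B ∈ BB D e, G0 a r s0 (VB h b e x B)| := by
    rw [abs_mul]; exact mul_le_of_le_one_left (abs_nonneg _) (abs_mu_le _)
  rw [abs_le] at h1 h2 h3 ⊢
  constructor <;> linarith [h1.1, h1.2, h2.1, h2.2, h3.1, h3.2]

theorem p_TK0 :
    S_TK0 := by
  intro k _ _ _ F h γ n M β y ρ D s s0 σ L H a r p K Z P hZ hγ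
  have g0 := (a_GM k a r).2.2.1
  have Z0 : 0 ≤ Z := zero_le_one.trans hZ.one_le
  set Φ : k[X] → k[X] → k[X] → ℝ := fun b e x => |∑ B ∈ BB D e, G0 a r s0 (VB h b e x B)| +
    (((BB D e).filter (fun B => (VB h b e x B).natDegree < s0)).card : ℝ) +
    2 ^ K * ((((Pd k D).filter (fun B => B ∣ dd h x b e * b)).card : ℝ) +
      (((Pd k D).filter (fun B => kb a (b * B) (dd h x b e))).card : ℝ)) with hΦ
  have e1 : TS2 h n β y D a r s0 + TS3 h n β y D s0 + 2 ^ K * (TS4 h n β y D + TS5 h n β y D a) =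
      ∑ e ∈ Mo k y, ∑ x ∈ Mo k (n - β), ∑ b ∈ Mo k β,
        if b ∈ Bf h β ∧ x ∈ Ae h (n - β) b e then Φ b e x else 0 := by
    have : TS2 h n β y D a r s0 + TS3 h n β y D s0 +
        2 ^ K * (TS4 h n β y D + TS5 h n β y D a) = ST h n β y Φ := by
      simp only [TS2, TS3, TS4, TS5, ST, hΦ, sum_add_distrib, mul_add, mul_sum]
    rw [this, ST, sum_comm]
    refine sum_congr rfl fun e _ => ?_
    rw [sum_comm, Bf, sum_filter]
    refine sum_congr rfl fun b hb => ?_
    rw [Ae, sum_filter]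
    split_ifs with hh
    · exact sum_congr rfl fun x hx => by simp only [mem_filter, hb, hx, hh, true_and, and_self]
    · exact (sum_eq_zero fun x _ => if_neg fun h' => hh (mem_Bf.1 h'.1).2).symm
  rw [e1, TT, TS1, mul_sum, mul_sum, ← sum_add_distrib]
  refine sum_le_sum fun e he => ?_
  rw [sum_comm, mul_sum, mul_sum, ← sum_add_distrib]
  refine sum_le_sum fun x hx => ?_
  have hN : ((Pd k D).card : ℝ) - n ≤ (BB D e).card := by
    have h1 := card_Pd_dvd (mem_Mo.1 he).1.ne_zero D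
    have h2 := card_filter_add_card_filter_not (s := Pd k D) (fun B => B ∣ e)
    have t1 := P.t1; have t3 := P.t3; have t10 := P.t10
    rw [(mem_Mo.1 he).2] at h1
    have : (Pd k D).card ≤ (BB D e).card + n := by unfold BB; omega
    rw [sub_le_iff_le_add]; exact_mod_cast this
  refine (mul_le_mul_of_nonneg_right (mul_le_mul_of_nonneg_right hN g0) (abs_nonneg _)).trans ?_
  have e2 : ((BB D e).card : ℝ) * Gb k a r * TI F h M β ρ γ e x =
      ∑ b ∈ Mo k β, IR F h M ρ (γ e b) e x b *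
        (mu (dd h x b e) * (((BB D e).card : ℝ) * Gb k a r) +
          ∑ B ∈ BB D e, mu b * FW a r s0 (b * B) (dd h x b e)) -
      ∑ B ∈ BB D e, IW F h M β ρ γ (fun b d => mu b * FW a r s0 (b * B) d) e x := by
    rw [TI_eq]
    unfold IW
    rw [sum_comm, mul_sum, ← sum_sub_distrib]
    refine sum_congr rfl fun b _ => ?_
    rw [mul_add, mul_sum]; ring
  rw [← abs_of_nonneg (mul_nonneg (Nat.cast_nonneg (BB D e).card) g0), ← abs_mul, e2, add_comm,
    mul_sum]
  refine (abs_sub _ _).trans (add_le_add ((abs_sum_le_sum_abs _ _).trans (sum_le_sum fun b hb => ?_))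
    ((abs_sum_le_sum_abs _ _).trans (sum_le_sum_of_subset_of_nonneg (filter_subset _ _)
      fun _ _ _ => abs_nonneg _)))
  by_cases h0 : IR F h M ρ (γ e b) e x b = 0
  · rw [h0, zero_mul, abs_zero]
    refine mul_nonneg Z0 ?_
    split_ifs
    · simp only [hΦ]; positivity
    · exact le_rfl
  obtain ⟨w, d, r', hr⟩ := IR_ne h0
  have b1 := mem_Bf.2 ⟨hb, hγ.2 _ _ _ hr, (Wn_cop w).1⟩
  have x1 := mem_Ae.2 ⟨hx, d⟩
  rw [if_pos ⟨b1, x1⟩, abs_mul]
  exact mul_le_mul (IR_le P hZ hb he hx (hγ.1 e b)) (TK0_row P b1 he x1) (abs_nonneg _) Z0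

end Pool.Agent.P.MP_e94e4b_nt.RP.U
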