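import Pool.Agent.P.MP_0a67b8_nt.RU.If

/-! Step WB. -/

set_option autoImplicit false
set_option linter.unusedSectionVars false

namespace Pool.Agent.P.MP_e94e4b_nt.RP.U

open Polynomial Finset
open Pool.Agent.P.MP_8be758_nt Pool.Agent.P.MP_8be758_nt.C2 Pool.Agent.P.MP_8be758_nt.L2
open Pool.Agent.P.MP_e94e4b_nt.LG
open scoped Classical

theorem p_WB :
    S_WB := by
  intro k _ _ _ F h f M hF hh hM hn hf
  have h2 : (2 : k[X]) = 0 := CharTwo.two_eq_zero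
  obtain ⟨f1, -⟩ := mem_Wn.1 hf
  obtain ⟨f2, f3⟩ := mem_Mo.1 f1
  have w := add_mem_Wn hf (f3 ▸ hn) (mem_low_of_natDegree_lt hM) dvd_rfl
  have m := (mem_Wn.1 w).1
  have m0 := (mem_Mo.1 m).1.ne_zero
  have c : IsCoprime f (f + h) := by
    rw [add_comm]; simpa using (Wn_cop0 hf).add_mul_left_right 1
  refine ⟨f1, m, w, by linear_combination h * h2, Wn_cop0 hf, Wn_cop0 w, c, ?_, disjoint_left.2 fun P h1 h3 => ?_⟩
  · ext P
    rw [mem_union, mem_pf (mul_ne_zero f2.ne_zero m0), mem_pf f2.ne_zero, mem_pf m0]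
    exact ⟨fun a => (a.1.prime.dvd_or_dvd a.2).imp (fun b => ⟨a.1, b⟩) fun b => ⟨a.1, b⟩,
      fun a => a.elim (fun b => ⟨b.1, b.2.mul_right _⟩) fun b => ⟨b.1, b.2.mul_left _⟩⟩
  · rw [mem_pf f2.ne_zero] at h1
    exact h1.1.2.not_isUnit (c.isUnit_of_dvd' h1.2 ((mem_pf m0).1 h3).2)

end Pool.Agent.P.MP_e94e4b_nt.RP.U
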