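import Pool.Agent.P.MP_0a67b8_nt.RU.If

/-! Step XP. -/

set_option autoImplicit false
set_option linter.unusedSectionVars false

namespace Pool.Agent.P.MP_e94e4b_nt.RP.U

open Polynomial Finset
open Pool.Agent.P.MP_8be758_nt Pool.Agent.P.MP_8be758_nt.C2 Pool.Agent.P.MP_8be758_nt.L2
open Pool.Agent.P.MP_e94e4b_nt.LG
open scoped Classical

theorem p_XP (hXP0 : S_XP0) (hXP1 : S_XP1) (hCNT : S_CNT) :
    S_XP := by
  intro k _ _ _ F h M Z δ i j lam α α' hF h0 hZ hM hle hl ha ha'
  constructor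
  · rw [hXP0 k F h M Z i j lam α α' hF h0 hM hle (fun S e => (hl.1 S e).1) ha ha',
      ← hXP1 k h M Z i j lam α α' h0 hZ ha ha', RM]
    simp only [← sum_add_distrib, ← mul_add, rm, add_sub_cancel]
  · intro hb
    refine sum_eq_zero fun S hS => sum_eq_zero fun S' hS' => ?_
    split_ifs with hd
    · by_cases e : lam (S ∪ S') = 0
      · rw [e, zero_mul]
      have p1 : ∀ P ∈ S, IsPr P := fun P hP => isPr_T2 P (mem_powerset.1 hS hP)
      have p2 : ∀ P ∈ S', IsPr P := fun P hP => isPr_T2 P (mem_powerset.1 hS' hP)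
      have e1 := (hl.1 _ e).2
      rw [dg_union hd] at e1
      refine mul_eq_zero_of_right _ (sum_eq_zero fun d hd => sum_eq_zero fun d' hd' => ?_)
      obtain ⟨d1, d2⟩ := mem_Mo.1 hd
      obtain ⟨d3, d4⟩ := mem_Mo.1 hd'
      refine mul_eq_zero_of_right _ ((hCNT k F h _ _ M hF h0 hM hle (d1.mul (monic_pr p1))
        (d3.mul (monic_pr p2))).2.2 ?_)
      rw [d1.natDegree_mul (monic_pr p1), d3.natDegree_mul (monic_pr p2), natDegree_pr p1,
        natDegree_pr p2]
      omega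
    · exact zero_mul _

end Pool.Agent.P.MP_e94e4b_nt.RP.U
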