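import Pool.Agent.P.MP_0a67b8_nt.RR.D
import Pool.Agent.P.MP_e94e4b_nt.RP.TNUM
import Pool.Agent.P.MP_e94e4b_nt.RP.TEXP
import Pool.Agent.P.MP_e94e4b_nt.RP.TFLA
import Pool.Agent.P.MP_e94e4b_nt.RP.TFLB
import Pool.Agent.P.MP_e94e4b_nt.RP.TRAN
import Pool.Agent.P.MP_e94e4b_nt.RP.TFLC
import Pool.Agent.P.MP_e94e4b_nt.RP.TFL
import Pool.Agent.P.MP_e94e4b_nt.RP.TEQ
import Pool.Agent.P.MP_e94e4b_nt.RP.TMUS
import Pool.Agent.P.MP_e94e4b_nt.RP.TMUR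
import Pool.Agent.P.MP_e94e4b_nt.RP.TRH2
import Pool.Agent.P.MP_e94e4b_nt.RP.TMER1
import Pool.Agent.P.MP_e94e4b_nt.RP.TONE
import Pool.Agent.P.MP_e94e4b_nt.RP.TADM
import Pool.Agent.P.MP_e94e4b_nt.RP.TTWO
import Pool.Agent.P.MP_0a67b8_nt.RU.TWB
import Pool.Agent.P.MP_0a67b8_nt.RU.TSYM
import Pool.Agent.P.MP_e94e4b_nt.RP.TRHO
import Pool.Agent.P.MP_e94e4b_nt.RP.TRZ
import Pool.Agent.P.MP_0a67b8_nt.RU.TPW
import Pool.Agent.P.MP_e94e4b_nt.RP.TSWX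
import Pool.Agent.P.MP_0a67b8_nt.RU.TXP0
import Pool.Agent.P.MP_e94e4b_nt.RP.TXP1
import Pool.Agent.P.MP_0a67b8_nt.RU.TCNT
import Pool.Agent.P.MP_0a67b8_nt.RU.TXP
import Pool.Agent.P.MP_e94e4b_nt.RP.TM2
import Pool.Agent.P.MP_0a67b8_nt.RU.TCG
import Pool.Agent.P.MP_0a67b8_nt.RU.TCZ0
import Pool.Agent.P.MP_0a67b8_nt.RU.TCX
import Pool.Agent.P.MP_0a67b8_nt.RU.TRK0
import Pool.Agent.P.MP_0a67b8_nt.RU.TRK1
import Pool.Agent.P.MP_e94e4b_nt.RP.TCW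
import Pool.Agent.P.MP_0a67b8_nt.RU.TKPH
import Pool.Agent.P.MP_e94e4b_nt.RP.TKW
import Pool.Agent.P.MP_e94e4b_nt.RP.TKG
import Pool.Agent.P.MP_0a67b8_nt.RU.TKC
import Pool.Agent.P.MP_0a67b8_nt.RU.TKP
import Pool.Agent.P.MP_e94e4b_nt.RP.TKB
import Pool.Agent.P.MP_0a67b8_nt.RU.TK
import Pool.Agent.P.MP_e94e4b_nt.RP.TLAMB
import Pool.Agent.P.MP_0a67b8_nt.RU.TCK
import Pool.Agent.P.MP_e94e4b_nt.RP.TDSB
import Pool.Agent.P.MP_0a67b8_nt.RU.TUB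
import Pool.Agent.P.MP_0a67b8_nt.RU.TAX
import Pool.Agent.P.MP_e94e4b_nt.RP.TMAP
import Pool.Agent.P.MP_0a67b8_nt.RU.TMAW
import Pool.Agent.P.MP_0a67b8_nt.RU.TAS
import Pool.Agent.P.MP_0a67b8_nt.RU.TCA
import Pool.Agent.P.MP_e94e4b_nt.RP.TDIV
import Pool.Agent.P.MP_0a67b8_nt.RU.TTK0
import Pool.Agent.P.MP_e94e4b_nt.RP.TTDEC
import Pool.Agent.P.MP_e94e4b_nt.RP.TTPICK
import Pool.Agent.P.MP_e94e4b_nt.RP.TTCORE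
import Pool.Agent.P.MP_e94e4b_nt.RP.TTLN0
import Pool.Agent.P.MP_e94e4b_nt.RP.TTOM
import Pool.Agent.P.MP_0a67b8_nt.RU.TTLN1
import Pool.Agent.P.MP_0a67b8_nt.RU.TTCS
import Pool.Agent.P.MP_e94e4b_nt.RP.TTFIB
import Pool.Agent.P.MP_e94e4b_nt.RP.TTKB
import Pool.Agent.P.MP_e94e4b_nt.RP.TTERR
import Pool.Agent.P.MP_e94e4b_nt.RP.TTSH
import Pool.Agent.P.MP_e94e4b_nt.RP.TTVAR
import Pool.Agent.P.MP_e94e4b_nt.RP.TTOFF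
import Pool.Agent.P.MP_e94e4b_nt.RP.TTCONC
import Pool.Agent.P.MP_0a67b8_nt.RU.TTGEN
import Pool.Agent.P.MP_0a67b8_nt.RU.TTPAR
import Pool.Agent.P.MP_0a67b8_nt.RU.TT
import Pool.Agent.P.MP_0a67b8_nt.RU.TTW
import Pool.Agent.P.MP_0a67b8_nt.RU.TTA1
import Pool.Agent.P.MP_0a67b8_nt.RU.TCT1
import Pool.Agent.P.MP_e94e4b_nt.RP.TTA0
import Pool.Agent.P.MP_0a67b8_nt.RU.TTA2
import Pool.Agent.P.MP_0a67b8_nt.RU.TCT2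
import Pool.Agent.P.MP_0a67b8_nt.RU.TCP
import Pool.Agent.P.MP_e94e4b_nt.RP.TRAM
import Pool.Agent.P.MP_0a67b8_nt.RU.TRK2
import Pool.Agent.P.MP_0a67b8_nt.RU.TCZ1
import Pool.Agent.P.MP_e94e4b_nt.RP.TLAND
import Pool.Agent.P.MP_e94e4b_nt.RP.TLF0
import Pool.Agent.P.MP_e94e4b_nt.RP.TMER3
import Pool.Agent.P.MP_0a67b8_nt.RU.TLEFT
import Pool.Agent.P.MP_e94e4b_nt.RP.TMER2
import Pool.Agent.P.MP_e94e4b_nt.RP.TRJ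
import Pool.Agent.P.MP_0a67b8_nt.RU.TCZ
import Pool.Agent.P.MP_0a67b8_nt.RU.TINP
import Pool.Agent.P.MP_e94e4b_nt.RP.TCELL
import Pool.Agent.P.MP_e94e4b_nt.RP.TSUM1
import Pool.Agent.P.MP_e94e4b_nt.RP.TSUM
import Pool.Agent.P.MP_e94e4b_nt.RP.TMA
import Pool.Agent.P.MP_e94e4b_nt.RP.TU0
import Pool.Agent.P.MP_e94e4b_nt.RP.TCVX
import Pool.Agent.P.MP_e94e4b_nt.RP.TCV
import Pool.Agent.P.MP_e94e4b_nt.RP.TMAIN
import Pool.Agent.P.MP_0a67b8_nt.RU.TIDT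
import Pool.Agent.P.MP_e94e4b_nt.RP.TEND
import Pool.Agent.P.MP_0a67b8_nt.RU.TFIN

/-! Assembly. -/

namespace Pool.Agent.P.MP_e94e4b_nt.RP.U

theorem z_NUM : S_NUM := p_NUM

theorem z_EXP : S_EXP := p_EXP

theorem z_FLA : S_FLA := p_FLA

theorem z_FLB : S_FLB := p_FLB

theorem z_RAN : S_RAN := p_RAN

theorem z_FLC : S_FLC := p_FLC z_RAN

theorem z_FL : S_FL := p_FL z_EXP z_FLA z_FLB z_FLC

theorem z_EQ : S_EQ := p_EQ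

theorem z_MUS : S_MUS := p_MUS

theorem z_MUR : S_MUR := p_MUR z_EQ z_MUS

theorem z_RH2 : S_RH2 := p_RH2 z_EQ

theorem z_MER1 : S_MER1 := p_MER1

theorem z_ONE : S_ONE := p_ONE z_FL z_MUR z_RH2 z_MER1

theorem z_ADM : S_ADM := p_ADM

theorem z_TWO : S_TWO := p_TWO z_FL z_ADM

theorem z_WB : S_WB := p_WB

theorem z_SYM : S_SYM := p_SYM z_WB

theorem z_RHO : S_RHO := p_RHO z_FL z_RH2

theorem z_RZ : S_RZ := p_RZ z_RHO z_MER1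

theorem z_PW : S_PW := p_PW z_WB

theorem z_SWX : S_SWX := p_SWX

theorem z_XP0 : S_XP0 := p_XP0 z_WB z_SWX

theorem z_XP1 : S_XP1 := p_XP1

theorem z_CNT : S_CNT := p_CNT z_WB

theorem z_XP : S_XP := p_XP z_XP0 z_XP1 z_CNT

theorem z_M2 : S_M2 := p_M2

theorem z_CG : S_CG := p_CG z_PW z_XP z_M2 z_ADM

theorem z_CZ0 : S_CZ0 := p_CZ0 z_WB z_PW z_SYM

theorem z_CX : S_CX := p_CX z_CG z_XP z_CZ0

theorem z_RK0 : S_RK0 := p_RK0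

theorem z_RK1 : S_RK1 := p_RK1 z_RK0

theorem z_CW : S_CW := p_CW

theorem z_KPH : S_KPH := p_KPH

theorem z_KW : S_KW := p_KW

theorem z_KG : S_KG := p_KG z_KW

theorem z_KC : S_KC := p_KC

theorem z_KP : S_KP := p_KP z_KG z_KC

theorem z_KB : S_KB := p_KB

theorem z_K : S_K := p_K z_CW z_KPH z_KP z_KB

theorem z_LAMB : S_LAMB := p_LAMB z_CW

theorem z_CK : S_CK := p_CK z_CG z_CZ0 z_RK1 z_K z_LAMB

theorem z_DSB : S_DSB := p_DSB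

theorem z_UB : S_UB := p_UB z_XP z_M2

theorem z_AX : S_AX := p_AX z_WB z_PW z_DSB z_UB

theorem z_MAP : S_MAP := p_MAP

theorem z_MAW : S_MAW := p_MAW z_MAP z_WB

theorem z_AS : S_AS := p_AS z_MAW z_WB z_SWX

theorem z_CA : S_CA := p_CA z_AX z_AS z_LAMB

theorem z_DIV : S_DIV := p_DIV

theorem z_TK0 : S_TK0 := p_TK0

theorem z_TDEC : S_TDEC := p_TDEC

theorem z_TPICK : S_TPICK := p_TPICK

theorem z_TCORE : S_TCORE := p_TCORE z_TDEC z_TPICK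

theorem z_TLN0 : S_TLN0 := p_TLN0 z_TCORE

theorem z_TOM : S_TOM := p_TOM

theorem z_TLN1 : S_TLN1 := p_TLN1 z_TLN0 z_TOM

theorem z_TCS : S_TCS := p_TCS z_TLN1 z_TOM

theorem z_TFIB : S_TFIB := p_TFIB

theorem z_TKB : S_TKB := p_TKB

theorem z_TERR : S_TERR := p_TERR z_TFIB z_TKB

theorem z_TSH : S_TSH := p_TSH

theorem z_TVAR : S_TVAR := p_TVAR

theorem z_TOFF : S_TOFF := p_TOFF z_TSH z_TFIB z_TVAR

theorem z_TCONC : S_TCONC := p_TCONC z_TOFF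

theorem z_TGEN : S_TGEN := p_TGEN z_TK0 z_TCS z_TERR z_TCONC

theorem z_TPAR : S_TPAR := p_TPAR

theorem z_T : S_T := p_T z_DIV z_TGEN z_TPAR

theorem z_TW : S_TW := p_TW z_WB

theorem z_TA1 : S_TA1 := p_TA1 z_WB

theorem z_CT1 : S_CT1 := p_CT1 z_T z_TW z_TA1 z_AX z_DSB z_DIV z_LAMB

theorem z_TA0 : S_TA0 := p_TA0

theorem z_TA2 : S_TA2 := p_TA2 z_WB z_TA0

theorem z_CT2 : S_CT2 := p_CT2 z_T z_TW z_TA2 z_AX z_DSB z_DIV z_LAMB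

theorem z_CP : S_CP := p_CP z_WB z_PW z_DSB z_UB

theorem z_RAM : S_RAM := p_RAM

theorem z_RK2 : S_RK2 := p_RK2 z_RK0 z_RAM

theorem z_CZ1 : S_CZ1 := p_CZ1 z_CG z_CZ0 z_RK2 z_K z_LAMB

theorem z_LAND : S_LAND := p_LAND

theorem z_LF0 : S_LF0 := p_LF0 z_LAND

theorem z_MER3 : S_MER3 := p_MER3

theorem z_LEFT : S_LEFT := p_LEFT z_WB z_PW z_UB z_LF0 z_MER3

theorem z_MER2 : S_MER2 := p_MER2

theorem z_RJ : S_RJ := p_RJ z_RHO z_MER1 z_MER2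

theorem z_CZ : S_CZ := p_CZ z_CZ0 z_CZ1 z_LEFT z_RJ

theorem z_INP : S_INP := p_INP z_ONE z_TWO z_SYM z_RZ z_CX z_CK z_CA z_CT1 z_CT2 z_CP z_CZ

theorem z_CELL : S_CELL := p_CELL

theorem z_SUM1 : S_SUM1 := p_SUM1

theorem z_SUM : S_SUM := p_SUM z_CELL z_SUM1

theorem z_MA : S_MA := p_MA

theorem z_U0 : S_U0 := p_U0

theorem z_CVX : S_CVX := p_CVX

theorem z_CV : S_CV := p_CV z_U0 z_CVX

theorem z_MAIN : S_MAIN := p_MAIN z_MA z_CV z_MER1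

theorem z_IDT : S_IDT := p_IDT z_WB z_U0

theorem z_END : S_END := p_END

theorem z_FIN : S_FIN := p_FIN z_NUM z_INP z_SUM z_MAIN z_IDT z_ADM z_MER1 z_END

theorem z_UF : S_UF := p_UF z_FIN

end Pool.Agent.P.MP_e94e4b_nt.RP.U
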