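import Pool.Agent.P.MP_e94e4b_nt.RP.IfC
import Pool.Agent.P.MP_e94e4b_nt.RP.IfK
import Pool.Agent.P.MP_e94e4b_nt.RP.IfT

/-! The window with a moving class. -/

namespace Pool.Agent.P.MP_e94e4b_nt.RP.U

open Polynomial Finset
open Pool.Agent.P.MP_8be758_nt Pool.Agent.P.MP_8be758_nt.C2 Pool.Agent.P.MP_8be758_nt.L2
open Pool.Agent.P.MP_e94e4b_nt.LG
open scoped Classical

variable {k : Type} [Field k]

/-- a class prime to `h` attached to `F` -/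
noncomputable def cl (F h : k[X]) : k[X] := if IsCoprime F h then F else 1

theorem cl_cop (F h : k[X]) : IsCoprime (cl F h) h := by
  unfold cl; split_ifs with c
  exacts [c, isCoprime_one_left]

/-- the window, cut down to the class `cl F h` modulo `h` -/
noncomputable def Wn [Finite k] (F h : k[X]) (M : ℕ) : Finset k[X] :=
  (Mo k F.natDegree).filter (fun f => f - F ∈ low k M ∧ h ∣ f - cl F h)

/-- the weighted double divisor sum over the window -/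
noncomputable def BS [Finite k] (F h : k[X]) (M : ℕ) (w : k[X] → ℝ) (i : ℕ) (α : k[X] → ℝ)
    (j : ℕ) (α' : k[X] → ℝ) : ℝ :=
  ∑ f ∈ Wn F h M, w (f * (f + h)) * (DS i α f * DS j α' (f + h))

/-- a cell -/
noncomputable def CC [Finite k] (F h : k[X]) (M Z i j : ℕ) : ℝ :=
  BS F h M (av (Pr k Z)) i mu j mu

/-- the number of `f` in the window with `A ∣ f` and `C ∣ f + h` -/
noncomputable def cnt [Finite k] (F h : k[X]) (M : ℕ) (A C : k[X]) : ℝ :=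
  (((Wn F h M).filter (fun f => A ∣ f ∧ C ∣ f + h)).card : ℝ)

/-- the remainder -/
noncomputable def rm [Finite k] (F h : k[X]) (M : ℕ) (A C : k[X]) : ℝ :=
  cnt F h M A C - ex h M A C

/-- the total remainder -/
noncomputable def RM [Finite k] (F h : k[X]) (M : ℕ) (T : Finset k[X]) (lam : Finset k[X] → ℝ)
    (i : ℕ) (α : k[X] → ℝ) (j : ℕ) (α' : k[X] → ℝ) : ℝ :=
  ∑ S ∈ T.powerset, ∑ S' ∈ T.powerset, (if Disjoint S S' then lam (S ∪ S') else 0) *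
    ∑ d ∈ Mo k i, ∑ d' ∈ Mo k j, α d * α' d' * rm F h M (d * pr S) (d' * pr S')

/-- the inner sum of the bilinear estimate -/
noncomputable def TI [Finite k] (F h : k[X]) (M β ρ : ℕ) (γ : k[X] → k[X] → k[X] → ℝ)
    (e a : k[X]) : ℝ :=
  ∑ b ∈ Mo k β, ∑ r ∈ Mle k ρ,
    if a * b ∈ Wn F h M ∧ e * r ∣ a * b + h then γ e b r * mu ((a * b + h) /ₘ e) else 0

/-- a bound for the bilinear sum -/
def TB [Finite k] (F h : k[X]) (M β y ρ : ℕ) (B : ℝ) : Prop :=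
  ∀ γ : k[X] → k[X] → k[X] → ℝ, (∀ e b r, |γ e b r| ≤ 1) →
    (∀ e b r, γ e b r ≠ 0 → Squarefree b) →
    ∑ e ∈ Mo k y, ∑ a ∈ Mo k (F.natDegree - β), |TI F h M β ρ γ e a| ≤ B

/-- a bound for the sum of remainders -/
def KB [Finite k] (F h : k[X]) (M D j c : ℕ) (B : ℝ) : Prop :=
  ∀ β : k[X] → k[X] → ℝ, (∀ d p, |β d p| ≤ 1) → (∀ d p, β d p ≠ 0 → Squarefree (d * p)) →
    ∑ d ∈ Mo k D, ∑ C ∈ Mo k c, |∑ p ∈ Mo k j, β d p * rm F h M (d * p) C| ≤ B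

/-- the number of pairs -/
noncomputable def PI2 [Finite k] (F h : k[X]) (M : ℕ) : ℝ :=
  (((Wn F h M).filter (fun f => Irreducible f ∧ Irreducible (f + h))).card : ℝ)

/-- the sum over the small divisors -/
noncomputable def IR [Finite k] (F h : k[X]) (M ρ : ℕ) (c : k[X] → ℝ) (e a b : k[X]) : ℝ :=
  ∑ r ∈ Mle k ρ, if a * b ∈ Wn F h M ∧ e * r ∣ a * b + h then c r else 0

/-- the inner sum with the factor `φ b d` -/
noncomputable def IW [Finite k] (F h : k[X]) (M β ρ : ℕ) (γ : k[X] → k[X] → k[X] → ℝ)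
    (φ : k[X] → k[X] → ℝ) (e a : k[X]) : ℝ :=
  ∑ b ∈ Mo k β, IR F h M ρ (γ e b) e a b * φ b (dd h a b e)

/-- the bilinear sum -/
noncomputable def TT [Finite k] (F h : k[X]) (n M β y ρ : ℕ) (γ : k[X] → k[X] → k[X] → ℝ) : ℝ :=
  ∑ e ∈ Mo k y, ∑ a ∈ Mo k (n - β), |TI F h M β ρ γ e a|

/-- the weighted bilinear sum -/
noncomputable def TS1 [Finite k] [CharP k 2] (F h : k[X]) (n M β y ρ D a r s0 : ℕ)
    (γ : k[X] → k[X] → k[X] → ℝ) : ℝ :=
  ∑ e ∈ Mo k y, ∑ B ∈ Pd k D, ∑ x ∈ Mo k (n - β),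
    |IW F h M β ρ γ (fun b d => mu b * FW a r s0 (b * B) d) e x|

/-- the phase of the remainder term -/
noncomputable def ph (F h A C t : k[X]) : ℝ :=
  psi (res (A * C * h) (t * (F + h))) * DEC2_a h (A * C) (t * cl F h) * DEC2_a A C t

variable [Finite k]

theorem mem_Wn {F h f : k[X]} {M : ℕ} :
    f ∈ Wn F h M ↔ f ∈ Mo k F.natDegree ∧ f - F ∈ low k M ∧ h ∣ f - cl F h := mem_filter

theorem Wn_cop0 {F h f : k[X]} {M : ℕ} (w : f ∈ Wn F h M) : IsCoprime f h := by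
  obtain ⟨c, hc⟩ := (mem_Wn.1 w).2.2
  obtain ⟨u, v, e⟩ := cl_cop F h
  exact ⟨u, v - u * c, by linear_combination e + u * hc⟩

theorem Wn_cop {F h x b : k[X]} {M : ℕ} (w : x * b ∈ Wn F h M) :
    IsCoprime b h ∧ IsCoprime x h :=
  ⟨(Wn_cop0 w).of_mul_left_right, (Wn_cop0 w).of_mul_left_left⟩

theorem TI_eq (F h : k[X]) (M β ρ : ℕ) (γ : k[X] → k[X] → k[X] → ℝ) (e a : k[X]) :
    TI F h M β ρ γ e a = IW F h M β ρ γ (fun _ d => mu d) e a := by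
  simp only [TI, IW, IR, dd, sum_mul, ite_mul, zero_mul]

theorem add_mem_Wn {F h f v : k[X]} {M : ℕ} (hf : f ∈ Wn F h M) (hM : M ≤ f.natDegree)
    (hv : v ∈ low k M) (hd : h ∣ v) : f + v ∈ Wn F h M := by
  obtain ⟨h1, h2, h3⟩ := mem_Wn.1 hf
  refine mem_Wn.2 ⟨add_mem_Mo h1 (low_mono ((mem_Mo.1 h1).2 ▸ hM) hv), ?_, ?_⟩
  · rw [add_sub_right_comm]; exact add_mem_low h2 hv
  · rw [add_sub_right_comm]; exact dvd_add h3 hd

theorem IR_ne {F h e x b : k[X]} {M ρ : ℕ} {c : k[X] → ℝ} (h0 : IR F h M ρ c e x b ≠ 0) :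
    x * b ∈ Wn F h M ∧ e ∣ x * b + h ∧ ∃ r, c r ≠ 0 := by
  obtain ⟨r, -, hr⟩ := exists_ne_zero_of_sum_ne_zero h0
  split_ifs at hr with h1
  · exact ⟨h1.1, (dvd_mul_right e r).trans h1.2, r, hr⟩
  · exact absurd rfl hr

variable {n M β y ρ D s s0 σ L H a r p K : ℕ} {h b e x : k[X]}

/-- the number of small divisors -/
theorem card_IR {F : k[X]} {Z : ℝ} (P : Pt n M β y ρ h.natDegree D s s0 σ L H a r p K)
    (hZ : Dv k n Z) (hb : b ∈ Mo k β) (he : e ∈ Mo k y) (hx : x ∈ Mo k (n - β)) :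
    (((Mle k ρ).filter (fun r => x * b ∈ Wn F h M ∧ e * r ∣ x * b + h)).card : ℝ) ≤ Z := by
  by_cases h0 : e ∣ x * b + h
  · obtain ⟨d0, d1⟩ := dd_spec P hb he (mem_Ae.2 ⟨hx, h0⟩)
    have e0 := (mem_Mo.1 he).1
    refine hZ.card d0.ne_zero (by omega) fun r hr => ?_
    obtain ⟨r1, -, r2⟩ := mem_filter.1 hr
    rw [← mul_dd e0 h0] at r2
    exact ⟨(mem_Mle.1 r1).1, (mul_dvd_mul_iff_left e0.ne_zero).1 r2⟩
  · rw [filter_eq_empty_iff.2 fun r _ hr => h0 ((dvd_mul_right e r).trans hr.2)]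
    simpa using zero_le_one.trans hZ.one_le

theorem IR_le {F : k[X]} {Z : ℝ} {c : k[X] → ℝ}
    (P : Pt n M β y ρ h.natDegree D s s0 σ L H a r p K) (hZ : Dv k n Z) (hb : b ∈ Mo k β)
    (he : e ∈ Mo k y) (hx : x ∈ Mo k (n - β)) (hc : ∀ r, |c r| ≤ 1) :
    |IR F h M ρ c e x b| ≤ Z := by
  rw [IR, ← sum_filter]
  refine (abs_sum_le_sum_abs _ _).trans ((sum_le_card_nsmul _ _ 1 fun r _ => hc r).trans ?_)
  simpa using card_IR P hZ hb he hx

end Pool.Agent.P.MP_e94e4b_nt.RP.U
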