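import Pool.Agent.P.MP_0a67b8_nt.RU.Defs

/-! The steps for the window with a moving class, as statements. -/

namespace Pool.Agent.P.MP_e94e4b_nt.RP.U

open Polynomial Finset
open Pool.Agent.P.MP_8be758_nt Pool.Agent.P.MP_8be758_nt.C2 Pool.Agent.P.MP_8be758_nt.L2
open Pool.Agent.P.MP_e94e4b_nt.LG
open scoped Classical

def S_T : Prop :=
  ∀ K0 : ℕ, 1 ≤ K0 → ∃ κ : ℕ, 1 ≤ κ ∧ ∀ (k : Type) [Field k] [Finite k] [CharP k 2],
    ∃ n0 : ℕ, ∀ (h F : k[X]) (M β y ρ : ℕ), h ≠ 0 → F.Monic → n0 ≤ F.natDegree →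
      M ≤ F.natDegree → F.natDegree + h.natDegree < M + F.natDegree / κ → y + F.natDegree / K0 ≤ β →
      2 * β + 128 * ρ + F.natDegree / K0 ≤ F.natDegree →
      TB F h M β y ρ (qq k ^ F.natDegree / qq k ^ (F.natDegree / κ))

def S_K : Prop :=
  ∀ κ : ℕ, 1 ≤ κ → ∀ (k : Type) [Field k] [Finite k] [CharP k 2],
    ∃ n0 : ℕ, ∀ (h F : k[X]) (M D j c v : ℕ), h ≠ 0 → F.Monic → n0 ≤ F.natDegree → h.natDegree < M →
      M ≤ F.natDegree → F.natDegree / κ ≤ v → D + j ≤ 2 * F.natDegree →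
      5 * (D + j + c + h.natDegree - M) + 8 * v ≤ j →
      D + 2 * j + min D j + 5 * (D + j + c + h.natDegree - M) + 2 * (F.natDegree - M) +
        2 * h.natDegree + 8 * v ≤ 2 * c →
      KB F h M D j c (qq k ^ M / qq k ^ v)

def S_TLN1 : Prop :=
  ∀ (k : Type) [Field k] [Finite k] [CharP k 2] (F h e B b1 b2 c : k[X]) (c1 c2 : k[X] → ℝ)
    (n M β y ρ D s s0 σ L H a r p K : ℕ) (η Z : ℝ),
    Pt n M β y ρ h.natDegree D s s0 σ L H a r p K → h ≠ 0 → Dv k n Z → e ∈ Mo k y →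
    B ∈ Pd k D → b1 ∈ Mo k β → b2 ∈ Mo k β → IsCoprime b1 h → b1 + b2 = e * c →
    odp (b1 * b2 * h * c * B) ≠ 0 → (∀ r, |c1 r| ≤ 1) → (∀ r, |c2 r| ≤ 1) → 0 ≤ η → η ≤ 1 →
    16 * 4 ^ (2 * K) ≤ η ^ 2 ^ (2 * K) * qq k ^ H →
    |∑ x ∈ Mo k (n - β), IR F h M ρ c1 e x b1 * FW a r s0 (b1 * B) (dd h x b1 e) *
      (IR F h M ρ c2 e x b2 * FW a r s0 (b2 * B) (dd h x b2 e))| ≤
      2 * η * 4 ^ K * Z ^ 2 * qq k ^ (n - β - y)

def S_TCS : Prop :=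
  ∀ (k : Type) [Field k] [Finite k] [CharP k 2] (F h : k[X]) (γ : k[X] → k[X] → k[X] → ℝ)
    (n M β y ρ D s s0 σ L H a r p K : ℕ) (η Z : ℝ),
    Pt n M β y ρ h.natDegree D s s0 σ L H a r p K → h ≠ 0 → Dv k n Z → Cf γ → 0 ≤ η → η ≤ 1 →
    16 * 4 ^ (2 * K) ≤ η ^ 2 ^ (2 * K) * qq k ^ H →
    TS1 F h n M β y ρ D a r s0 γ ^ 2 ≤
      4 ^ K * Z ^ 2 * qq k ^ (2 * n + 2 * D + 1) * (2 * η + 2 / qq k ^ D)

def S_TK0 : Prop :=
  ∀ (k : Type) [Field k] [Finite k] [CharP k 2] (F h : k[X]) (γ : k[X] → k[X] → k[X] → ℝ)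
    (n M β y ρ D s s0 σ L H a r p K : ℕ) (Z : ℝ),
    Pt n M β y ρ h.natDegree D s s0 σ L H a r p K → Dv k n Z → Cf γ →
    (((Pd k D).card : ℝ) - n) * Gb k a r * TT F h n M β y ρ γ ≤
      TS1 F h n M β y ρ D a r s0 γ + Z * (TS2 h n β y D a r s0 + TS3 h n β y D s0 +
        2 ^ K * (TS4 h n β y D + TS5 h n β y D a))

def S_TGEN : Prop :=
  ∀ (k : Type) [Field k] [Finite k] [CharP k 2] (F h : k[X]) (γ : k[X] → k[X] → k[X] → ℝ)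
    (n M β y ρ D s s0 σ L H a r p K : ℕ) (η Z : ℝ),
    Pt n M β y ρ h.natDegree D s s0 σ L H a r p K → h ≠ 0 → Dv k n Z → Cf γ → 0 ≤ η → η ≤ 1 →
    16 * 4 ^ (2 * K) ≤ η ^ 2 ^ (2 * K) * qq k ^ H →
    (((Pd k D).card : ℝ) - n) * Gb k a r * TT F h n M β y ρ γ ≤
      2 ^ K * Z ^ 2 * qq k ^ (n + D + 1) *
        (√(2 * η + 2 / qq k ^ H) + √(2 / qq k ^ H) + (3 * n + 1) / qq k ^ H)

def S_TPAR : Prop :=
  ∀ K0 dh : ℕ, 1 ≤ K0 → ∀ n M β y ρ : ℕ, dh < n / (1000 * K0) → M ≤ n →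
    n ≤ M + n / (1000 * K0) → y + n / K0 ≤ β → 2 * β + 128 * ρ + n / K0 ≤ n →
    ∃ D s s0 σ L a r p : ℕ, Pt n M β y ρ dh D s s0 σ L (n / (1000 * K0)) a r p (100 * K0)

def S_KPH : Prop :=
  ∀ (k : Type) [Field k] [Finite k] [CharP k 2] (F h A C : k[X]) (M : ℕ), F.Monic → h ≠ 0 →
    M ≤ F.natDegree → A.Monic → C.Monic →
    rm F h M A C * qq k ^ (A.natDegree + C.natDegree + h.natDegree - M) =
      ∑ t ∈ (low k (A.natDegree + C.natDegree + h.natDegree - M)).erase 0, ph F h A C t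

def S_KC : Prop :=
  ∀ (k : Type) [Field k] [Finite k] [CharP k 2] (F h A t : k[X]) (M c L : ℕ), h ≠ 0 → A ≠ 0 →
    h.natDegree ≤ F.natDegree → t ∈ low k (A.natDegree + c + h.natDegree - M) →
    h.natDegree + L + F.natDegree ≤ c + M → M ≤ F.natDegree → ∀ C ∈ Mo k c, ∀ x ∈ low k L,
      psi (res (A * (C + h * x) * h) (t * (F + h))) * DEC2_a h (A * (C + h * x)) (t * cl F h) =
        psi (res (A * C * h) (t * (F + h))) * DEC2_a h (A * C) (t * cl F h)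

def S_KP : Prop :=
  ∀ (k : Type) [Field k] [Finite k] [CharP k 2] (F h t d p1 p2 : k[X]) (M D j c l w : ℕ),
    h ≠ 0 → h.natDegree < M → M ≤ F.natDegree → d ∈ Mo k D → p1 ∈ Mo k j → p2 ∈ Mo k j →
    Squarefree (d * p1) → Squarefree (d * p2) → l = D + j + c + h.natDegree - M → t ≠ 0 →
    t ∈ low k l → (∀ g : k[X], g.Monic → g ∣ p1 → g ∣ p2 → 2 * g.natDegree ≤ j) →
    5 * l + w ≤ j → 1 ≤ j →
    D + 2 * j + min D j + 5 * l + 2 * (F.natDegree - M) + 2 * h.natDegree + w ≤ 2 * c →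
    (∑ C ∈ Mo k c, ph F h (d * p1) C t * ph F h (d * p2) C t) ^ 2 * qq k ^ (4 * l + w) ≤
      qq k ^ (2 * c) * 256 ^ (pf (d * p1) ∪ pf (d * p2)).card

def S_WB : Prop :=
  ∀ (k : Type) [Field k] [Finite k] [CharP k 2] (F h f : k[X]) (M : ℕ), F.Monic → h ≠ 0 →
    h.natDegree < M → M ≤ F.natDegree → f ∈ Wn F h M →
    f ∈ Mo k F.natDegree ∧ f + h ∈ Mo k F.natDegree ∧ f + h ∈ Wn F h M ∧ f + h + h = f ∧
      IsCoprime f h ∧ IsCoprime (f + h) h ∧ IsCoprime f (f + h) ∧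
      pf (f * (f + h)) = pf f ∪ pf (f + h) ∧ Disjoint (pf f) (pf (f + h))

def S_SYM : Prop :=
  ∀ (k : Type) [Field k] [Finite k] [CharP k 2] (F h : k[X]) (M i j : ℕ) (w α α' : k[X] → ℝ),
    F.Monic → h ≠ 0 → h.natDegree < M → M ≤ F.natDegree →
    BS F h M w i α j α' = BS F h M w j α' i α

def S_CNT : Prop :=
  ∀ (k : Type) [Field k] [Finite k] [CharP k 2] (F h A C : k[X]) (M : ℕ), F.Monic → h ≠ 0 →
    h.natDegree < M → M ≤ F.natDegree → A.Monic → C.Monic →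
    (¬ (IsCoprime A C ∧ IsCoprime (A * C) h) → cnt F h M A C = 0) ∧
    (IsCoprime A C ∧ IsCoprime (A * C) h → ∃ f0 : k[X], A ∣ f0 ∧ C ∣ f0 + h ∧ h ∣ f0 - cl F h ∧
      cnt F h M A C = (((low k M).filter (fun x => A * C * h ∣ F + f0 + x)).card : ℝ)) ∧
    (A.natDegree + C.natDegree + h.natDegree ≤ M → rm F h M A C = 0)

def S_XP0 : Prop :=
  ∀ (k : Type) [Field k] [Finite k] [CharP k 2] (F h : k[X]) (M Z i j : ℕ)
    (lam : Finset k[X] → ℝ) (α α' : k[X] → ℝ), F.Monic → h ≠ 0 → h.natDegree < M →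
    M ≤ F.natDegree → (∀ S, lam S ≠ 0 → S ⊆ T2 h Z) → On (Pr k Z) α → On (Pr k Z) α' →
    BS F h M (sw lam) i α j α' = ∑ S ∈ (T2 h Z).powerset, ∑ S' ∈ (T2 h Z).powerset,
      (if Disjoint S S' then lam (S ∪ S') else 0) * ∑ d ∈ Mo k i, ∑ d' ∈ Mo k j,
        α d * α' d' * cnt F h M (d * pr S) (d' * pr S')

def S_XP : Prop :=
  ∀ (k : Type) [Field k] [Finite k] [CharP k 2] (F h : k[X]) (M Z δ i j : ℕ)
    (lam : Finset k[X] → ℝ) (α α' : k[X] → ℝ), F.Monic → h ≠ 0 → h.natDegree ≤ Z →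
    h.natDegree < M → M ≤ F.natDegree → Lv (T2 h Z) δ lam → On (Pr k Z) α → On (Pr k Z) α' →
    BS F h M (sw lam) i α j α' =
      QQ h M * EE (pc 2) (T2 h Z) lam * m2 i α j α' + RM F h M (T2 h Z) lam i α j α' ∧
    (i + j + δ + h.natDegree ≤ M → RM F h M (T2 h Z) lam i α j α' = 0)

def S_PW : Prop :=
  ∀ (k : Type) [Field k] [Finite k] [CharP k 2] (F h f : k[X]) (M Z δ : ℕ) (E : ℝ)
    (lam xi : Finset k[X] → ℝ), Ctx F h M Z δ E lam xi → f ∈ Wn F h M →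
    av (Pr k Z) (f * (f + h)) = av (Pr k Z) f * av (Pr k Z) (f + h) ∧
    av (Pr k Z) (f * (f + h)) ≤ sw lam (f * (f + h)) ∧
    |av (Pr k Z) (f * (f + h)) - sw lam (f * (f + h))| ≤ sw xi (f * (f + h)) ∧
    (Av (Pr k Z) f → sw lam (f * (f + h)) = sw lam (f + h))

def S_UB : Prop :=
  ∀ (k : Type) [Field k] [Finite k] [CharP k 2] (F h : k[X]) (M Z δ i j : ℕ) (E : ℝ)
    (lam xi : Finset k[X] → ℝ) (α α' : k[X] → ℝ), Ctx F h M Z δ E lam xi →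
    (∀ d, 0 ≤ α d) → (∀ d, 0 ≤ α' d) → On (Pr k Z) α → On (Pr k Z) α' →
    i + j + δ + h.natDegree ≤ M →
    BS F h M (sw lam) i α j α' ≤ 2 * (QQ h M * VV (pc 2) (T2 h Z)) * (mn i α * mn j α') ∧
    BS F h M (sw xi) i α j α' ≤ E * (QQ h M * VV (pc 2) (T2 h Z)) * (mn i α * mn j α')

def S_CG : Prop :=
  ∀ (k : Type) [Field k] [Finite k] [CharP k 2] (F h : k[X]) (M Z δ i j : ℕ) (E : ℝ)
    (lam xi : Finset k[X] → ℝ) (α α' : k[X] → ℝ), Ctx F h M Z δ E lam xi →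
    Bd α → Bd α' → On (Pr k Z) α → On (Pr k Z) α' →
    |BS F h M (av (Pr k Z)) i α j α' -
        QQ h M * EE (pc 2) (T2 h Z) lam * (mn i α * mn j α')| ≤
      E * (QQ h M * VV (pc 2) (T2 h Z)) * (rho (Pr k Z) i * rho (Pr k Z) j) +
        4 * QQ h M / qq k ^ Z + |RM F h M (T2 h Z) lam i α j α'| +
        |RM F h M (T2 h Z) xi i (fun d => |α d|) j (fun d => |α' d|)|

def S_CP : Prop :=
  ∀ (k : Type) [Field k] [Finite k] [CharP k 2] (F h : k[X]) (M Z δ i j β β' : ℕ) (E : ℝ)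
    (lam xi : Finset k[X] → ℝ), Ctx F h M Z δ E lam xi → i ≤ F.natDegree → j ≤ F.natDegree →
    (β = i ∨ β = F.natDegree - i) → (β' = j ∨ β' = F.natDegree - j) →
    β + β' + δ + h.natDegree ≤ M →
    |CC F h M Z i j| ≤
      2 * (QQ h M * VV (pc 2) (T2 h Z)) * (rho (Pr k Z) β * rho (Pr k Z) β')

def S_AX : Prop :=
  ∀ (k : Type) [Field k] [Finite k] [CharP k 2] (F h : k[X]) (M Z δ i j β : ℕ) (E : ℝ)
    (lam xi : Finset k[X] → ℝ), Ctx F h M Z δ E lam xi → i ≤ F.natDegree → j ≤ F.natDegree →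
    (i + (F.natDegree - j) + δ + h.natDegree ≤ M →
      |CC F h M Z i j - ∑ f ∈ Wn F h M, sw lam (f * (f + h)) *
          (DS i (ma (Pr k Z)) f * DM (F.natDegree - j) (av (Pr k Z)) (f + h))| ≤
        E * (QQ h M * VV (pc 2) (T2 h Z)) * (rho (Pr k Z) i * rho (Pr k Z) (F.natDegree - j))) ∧
    ((β = i ∨ β = F.natDegree - i) → β + (F.natDegree - j) + δ + h.natDegree ≤ M →
      |CC F h M Z i j - ∑ f ∈ Wn F h M, av (Pr k Z) f * DS i mu f *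
          (sw lam (f + h) * DM (F.natDegree - j) (av (Pr k Z)) (f + h))| ≤
        E * (QQ h M * VV (pc 2) (T2 h Z)) * (rho (Pr k Z) β * rho (Pr k Z) (F.natDegree - j)))

def S_MAW : Prop :=
  ∃ κ5 D0 : ℕ, 1 ≤ κ5 ∧ ∀ (k : Type) [Field k] [Finite k] [CharP k 2] (F h e A C : k[X])
    (M y j : ℕ), F.Monic → h ≠ 0 → h.natDegree < M → M ≤ F.natDegree → e ∈ Mo k y →
    y + j = F.natDegree → y ≤ M → A ≠ 0 → C ≠ 0 → IsCoprime C e → D0 ≤ j →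
    |∑ d ∈ (Mo k j).filter (fun d => d * e + h ∈ Wn F h M ∧ A ∣ d * e + h ∧ C ∣ d * e), mu d| *
      qq k ^ (j / κ5) ≤ qq k ^ j

def S_AS : Prop :=
  ∃ κ5 D0 : ℕ, 1 ≤ κ5 ∧ ∀ (k : Type) [Field k] [Finite k] [CharP k 2] (F h : k[X])
    (M Z δ i y j : ℕ) (Λ : ℝ) (lam : Finset k[X] → ℝ), F.Monic → h ≠ 0 → h.natDegree < M →
    M ≤ F.natDegree → Lv (T2 h Z) δ lam → (∀ S, |lam S| ≤ Λ) → y + j = F.natDegree → y ≤ M →
    D0 ≤ j →
    |∑ f ∈ Wn F h M, sw lam (f * (f + h)) *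
        (DS i (ma (Pr k Z)) f * DM y (av (Pr k Z)) (f + h))| * qq k ^ (j / κ5) ≤
      Λ * qq k ^ (2 * δ + 2 + i + F.natDegree)

def S_TW : Prop :=
  ∀ (k : Type) [Field k] [Finite k] [CharP k 2] (F h : k[X]) (M Z i β : ℕ) (Ψ : k[X] → ℝ)
    (B0 B1 τ : ℝ), F.Monic → h ≠ 0 → h.natDegree < M → M ≤ F.natDegree → i ≤ F.natDegree →
    (β = i ∨ β = F.natDegree - i) →
    (∀ c : k[X] → ℝ, Bd c → (∀ b, c b ≠ 0 → Squarefree b) →
      ∑ a ∈ Mo k (F.natDegree - β),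
        |∑ b ∈ Mo k β, if a * b ∈ Wn F h M then c b * Ψ (a * b + h) else 0| ≤ B0) →
    (∀ m ∈ Mo k F.natDegree, |Ψ m| ≤ B1) → (∀ m ∈ Mo k F.natDegree, nd m ≤ τ) →
    |∑ f ∈ Wn F h M, av (Pr k Z) f * DS i mu f * Ψ (f + h)| ≤
      B0 + τ * B1 * (qq k ^ (F.natDegree + 1) / qq k ^ Z)

def S_TA1 : Prop :=
  ∀ (k : Type) [Field k] [Finite k] [CharP k 2] (F h : k[X]) (M Z δ β y : ℕ) (Λ B : ℝ)
    (lam : Finset k[X] → ℝ) (c : k[X] → ℝ), F.Monic → h ≠ 0 → h.natDegree < M →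
    M ≤ F.natDegree → Lv (T2 h Z) δ lam → 0 < Λ → (∀ S, |lam S| ≤ Λ) → TB F h M β y δ B →
    Bd c → (∀ b, c b ≠ 0 → Squarefree b) →
    ∑ a ∈ Mo k (F.natDegree - β), |∑ b ∈ Mo k β, if a * b ∈ Wn F h M then
      c b * (sw lam (a * b + h) * DM y (av (Pr k Z)) (a * b + h)) else 0| ≤ Λ * B

def S_TA2 : Prop :=
  ∀ (k : Type) [Field k] [Finite k] [CharP k 2] (F h : k[X]) (M Z δ β y ρ : ℕ) (Λ B τ : ℝ)
    (lam : Finset k[X] → ℝ) (c : k[X] → ℝ), F.Monic → h ≠ 0 → h.natDegree < M →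
    M ≤ F.natDegree → Lv (T2 h Z) δ lam → 0 < Λ → (∀ S, |lam S| ≤ Λ) →
    (∀ a, a ≤ δ → TB F h M β (y + a) ρ B) → (∀ m ∈ Mo k F.natDegree, nd m ≤ τ) →
    Bd c → (∀ b, c b ≠ 0 → Squarefree b) →
    ∑ a ∈ Mo k (F.natDegree - β), |∑ b ∈ Mo k β, if a * b ∈ Wn F h M then
      c b * (sw lam (a * b + h) * DM y (av (Pr k Z)) (a * b + h)) else 0| ≤
      Λ * (((δ : ℝ) + 1) * B + τ ^ 4 * (qq k ^ (F.natDegree + 1) / qq k ^ ρ))

def S_RK0 : Prop :=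
  ∀ (k : Type) [Field k] [Finite k] (F h : k[X]) (M Z δ i u j : ℕ) (Λ B : ℝ)
    (lam : Finset k[X] → ℝ) (b : k[X] → k[X] → ℝ) (α' : k[X] → ℝ), Lv (T2 h Z) δ lam →
    (∀ S, |lam S| ≤ Λ) → 0 ≤ B → (∀ d p, |b d p| ≤ 1) →
    (∀ d p, b d p ≠ 0 → Av (Pr k Z) (d * p) ∧ Squarefree (d * p)) → Bd α' → On (Pr k Z) α' →
    (∀ a a', a + a' ≤ δ → KB F h M (i + a) u (j + a') B) →
    |∑ S ∈ (T2 h Z).powerset, ∑ S' ∈ (T2 h Z).powerset,
      (if Disjoint S S' then lam (S ∪ S') else 0) * ∑ d ∈ Mo k i, ∑ p ∈ Mo k u, ∑ d' ∈ Mo k j,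
        b d p * α' d' * rm F h M (d * p * pr S) (d' * pr S')| ≤ ((δ : ℝ) + 1) ^ 2 * Λ * B

def S_RK1 : Prop :=
  ∀ (k : Type) [Field k] [Finite k] (F h : k[X]) (M Z δ i j : ℕ) (Λ B : ℝ)
    (lam : Finset k[X] → ℝ) (α α' : k[X] → ℝ), Lv (T2 h Z) δ lam → (∀ S, |lam S| ≤ Λ) →
    0 ≤ B → Bd α → On (Pr k Z) α → (∀ d, α d ≠ 0 → Squarefree d) → Bd α' → On (Pr k Z) α' →
    (∀ a a', a + a' ≤ δ → KB F h M a i (j + a') B) →
    |RM F h M (T2 h Z) lam i α j α'| ≤ ((δ : ℝ) + 1) ^ 2 * Λ * B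

def S_RK2 : Prop :=
  ∀ (k : Type) [Field k] [Finite k] (F h : k[X]) (M Z δ i j J0 J1 : ℕ) (ε Λ B : ℝ)
    (lam : Finset k[X] → ℝ) (α' : k[X] → ℝ), Lv (T2 h Z) δ lam → (∀ S, |lam S| ≤ Λ) →
    0 ≤ B → |ε| = 1 → J1 ≤ i → Bd α' → On (Pr k Z) α' →
    (∀ u a a', J0 < u → u ≤ J1 → a + a' ≤ δ → KB F h M (i - u + a) u (j + a') B) →
    |RM F h M (T2 h Z) lam i (aJ ε Z J0 J1) j α'| ≤ J1 * (((δ : ℝ) + 1) ^ 2 * Λ * B)

def S_LEFT : Prop :=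
  ∀ (k : Type) [Field k] [Finite k] [CharP k 2] (F h : k[X]) (M Z δ i a b : ℕ) (E : ℝ)
    (lam xi : Finset k[X] → ℝ), Ctx F h M Z δ E lam xi → 1 ≤ Z → Z ≤ a → a ≤ b →
    8 * a ≤ F.natDegree → i + F.natDegree / 4 + δ + h.natDegree ≤ M →
    ∑ j ∈ range (F.natDegree + 1),
        |BS F h M (av (Pr k Z)) i (ma (Pr k Z ∪ JJ k a b)) j (ma (Pr k Z ∪ JJ k a b))| ≤
      2 * (QQ h M * VV (pc 2) (T2 h Z)) * rho (Pr k Z ∪ JJ k a b) i *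
        (2 ^ (F.natDegree / b) * ((a : ℝ) / Z) ^ 512)

def S_CZ0 : Prop :=
  ∀ (k : Type) [Field k] [Finite k] [CharP k 2] (F h : k[X]) (M Z δ i j a b : ℕ) (E : ℝ)
    (lam xi : Finset k[X] → ℝ), Ctx F h M Z δ E lam xi →
    CC F h M Z i j = BS F h M (av (Pr k Z)) i (ma (Pr k Z)) j (ma (Pr k Z)) ∧
    CC F h M Z i j = BS F h M (av (Pr k Z)) i (aJ (-1) Z a b) j (ma (Pr k Z)) +
      BS F h M (av (Pr k Z)) j (aJ (-1) Z a b) i (ma (Pr k Z ∪ JJ k a b)) +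
      BS F h M (av (Pr k Z)) i (ma (Pr k Z ∪ JJ k a b)) j (ma (Pr k Z ∪ JJ k a b)) ∧
    |mn i (aJ (-1) Z a b : k[X] → ℝ)| ≤ |mm (Pr k Z) i| + rho (Pr k Z ∪ JJ k a b) i ∧
    (fun d : k[X] => |aJ (-1) Z a b d|) = aJ 1 Z a b

def S_IDT : Prop :=
  ∀ (k : Type) [Field k] [Finite k] [CharP k 2] (F h : k[X]) (M Z : ℕ), F.Monic → h ≠ 0 →
    h.natDegree < M → M ≤ F.natDegree →
    -∑ i ∈ range (F.natDegree + 1), ∑ j ∈ range (F.natDegree + 1),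
        ((i : ℝ) - j) ^ 2 * CC F h M Z i j ≤
      2 * (F.natDegree : ℝ) ^ 2 * PI2 F h M +
        4 * (F.natDegree : ℝ) ^ 2 * (qq k ^ (F.natDegree + 1) / qq k ^ Z)

def S_CX : Prop :=
  ∀ t : ℕ, ∃ κ : ℕ, 1 ≤ κ ∧ ∀ (k : Type) [Field k] [Finite k] [CharP k 2],
    ∃ n0 : ℕ, ∀ (h F : k[X]) (M δ : ℕ) (E : ℝ) (lam xi : Finset k[X] → ℝ),
      Ctx F h M (zz F.natDegree t) δ E lam xi → n0 ≤ F.natDegree →
      ∀ i j, i + j + δ + h.natDegree ≤ M →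
        |CC F h M (zz F.natDegree t) i j - QQ h M * EE (pc 2) (T2 h (zz F.natDegree t)) lam *
            (mm (Pr k (zz F.natDegree t)) i * mm (Pr k (zz F.natDegree t)) j)| ≤
          E * (QQ h M * VV (pc 2) (T2 h (zz F.natDegree t))) *
            (rho (Pr k (zz F.natDegree t)) i * rho (Pr k (zz F.natDegree t)) j) +
          qq k ^ M / qq k ^ (F.natDegree / κ)

def S_CK : Prop :=
  ∀ t : ℕ, 1 ≤ t → ∃ κ : ℕ, 1 ≤ κ ∧ ∀ (k : Type) [Field k] [Finite k] [CharP k 2],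
    ∃ n0 : ℕ, ∀ (h F : k[X]) (M u : ℕ) (E : ℝ) (lam xi : Finset k[X] → ℝ),
      Ctx F h M (zz F.natDegree t) (dl F.natDegree t) E lam xi → n0 ≤ F.natDegree →
      u ≤ zz F.natDegree t → F.natDegree + h.natDegree ≤ M + u →
      ∀ i j, 65 * dl F.natDegree t < i → i + 9 * dl F.natDegree t ≤ j → j ≤ F.natDegree →
        i + j ≤ F.natDegree + u →
        |CC F h M (zz F.natDegree t) i j - QQ h M * EE (pc 2) (T2 h (zz F.natDegree t)) lam *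
            (mm (Pr k (zz F.natDegree t)) i * mm (Pr k (zz F.natDegree t)) j)| ≤
          E * (QQ h M * VV (pc 2) (T2 h (zz F.natDegree t))) *
            (rho (Pr k (zz F.natDegree t)) i * rho (Pr k (zz F.natDegree t)) j) +
          qq k ^ M / qq k ^ (F.natDegree / κ)

def S_CA : Prop :=
  ∃ κ5 : ℕ, 1 ≤ κ5 ∧ ∀ t : ℕ, 300 * κ5 * (10 * t + 3) ≤ 2 ^ t → ∃ κ : ℕ, 1 ≤ κ ∧
    ∀ (k : Type) [Field k] [Finite k] [CharP k 2],
    ∃ n0 : ℕ, ∀ (h F : k[X]) (M u : ℕ) (E : ℝ) (lam xi : Finset k[X] → ℝ),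
      Ctx F h M (zz F.natDegree t) (dl F.natDegree t) E lam xi → n0 ≤ F.natDegree →
      u ≤ zz F.natDegree t → F.natDegree + h.natDegree ≤ M + u →
      ∀ i j, i ≤ 65 * dl F.natDegree t → F.natDegree ≤ 2 * j → j ≤ F.natDegree →
        |CC F h M (zz F.natDegree t) i j| ≤
          E * (QQ h M * VV (pc 2) (T2 h (zz F.natDegree t))) *
            (rho (Pr k (zz F.natDegree t)) i * rho (Pr k (zz F.natDegree t)) (F.natDegree - j)) +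
          qq k ^ M / qq k ^ (F.natDegree / κ)

def S_CT1 : Prop :=
  ∀ t K0 : ℕ, 2 ^ t ≤ K0 → ∃ κ : ℕ, 1 ≤ κ ∧
    ∀ (k : Type) [Field k] [Finite k] [CharP k 2],
    ∃ n0 : ℕ, ∀ (h F : k[X]) (M : ℕ) (E : ℝ) (lam xi : Finset k[X] → ℝ),
      Ctx F h M (zz F.natDegree t) (dl F.natDegree t) E lam xi → n0 ≤ F.natDegree →
      F.natDegree + h.natDegree < M + F.natDegree / κ →
      ∀ i j β, i ≤ F.natDegree → j ≤ F.natDegree → (β = i ∨ β = F.natDegree - i) →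
        2 * β + 130 * dl F.natDegree t ≤ F.natDegree →
        F.natDegree - j + F.natDegree / K0 ≤ β →
        |CC F h M (zz F.natDegree t) i j| ≤
          E * (QQ h M * VV (pc 2) (T2 h (zz F.natDegree t))) *
            (rho (Pr k (zz F.natDegree t)) β * rho (Pr k (zz F.natDegree t)) (F.natDegree - j)) +
          qq k ^ M / qq k ^ (F.natDegree / κ)

def S_CT2 : Prop :=
  ∀ t K0 : ℕ, 2 ^ t ≤ K0 → ∃ κ : ℕ, 1 ≤ κ ∧
    ∀ (k : Type) [Field k] [Finite k] [CharP k 2],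
    ∃ n0 : ℕ, ∀ (h F : k[X]) (M : ℕ) (E : ℝ) (lam xi : Finset k[X] → ℝ),
      Ctx F h M (zz F.natDegree t) (dl F.natDegree t) E lam xi → n0 ≤ F.natDegree →
      F.natDegree + h.natDegree < M + F.natDegree / κ →
      ∀ i j β, i ≤ F.natDegree → j ≤ F.natDegree → (β = i ∨ β = F.natDegree - i) →
        2 * β + 2 * (F.natDegree / K0) ≤ F.natDegree →
        F.natDegree - j + dl F.natDegree t + F.natDegree / K0 ≤ β →
        |CC F h M (zz F.natDegree t) i j| ≤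
          E * (QQ h M * VV (pc 2) (T2 h (zz F.natDegree t))) *
            (rho (Pr k (zz F.natDegree t)) β * rho (Pr k (zz F.natDegree t)) (F.natDegree - j)) +
          qq k ^ M / qq k ^ (F.natDegree / κ)

def S_CZ1 : Prop :=
  ∀ t c0 : ℕ, 2 ≤ c0 → 3600 * c0 * (10 * t + 3) ≤ 2 ^ t → ∃ κ : ℕ, 1 ≤ κ ∧
    ∀ (k : Type) [Field k] [Finite k] [CharP k 2],
    ∃ n0 : ℕ, ∀ (h F : k[X]) (M u : ℕ) (E : ℝ) (lam xi : Finset k[X] → ℝ) (α' : k[X] → ℝ),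
      Ctx F h M (zz F.natDegree t) (dl F.natDegree t) E lam xi → n0 ≤ F.natDegree →
      u ≤ zz F.natDegree t → F.natDegree + h.natDegree ≤ M + u → Bd α' →
      On (Pr k (zz F.natDegree t)) α' →
      ∀ i j, Cor F.natDegree (dl F.natDegree t) i → Cor F.natDegree (dl F.natDegree t) j →
        |BS F h M (av (Pr k (zz F.natDegree t))) i
            (aJ (-1) (zz F.natDegree t) (700 * dl F.natDegree t) (F.natDegree / (4 * c0))) j α' -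
          QQ h M * EE (pc 2) (T2 h (zz F.natDegree t)) lam *
            (mn i (aJ (-1) (zz F.natDegree t) (700 * dl F.natDegree t)
              (F.natDegree / (4 * c0)) : k[X] → ℝ) * mn j α')| ≤
          E * (QQ h M * VV (pc 2) (T2 h (zz F.natDegree t))) *
            (rho (Pr k (zz F.natDegree t)) i * rho (Pr k (zz F.natDegree t)) j) +
          qq k ^ M / qq k ^ (F.natDegree / κ)

def S_CZ : Prop :=
  ∃ c0 : ℕ, 2 ≤ c0 ∧ ∀ t : ℕ, 3600 * c0 * (10 * t + 3) ≤ 2 ^ t → ∃ κ : ℕ, 1 ≤ κ ∧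
    ∀ (k : Type) [Field k] [Finite k] [CharP k 2],
    ∃ n0 : ℕ, ∀ (h F : k[X]) (M u : ℕ) (E CR : ℝ) (lam xi : Finset k[X] → ℝ),
      Ctx F h M (zz F.natDegree t) (dl F.natDegree t) E lam xi → n0 ≤ F.natDegree →
      u ≤ zz F.natDegree t → F.natDegree + h.natDegree ≤ M + u →
      (∀ j, 1 ≤ j → rho (Pr k (zz F.natDegree t)) j ≤ CR / zz F.natDegree t) →
      (∀ D, F.natDegree / 4 < D → D ≤ F.natDegree →
        |mm (Pr k (zz F.natDegree t)) D| ≤ 2 * E / zz F.natDegree t) →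
      ∃ c3 : ℕ → ℕ → ℝ, (∀ i j, 0 ≤ c3 i j) ∧
        (∀ i j, Cor F.natDegree (dl F.natDegree t) i → Cor F.natDegree (dl F.natDegree t) j →
          |CC F h M (zz F.natDegree t) i j| ≤
            2 * E * (QQ h M * VV (pc 2) (T2 h (zz F.natDegree t))) *
              (rho (Pr k (zz F.natDegree t)) i * rho (Pr k (zz F.natDegree t)) j) +
            4 * (QQ h M * VV (pc 2) (T2 h (zz F.natDegree t))) *
              ((2 * E + om0 c0 t) / zz F.natDegree t * (CR / zz F.natDegree t)) +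
            2 * (qq k ^ M / qq k ^ (F.natDegree / κ)) + c3 i j) ∧
        ∀ i, Cor F.natDegree (dl F.natDegree t) i → ∑ j ∈ range (F.natDegree + 1), c3 i j ≤
          QQ h M * VV (pc 2) (T2 h (zz F.natDegree t)) * (om0 c0 t / zz F.natDegree t) * lc0 c0 t

def S_INP : Prop :=
  ∃ (CF CR : ℝ) (c0 κ5 : ℕ), 1 ≤ CF ∧ 1 ≤ CR ∧ 2 ≤ c0 ∧ 1 ≤ κ5 ∧ ∀ t K0 : ℕ, 1 ≤ t →
    CF ≤ 2 ^ (5 * t) → 2 ^ t ≤ K0 → 3600 * c0 * κ5 * (10 * t + 3) ≤ 2 ^ t → ∃ κ : ℕ, 1 ≤ κ ∧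
    ∀ (k : Type) [Field k] [Finite k] [CharP k 2],
    ∃ n0 : ℕ, ∀ (h F : k[X]) (M : ℕ), Adm h → F.Monic → n0 ≤ F.natDegree → M ≤ F.natDegree →
      F.natDegree + h.natDegree < M + F.natDegree / κ → ∃ (Θ : ℝ) (c3 : ℕ → ℕ → ℝ),
        VV (pc 2) (T2 h (zz F.natDegree t)) ≤ Θ ∧
        Cells F.natDegree M h.natDegree (zz F.natDegree t) (dl F.natDegree t) (F.natDegree / K0)
          (CC F h M (zz F.natDegree t)) c3 (mm (Pr k (zz F.natDegree t)))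
          (rho (Pr k (zz F.natDegree t))) (QQ h M * VV (pc 2) (T2 h (zz F.natDegree t)))
          (QQ h M * Θ) (CF / 2 ^ (5 * t)) (qq k ^ M / qq k ^ (F.natDegree / κ)) (om0 c0 t)
          (lc0 c0 t) CR ∧
        ∀ j, dl F.natDegree t ≤ j →
          |rho (Pr k (zz F.natDegree t)) j - VV (pc 1) (Pr k (zz F.natDegree t))| ≤
            CF / 2 ^ (5 * t) * VV (pc 1) (Pr k (zz F.natDegree t))

def S_FIN : Prop :=
  ∃ K : ℕ, 1 ≤ K ∧ ∀ (k : Type) [Field k] [Finite k] [CharP k 2],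
    ∃ n0 : ℕ, ∀ (h F : k[X]), Adm h → F.Monic → n0 ≤ F.natDegree →
      h.natDegree < F.natDegree / K →
      QQ h F.natDegree ≤ VV (pc 1) (pf h) * (128 * (F.natDegree : ℝ) ^ 2 * PI2 F h F.natDegree)

end Pool.Agent.P.MP_e94e4b_nt.RP.U
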