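import Pool.Agent.P.MP_0a67b8_nt.RU.If
import Pool.Agent.P.MP_e94e4b_nt.LG.TPP

/-! Step IDT. -/

set_option autoImplicit false
set_option linter.unusedSectionVars false

namespace Pool.Agent.P.MP_e94e4b_nt.RP.U

open Polynomial Finset
open Pool.Agent.P.MP_8be758_nt Pool.Agent.P.MP_8be758_nt.C2 Pool.Agent.P.MP_8be758_nt.L2
open Pool.Agent.P.MP_e94e4b_nt.LG
open scoped Classical

theorem IDT_alg (s : Finset ℕ) (u v : ℕ → ℝ) (w a b : ℝ) (h1 : ∑ i ∈ s, u i = 0)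
    (h2 : ∑ i ∈ s, v i = 0) (h3 : ∑ i ∈ s, (i : ℝ) * u i = -a) (h4 : ∑ i ∈ s, (i : ℝ) * v i = -b) :
    ∑ i ∈ s, ∑ j ∈ s, ((i : ℝ) - j) ^ 2 * (w * (u i * v j)) = -(2 * (w * (a * b))) := by
  have e : ∀ i j : ℕ, ((i : ℝ) - j) ^ 2 * (w * (u i * v j)) = w * (((i : ℝ) ^ 2 * u i) * v j) -
      2 * w * (((i : ℝ) * u i) * ((j : ℝ) * v j)) + w * (u i * ((j : ℝ) ^ 2 * v j)) :=
    fun i j => by ring
  simp only [e, sum_add_distrib, sum_sub_distrib, ← mul_sum, ← sum_mul, h1, h2, h3, h4]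
  ring

variable {k : Type} [Field k] [Finite k]

/-- the polynomials with a large square factor -/
noncomputable def IDT_bad (k : Type) [Field k] [Finite k] (Z N : ℕ) : Finset k[X] :=
  (low k N).filter (fun V => V ≠ 0 ∧ ∃ P : k[X], P.Monic ∧ Z < P.natDegree ∧ P ^ 2 ∣ V)

theorem IDT_card (Z N : ℕ) : ((IDT_bad k Z N).card : ℝ) ≤ qq k ^ N / qq k ^ Z := by
  rw [le_div_iff₀ (pow_pos qq_pos _), qq]
  exact_mod_cast a_TB2 k Z N

theorem IDT_mem {Z n : ℕ} {f : k[X]} (hf : f ∈ Mo k n) (h1 : 1 ≤ n) (ha : Av (Pr k Z) f)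
    (hc : (pf f).card = 1) (hi : ¬ Irreducible f) : f ∈ IDT_bad k Z (n + 1) := by
  obtain ⟨m1, m2⟩ := mem_Mo.1 hf
  obtain ⟨P, j, hP, e⟩ := PP_pow m1 hc
  have j2 : 2 ≤ j := by
    rcases j with _ | _ | j
    · rw [e] at m2; simp at m2; omega
    · exact absurd (by rw [e]; simpa using hP.2) hi
    · omega
  exact mem_filter.2 ⟨mem_low_of_natDegree_lt (by omega), m1.ne_zero, P, hP.1,
    Av_Pr.1 ha P hP (e ▸ dvd_pow_self P (by omega)), e ▸ pow_dvd_pow P j2⟩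

theorem IDT_pt {Z n : ℕ} {f g : k[X]} (hf : f ∈ Mo k n) (hg : g ∈ Mo k n) (h1 : 1 ≤ n) :
    av (Pr k Z) (f * g) * ((if (pf f).card = 1 then (dg (pf f) : ℝ) else 0) *
      (if (pf g).card = 1 then (dg (pf g) : ℝ) else 0)) ≤ (n : ℝ) ^ 2 *
      ((if Irreducible f ∧ Irreducible g then 1 else 0) +
        (if f ∈ IDT_bad k Z (n + 1) then 1 else 0) +
        (if g ∈ IDT_bad k Z (n + 1) then 1 else 0)) := by
  by_cases h : Av (Pr k Z) (f * g) ∧ (pf f).card = 1 ∧ (pf g).card = 1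
  · obtain ⟨a, b, c⟩ := h
    have d : ∀ x ∈ Mo k n, (dg (pf x) : ℝ) ≤ n := fun x hx => by
      exact_mod_cast (mem_Mo.1 hx).2 ▸ dg_pf_le (mem_Mo.1 hx).1.ne_zero
    rw [av_of a, if_pos b, if_pos c, one_mul, sq]
    refine (mul_le_mul (d f hf) (d g hg) (by positivity) (by positivity)).trans
      (le_mul_of_one_le_right (by positivity) ?_)
    have i1 := IDT_mem hf h1 (a.of_dvd (dvd_mul_right _ _)) b
    have i2 := IDT_mem hg h1 (a.of_dvd (dvd_mul_left _ _)) c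
    split_ifs <;> first | tauto | norm_num
  · refine le_trans (le_of_eq ?_) (by positivity)
    by_cases a : Av (Pr k Z) (f * g)
    · by_cases b : (pf f).card = 1
      · rw [if_neg fun c => h ⟨a, b, c⟩, mul_zero, mul_zero]
      · rw [if_neg b, zero_mul, mul_zero]
    · rw [av_of_not a, zero_mul]

theorem p_IDT (hWB : S_WB) (hU0 : S_U0) :
    S_IDT := by
  intro k _ _ _ F h M Z hF h0 hM hn
  have wb := fun f => hWB k F h f M hF h0 hM hn
  generalize e : F.natDegree = n at *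
  have h1 : 1 ≤ n := by omega
  have u0 : ∀ f ∈ Mo k n, ∑ D ∈ range (n + 1), DS D mu f = 0 ∧
      ∑ D ∈ range (n + 1), (D : ℝ) * DS D mu f =
        -(if (pf f).card = 1 then (dg (pf f) : ℝ) else 0) := fun f hf => by
    obtain ⟨m1, rfl⟩ := mem_Mo.1 hf
    exact hU0 k f m1 h1
  simp only [CC, BS, mul_sum (Wn F h M)]
  rw [sum_congr rfl fun i _ => sum_comm, sum_comm, sum_congr rfl fun f hf =>
    IDT_alg _ _ _ _ _ _ (u0 f (wb f hf).1).1 (u0 _ (wb f hf).2.1).1 (u0 f (wb f hf).1).2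
      (u0 _ (wb f hf).2.1).2, sum_neg_distrib, neg_neg, ← mul_sum]
  have a1 := sum_le_sum fun f hf => IDT_pt (Z := Z) (wb f hf).1 (wb f hf).2.1 h1
  rw [← mul_sum, sum_add_distrib, sum_add_distrib, sum_boole, sum_boole, sum_boole] at a1
  have a2 : (((Wn F h M).filter fun f => f ∈ IDT_bad k Z (n + 1)).card : ℝ) ≤ _ :=
    (Nat.cast_le.2 (card_le_card fun f hf => (mem_filter.1 hf).2)).trans (IDT_card Z (n + 1))
  have a3 : (((Wn F h M).filter fun f => f + h ∈ IDT_bad k Z (n + 1)).card : ℝ) ≤ _ :=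
    (Nat.cast_le.2 (card_le_card_of_injOn (· + h) (fun f hf => (mem_filter.1 hf).2)
      fun _ _ _ _ e => add_right_cancel e)).trans (IDT_card Z (n + 1))
  have a4 := mul_le_mul_of_nonneg_left (add_le_add a2 a3) (sq_nonneg (n : ℝ))
  rw [PI2]
  linarith

end Pool.Agent.P.MP_e94e4b_nt.RP.U
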